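import Pool.Agent.H26.IX.Tuple

/-!
# Numerical lemmas
-/

namespace H26IX

open Finset H67SR H67SR.SqA Module Filter

theorem central_bound (m : ℕ) : (Nat.centralBinom m) ^ 2 * (2 * m + 1) ≤ 16 ^ m := by
  induction m with
  | zero => simp
  | succ m ih =>
    have h1 := Nat.succ_mul_centralBinom_succ m
    have h2 : (m + 1) ^ 2 * ((Nat.centralBinom (m + 1)) ^ 2 * (2 * (m + 1) + 1)) ≤
        (m + 1) ^ 2 * 16 ^ (m + 1) := by
      calc (m + 1) ^ 2 * ((Nat.centralBinom (m + 1)) ^ 2 * (2 * (m + 1) + 1))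
          = ((m + 1) * Nat.centralBinom (m + 1)) ^ 2 * (2 * m + 3) := by ring
        _ = (2 * (2 * m + 1) * Nat.centralBinom m) ^ 2 * (2 * m + 3) := by rw [h1]
        _ = (4 * (2 * m + 1) * (2 * m + 3)) * ((Nat.centralBinom m) ^ 2 * (2 * m + 1)) := by ring
        _ ≤ (4 * (2 * m + 1) * (2 * m + 3)) * 16 ^ m := Nat.mul_le_mul_left _ ih
        _ ≤ (16 * (m + 1) ^ 2) * 16 ^ m := by
            apply Nat.mul_le_mul_right
            nlinarith
        _ = (m + 1) ^ 2 * 16 ^ (m + 1) := by ring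
    exact Nat.le_of_mul_le_mul_left h2 (by positivity)

theorem choose_bound (n k : ℕ) : (n.choose k) ^ 2 * (n + 1) ≤ 4 ^ n := by
  rcases Nat.even_or_odd' n with ⟨m, rfl | rfl⟩
  · have h1 := Nat.choose_le_centralBinom k m
    calc ((2 * m).choose k) ^ 2 * (2 * m + 1) ≤ (Nat.centralBinom m) ^ 2 * (2 * m + 1) :=
          Nat.mul_le_mul_right _ (Nat.pow_le_pow_left h1 2)
      _ ≤ 16 ^ m := central_bound m
      _ = 4 ^ (2 * m) := by rw [pow_mul]; norm_num
  · have h1 := Nat.choose_le_middle k (2 * m + 1)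
    have h2 : (2 * m + 1) / 2 = m := by omega
    rw [h2] at h1
    have h3 : 2 * (2 * m + 1).choose m = Nat.centralBinom (m + 1) := by
      rw [Nat.centralBinom, show 2 * (m + 1) = (2 * m + 1) + 1 by ring, Nat.choose_succ_succ]
      have h4 : (2 * m + 1).choose (m + 1) = (2 * m + 1).choose m :=
        Nat.choose_symm_half m
      rw [h4]
      ring
    have h4 := central_bound (m + 1)
    rw [← h3] at h4
    have h5 : 4 * (((2 * m + 1).choose m) ^ 2 * (2 * m + 3)) ≤ 4 * 4 ^ (2 * m + 1) := by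
      calc 4 * (((2 * m + 1).choose m) ^ 2 * (2 * m + 3))
          = (2 * (2 * m + 1).choose m) ^ 2 * (2 * (m + 1) + 1) := by ring
        _ ≤ 16 ^ (m + 1) := h4
        _ = 4 * 4 ^ (2 * m + 1) := by
            rw [show (16 : ℕ) = 4 ^ 2 by norm_num, ← pow_mul]; ring
    have h6 : ((2 * m + 1).choose m) ^ 2 * (2 * m + 3) ≤ 4 ^ (2 * m + 1) :=
      Nat.le_of_mul_le_mul_left h5 (by norm_num)
    calc ((2 * m + 1).choose k) ^ 2 * (2 * m + 1 + 1)
        ≤ ((2 * m + 1).choose m) ^ 2 * (2 * m + 3) :=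
          Nat.mul_le_mul (Nat.pow_le_pow_left h1 2) (by omega)
      _ ≤ _ := h6

theorem choose_real (n k : ℕ) : (n.choose k : ℝ) ≤ 2 ^ n / Real.sqrt (n + 1) := by
  have h1 := choose_bound n k
  have h2 : (n.choose k : ℝ) ^ 2 * (n + 1) ≤ 4 ^ n := by exact_mod_cast h1
  have h3 : (0 : ℝ) < (n : ℝ) + 1 := by positivity
  have h4 : 0 < Real.sqrt ((n : ℝ) + 1) := Real.sqrt_pos.2 h3
  rw [le_div_iff₀ h4]
  have h5 : ((n.choose k : ℝ) * Real.sqrt (n + 1)) ^ 2 ≤ (2 ^ n) ^ 2 := by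
    rw [mul_pow, Real.sq_sqrt h3.le, ← pow_mul, mul_comm n 2, pow_mul]
    norm_num
    exact h2
  exact le_of_sq_le_sq h5 (by positivity)

theorem le_choose {n d : ℕ} (hd : 1 ≤ d) (hn : 2 * d ≤ n) : n ≤ n.choose d := by
  induction d with
  | zero => omega
  | succ d ih =>
    by_cases h : d = 0
    · subst h; simp
    · have h1 := ih (by omega) (by omega)
      exact h1.trans (Nat.choose_le_succ_of_lt_half_left (by omega))

theorem two_mul_le_two_pow {n : ℕ} (hn : 1 ≤ n) : 2 * n ≤ 2 ^ n := by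
  obtain ⟨m, rfl⟩ : ∃ m, n = m + 1 := ⟨n - 1, by omega⟩
  have h1 : m < 2 ^ m := Nat.lt_two_pow_self
  rw [pow_succ]
  omega

theorem pow_pred_ge {M : ℝ} {n : ℕ} (hM : 2 * (n : ℝ) ≤ M) (hM1 : 1 ≤ M) :
    M ^ n / 2 ≤ (M - 1) ^ n := by
  have hM0 : 0 < M := by linarith
  have h1 : (1 : ℝ) + n * (-(1 / M)) ≤ (1 + -(1 / M)) ^ n := by
    apply one_add_mul_le_pow
    have : 1 / M ≤ 1 := by rw [div_le_one hM0]; exact hM1
    linarith
  have h2 : (M - 1) ^ n = M ^ n * (1 + -(1 / M)) ^ n := by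
    rw [← mul_pow]
    congr 1
    field_simp
    ring
  have h3 : (n : ℝ) * (1 / M) ≤ 1 / 2 := by
    rw [mul_one_div, div_le_iff₀ hM0]
    linarith
  rw [h2]
  have h4 : (0 : ℝ) < M ^ n := by positivity
  have h5 : (1 : ℝ) / 2 ≤ (1 + -(1 / M)) ^ n := by linarith
  calc M ^ n / 2 = M ^ n * (1 / 2) := by ring
    _ ≤ _ := mul_le_mul_of_nonneg_left h5 h4.le

theorem log_div_tendsto : Tendsto (fun n : ℕ => Real.log (n : ℝ) / (n : ℝ)) atTop (nhds 0) := by
  have h1 : Tendsto (fun x : ℝ => Real.log x / x) atTop (nhds 0) := by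
    have h2 := Real.isLittleO_log_id_atTop
    exact h2.tendsto_div_nhds_zero
  exact h1.comp tendsto_natCast_atTop_atTop

theorem eventually_log_le (A B : ℝ) : ∀ᶠ n : ℕ in atTop, A * Real.log (n : ℝ) + B ≤ (n : ℝ) := by
  have h1 : Tendsto (fun n : ℕ => A * (Real.log (n : ℝ) / (n : ℝ)) + B / (n : ℝ)) atTop
      (nhds (A * 0 + 0)) := by
    apply Tendsto.add
    · exact log_div_tendsto.const_mul A
    · exact tendsto_const_div_atTop_nhds_zero_nat B
  rw [mul_zero, add_zero] at h1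
  have h2 := h1.eventually (gt_mem_nhds (show (0 : ℝ) < 1 by norm_num))
  filter_upwards [h2, eventually_gt_atTop 0] with n hn hn0
  have hn0' : (0 : ℝ) < (n : ℝ) := by exact_mod_cast hn0
  have h3 : (A * Real.log (n : ℝ) + B) / (n : ℝ) < 1 := by
    have : (A * Real.log (n : ℝ) + B) / (n : ℝ) =
      A * (Real.log (n : ℝ) / (n : ℝ)) + B / (n : ℝ) := by ring
    rw [this]; exact hn
  rw [div_lt_one hn0'] at h3
  exact h3.le

theorem quarter_tendsto (A : ℝ) :
    Tendsto (fun n : ℕ => A * (Real.exp (Real.log (n : ℝ) / 4) / Real.sqrt ((n : ℝ) + 1)))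
      atTop (nhds 0) := by
  have h1 : Tendsto (fun n : ℕ => ((n : ℝ)) ^ (-(1 / 4) : ℝ)) atTop (nhds 0) :=
    (tendsto_rpow_neg_atTop (by norm_num : (0 : ℝ) < 1 / 4)).comp tendsto_natCast_atTop_atTop
  have h2 : Tendsto (fun n : ℕ => Real.exp (Real.log (n : ℝ) / 4) / Real.sqrt ((n : ℝ) + 1))
      atTop (nhds 0) := by
    refine squeeze_zero' (Eventually.of_forall fun n => by positivity) ?_ h1
    filter_upwards [eventually_gt_atTop 0] with n hn
    have hn0 : (0 : ℝ) < (n : ℝ) := by exact_mod_cast hn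
    have h3 : Real.exp (Real.log (n : ℝ) / 4) = (n : ℝ) ^ (1 / 4 : ℝ) := by
      rw [Real.rpow_def_of_pos hn0]
      congr 1
      ring
    have h4 : (n : ℝ) ^ (1 / 2 : ℝ) ≤ Real.sqrt ((n : ℝ) + 1) := by
      rw [← Real.sqrt_eq_rpow]
      exact Real.sqrt_le_sqrt (by linarith)
    rw [h3, div_le_iff₀ (Real.sqrt_pos.2 (by positivity))]
    have h5 : (n : ℝ) ^ (1 / 4 : ℝ) = (n : ℝ) ^ (-(1 / 4) : ℝ) * (n : ℝ) ^ (1 / 2 : ℝ) := by
      rw [← Real.rpow_add hn0]
      norm_num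
    rw [h5]
    exact mul_le_mul_of_nonneg_left h4 (by positivity)
  have h3 := h2.const_mul A
  rw [mul_zero] at h3
  exact h3

/-! ### blocks in `Fin n` -/

/-- the blocks `{jd, …, jd + d - 1}` -/
def blk (n d : ℕ) (j : ℕ) : Finset (Fin n) :=
  Finset.univ.filter fun x => j * d ≤ x.val ∧ x.val < (j + 1) * d

theorem mem_blk {n d j : ℕ} {x : Fin n} :
    x ∈ blk n d j ↔ j * d ≤ x.val ∧ x.val < (j + 1) * d := by
  simp [blk]

theorem card_blk {n d j : ℕ} (h : (j + 1) * d ≤ n) : (blk n d j).card = d := by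
  have h1 : (blk n d j).image Fin.val = Finset.Ico (j * d) ((j + 1) * d) := by
    ext m
    rw [Finset.mem_image, Finset.mem_Ico]
    constructor
    · rintro ⟨x, hx, rfl⟩
      exact mem_blk.1 hx
    · rintro ⟨h1, h2⟩
      exact ⟨⟨m, by omega⟩, mem_blk.2 ⟨h1, h2⟩, rfl⟩
  rw [← Finset.card_image_of_injective _ Fin.val_injective, h1, Nat.card_Ico]
  have : (j + 1) * d = j * d + d := by ring
  omega

theorem disj_blk {n d i j : ℕ} (h : i ≠ j) : Disjoint (blk n d i) (blk n d j) := by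
  rw [Finset.disjoint_left]
  intro x hx hx'
  obtain ⟨h1, h2⟩ := mem_blk.1 hx
  obtain ⟨h3, h4⟩ := mem_blk.1 hx'
  rcases Nat.lt_or_gt_of_ne h with h5 | h5
  · have : (i + 1) * d ≤ j * d := Nat.mul_le_mul_right d h5
    omega
  · have : (j + 1) * d ≤ i * d := Nat.mul_le_mul_right d h5
    omega

/-- the constant -/
noncomputable def C2 (d : ℕ) : ℝ := 32 * (d : ℝ) ^ 3 * 9 ^ d + 2

theorem C2_pos (d : ℕ) : 0 < C2 d := by unfold C2; positivity

/-- the average nullity in `Fin n` -/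
theorem kap_fin {d : ℕ} (hd : 1 ≤ d) (c : ℝ) (hc : 0 ≤ c) : ∀ᶠ n : ℕ in atTop, ∀ e : ℕ,
    (e : ℝ) ≤ (n : ℝ) / 2 + (c * Real.log n + 1) →
    kap (Fin n) d e ≤ 1 / 2 + C2 d * (c * Real.log n + 2) / n := by
  set q : ℝ := 1 - (1 / 3) ^ d with hq
  have h3d : (0 : ℝ) < (1 / 3) ^ d := by positivity
  have h3d1 : ((1 : ℝ) / 3) ^ d ≤ 1 / 3 := by
    have h1 : ((1 : ℝ) / 3) ^ d ≤ (1 / 3) ^ 1 :=
      pow_le_pow_of_le_one (by norm_num) (by norm_num) hd
    simpa using h1
  have hq0 : 1 / 2 ≤ q := by rw [hq]; linarith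
  have hq1 : q < 1 := by rw [hq]; linarith
  have hlq : Real.log q < 0 := Real.log_neg (by linarith) hq1
  set K : ℝ := 1 / (-Real.log q) with hK
  have hK0 : 0 < K := by rw [hK]; exact one_div_pos.2 (by linarith)
  have hd1 : (1 : ℝ) ≤ d := by exact_mod_cast hd
  filter_upwards [eventually_log_le (16 * d * (c + 2 * d * K)) (16 * d * (1 + 2 * d)),
    eventually_ge_atTop 1] with n hbig hn e he
  have hn0 : (0 : ℝ) < (n : ℝ) := by exact_mod_cast hn
  have hlog : 0 ≤ Real.log (n : ℝ) := Real.log_nonneg (by exact_mod_cast hn)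
  set m : ℕ := ⌈K * Real.log (n : ℝ)⌉₊ with hm
  have hm1 : K * Real.log (n : ℝ) ≤ m := Nat.le_ceil _
  have hm2 : (m : ℝ) ≤ K * Real.log (n : ℝ) + 1 := (Nat.ceil_lt_add_one (by positivity)).le
  have hqm : q ^ m ≤ 1 / n := by
    have h1 : q ^ m = Real.exp (m * Real.log q) := by
      rw [← Real.rpow_natCast, Real.rpow_def_of_pos (by linarith), mul_comm]
    rw [h1]
    have h2 : (1 : ℝ) / n = Real.exp (-Real.log n) := by
      rw [Real.exp_neg, Real.exp_log hn0, one_div]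
    rw [h2]
    apply Real.exp_le_exp.2
    have h3 : (m : ℝ) * Real.log q ≤ (K * Real.log n) * Real.log q :=
      mul_le_mul_of_nonpos_right hm1 hlq.le
    have h4 : (K * Real.log n) * Real.log q = -Real.log n := by
      have hne : Real.log q ≠ 0 := hlq.ne
      rw [hK, one_div, inv_neg]
      field_simp
    linarith
  have hhm : ((1 : ℝ) / 2) ^ m ≤ 1 / n :=
    (pow_le_pow_left₀ (by norm_num) hq0 m).trans hqm
  have hτ : 0 ≤ c * Real.log n + 1 := by positivity
  have hb : 16 * d * ((c * Real.log n + 1) + m * d + m * d) ≤ ((Fintype.card (Fin n) : ℕ) : ℝ) := by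
    rw [Fintype.card_fin]
    refine le_trans ?_ hbig
    have h1 : (m : ℝ) * d ≤ (K * Real.log n + 1) * d :=
      mul_le_mul_of_nonneg_right hm2 (by linarith)
    have h2 : 16 * (d : ℝ) * ((c * Real.log n + 1) + m * d + m * d) ≤
        16 * d * ((c * Real.log n + 1) + (K * Real.log n + 1) * d + (K * Real.log n + 1) * d) :=
      mul_le_mul_of_nonneg_left (by linarith) (by linarith)
    refine h2.trans (le_of_eq ?_)
    ring
  have hmd : m * d ≤ n := by
    have h1 : (m : ℝ) * d ≤ n := by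
      rw [Fintype.card_fin] at hb
      have h2 : 0 ≤ (m : ℝ) * d := by positivity
      nlinarith
    exact_mod_cast h1
  have h1 := kap_bound (σ := Fin n) (T := blk n d) (r := m) (d := d) (e := e) (J := m) hd
    (fun i _ j _ hij => disj_blk hij)
    (fun j hj => card_blk (le_trans (Nat.mul_le_mul_right d hj) hmd)) hτ
    (by rw [Fintype.card_fin]; omega) (by rw [Fintype.card_fin]; exact he) hb hq
  rw [Fintype.card_fin] at h1
  refine h1.trans ?_
  have h2 : q ^ m + (1 / 2) ^ m ≤ 2 * (c * Real.log n + 2) / n := by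
    have h3 : q ^ m + (1 / 2) ^ m ≤ 2 / n := by
      have : (2 : ℝ) / n = 1 / n + 1 / n := by ring
      rw [this]; linarith
    refine h3.trans ?_
    apply div_le_div_of_nonneg_right _ hn0.le
    have : 0 ≤ c * Real.log n := by positivity
    linarith
  have h3 : C2 d * (c * Real.log n + 2) / n = 32 * d ^ 3 * 9 ^ d * (c * Real.log n + 1 + 1) / n +
      2 * (c * Real.log n + 2) / n := by
    unfold C2
    ring
  rw [h3]
  linarith

end H26IX
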