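import Pool.Agent.H26.IX.Tuple

/-!
# Averages over families of forms; codes
-/

namespace H26IX

open Finset H67SR H67SR.SqA Module

set_option linter.unusedSectionVars false

variable {σ : Type*} [DecidableEq σ] [Fintype σ]

/-- average over a finite family of forms -/
noncomputable def av {ι : Type*} [Fintype ι] (D : ι → SqA σ)
    (f : Submodule (ZMod 2) (SqA σ) → ℝ) : Submodule (ZMod 2) (SqA σ) → ℝ :=
  fun W => (∑ c, f (W ⊓ LinearMap.ker (mL (D c)))) / Fintype.card ι

/-- weighted dimension -/
noncomputable def Fz (z : ℝ) (W : Submodule (ZMod 2) (SqA σ)) : ℝ :=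
  ∑ e ∈ range (Fintype.card σ + 1), z ^ e * (finrank (ZMod 2) ↥(V e ⊓ W) : ℝ)

/-- the form of a code word -/
noncomputable def Dc {N : ℕ} (T : Fin N → Finset σ) (c : Fin N → ZMod 2) : SqA σ :=
  ∑ β, c β • mono (T β)

/-- the sets which are leading monomials of common annihilators of the code forms with columns
`c β`; `U` is the span of the columns already used -/
def good {j : ℕ} : (N : ℕ) → (Fin N → Finset σ) → (Fin N → (Fin j → ZMod 2)) →
    Submodule (ZMod 2) (Fin j → ZMod 2) → Finset σ → Prop
  | 0, _, _, _, _ => True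
  | N + 1, T, c, U, S =>
      (T 0 ⊆ S → good N (fun β => T β.succ) (fun β => c β.succ)
        (U ⊔ Submodule.span (ZMod 2) {c 0}) S) ∧
      (Disjoint (T 0) S → c 0 ∈ U ∧ good N (fun β => T β.succ) (fun β => c β.succ) U S) ∧
      (¬ T 0 ⊆ S → ¬ Disjoint (T 0) S →
        good N (fun β => T β.succ) (fun β => c β.succ) U S)

end H26IX
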