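import Pool.Agent.H67.SR.Iso

/-!
# Dimension counts in the squarefree algebra `SqA σ`
-/

namespace H26IX

open Finset H67SR H67SR.SqA Module

variable {σ : Type*} [DecidableEq σ]

theorem smul_apply' (c : ZMod 2) (f : SqA σ) (T : Finset σ) : (c • f) T = c * f T := rfl

/-- multiplication by `g` as a linear map -/
def mL (g : SqA σ) : SqA σ →ₗ[ZMod 2] SqA σ where
  toFun f := g * f
  map_add' := mul_add g
  map_smul' c f := by
    ext T
    simp only [mul_apply, smul_apply', RingHom.id_apply, Finset.mul_sum]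
    refine Finset.sum_congr rfl fun S _ => ?_
    ring

@[simp] theorem mL_apply (g f : SqA σ) : mL g f = g * f := rfl

/-- the homogeneous elements of degree `k` -/
def V (k : ℕ) : Submodule (ZMod 2) (SqA σ) where
  carrier := {f | ∀ T, f T ≠ 0 → T.card = k}
  zero_mem' := fun T hT => absurd rfl hT
  add_mem' := by
    intro f g hf hg T hT
    by_cases h : f T = 0
    · apply hg T
      intro h'
      apply hT
      rw [add_apply, h, h', add_zero]
    · exact hf T h
  smul_mem' := by
    intro c f hf T hT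
    apply hf T
    intro h
    apply hT
    rw [smul_apply', h, mul_zero]

theorem mem_V {k : ℕ} {f : SqA σ} : f ∈ V k ↔ ∀ T, f T ≠ 0 → T.card = k := Iff.rfl

theorem mul_mem_V {a b : ℕ} {f g : SqA σ} (hf : f ∈ V a) (hg : g ∈ V b) : f * g ∈ V (a + b) := by
  intro T hT
  obtain ⟨S, hST, h1, h2⟩ := exists_of_mul_ne_zero hT
  have h3 := hf S h1
  have h4 := hg _ h2
  have h5 := Finset.card_sdiff_add_card_eq_card hST
  omega

theorem mem_H_iff_V [Fintype σ] {k : ℕ} {f : SqA σ} :
    f ∈ H (Finset.univ : Finset σ) (k : ℤ) ↔ f ∈ V k := by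
  constructor
  · intro h T hT
    exact_mod_cast (h T hT).2
  · intro h T hT
    exact ⟨Finset.subset_univ _, by exact_mod_cast h T hT⟩

theorem sq_zero {d : ℕ} (hd : 1 ≤ d) [Fintype σ] {g : SqA σ} (hg : g ∈ V d) : g * g = 0 :=
  sq_eq_zero (V := Finset.univ) (d := (d : ℤ)) (by exact_mod_cast hd) (mem_H_iff_V.2 hg)

variable [Fintype σ]

/-- coordinates on `V k` -/
def Vequiv (k : ℕ) : (V k : Submodule (ZMod 2) (SqA σ)) ≃ₗ[ZMod 2]
    ({T : Finset σ // T.card = k} → ZMod 2) where
  toFun f := fun T => (f : SqA σ) T.1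
  map_add' _ _ := rfl
  map_smul' _ _ := rfl
  invFun g := ⟨fun T => if h : T.card = k then g ⟨T, h⟩ else 0, by
    intro T hT
    by_contra h
    exact hT (dif_neg h)⟩
  left_inv := by
    rintro ⟨f, hf⟩
    apply Subtype.ext
    ext T
    change (if h : T.card = k then f T else 0) = f T
    split_ifs with h
    · rfl
    · by_contra h'
      exact h (hf T (Ne.symm h'))
  right_inv := by
    intro g
    funext T
    change (if h : T.1.card = k then g ⟨T.1, h⟩ else 0) = g T
    rw [dif_pos T.2]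

theorem finrank_V (k : ℕ) :
    finrank (ZMod 2) (V k : Submodule (ZMod 2) (SqA σ)) = (Fintype.card σ).choose k := by
  classical
  rw [LinearEquiv.finrank_eq (Vequiv k), Module.finrank_fintype_fun_eq_card,
    Fintype.card_finset_len]

/-- the finite set of homogeneous elements of degree `d` -/
noncomputable def Vf (d : ℕ) : Finset (SqA σ) :=
  (Set.toFinite ((V d : Submodule (ZMod 2) (SqA σ)) : Set (SqA σ))).toFinset

theorem mem_Vf {d : ℕ} {f : SqA σ} : f ∈ Vf d ↔ f ∈ V d := by
  unfold Vf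
  rw [Set.Finite.mem_toFinset]
  rfl

theorem card_Vf (d : ℕ) : (Vf d : Finset (SqA σ)).card = 2 ^ (Fintype.card σ).choose d := by
  classical
  have h1 : (Vf d : Finset (SqA σ)).card = Nat.card (V d : Submodule (ZMod 2) (SqA σ)) := by
    unfold Vf
    rw [← Set.ncard_eq_toFinset_card]
    rfl
  haveI : Fintype (V d : Submodule (ZMod 2) (SqA σ)) := Fintype.ofFinite _
  rw [h1, Nat.card_eq_fintype_card, Module.card_eq_pow_finrank (K := ZMod 2), finrank_V,
    ZMod.card]

/-- dimension of the kernel of multiplication by `g` on `W` -/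
noncomputable def nul (W : Submodule (ZMod 2) (SqA σ)) (g : SqA σ) : ℕ :=
  finrank (ZMod 2) ↥(W ⊓ LinearMap.ker (mL g))

/-- sum of the nullities over all forms of degree `d` -/
noncomputable def S (d : ℕ) (W : Submodule (ZMod 2) (SqA σ)) : ℕ := ∑ g ∈ Vf d, nul W g

theorem nul_le (W : Submodule (ZMod 2) (SqA σ)) (g : SqA σ) : nul W g ≤ finrank (ZMod 2) W :=
  Submodule.finrank_mono inf_le_left

theorem nul_super (W W' : Submodule (ZMod 2) (SqA σ)) (g : SqA σ) :
    nul W g + nul W' g ≤ nul (W ⊔ W') g + nul (W ⊓ W') g := by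
  unfold nul
  have h1 := Submodule.finrank_sup_add_finrank_inf_eq (W ⊓ LinearMap.ker (mL g))
    (W' ⊓ LinearMap.ker (mL g))
  have h2 : finrank (ZMod 2) ↥((W ⊓ LinearMap.ker (mL g)) ⊔ (W' ⊓ LinearMap.ker (mL g))) ≤
      finrank (ZMod 2) ↥((W ⊔ W') ⊓ LinearMap.ker (mL g)) := by
    apply Submodule.finrank_mono
    apply sup_le
    · exact inf_le_inf_right _ le_sup_left
    · exact inf_le_inf_right _ le_sup_right
  have h3 : (W ⊓ LinearMap.ker (mL g)) ⊓ (W' ⊓ LinearMap.ker (mL g)) =
      (W ⊓ W') ⊓ LinearMap.ker (mL g) := by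
    rw [inf_inf_inf_comm, inf_idem]
  rw [h3] at h1
  omega

theorem S_super (d : ℕ) (W W' : Submodule (ZMod 2) (SqA σ)) :
    S d W + S d W' ≤ S d (W ⊔ W') + S d (W ⊓ W') := by
  unfold S
  rw [← Finset.sum_add_distrib, ← Finset.sum_add_distrib]
  exact Finset.sum_le_sum fun g _ => nul_super W W' g

theorem S_bot (d : ℕ) : S d (⊥ : Submodule (ZMod 2) (SqA σ)) = 0 := by
  unfold S
  apply Finset.sum_eq_zero
  intro g _
  unfold nul
  rw [bot_inf_eq, finrank_bot]

theorem S_le (d : ℕ) (W : Submodule (ZMod 2) (SqA σ)) :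
    S d W ≤ 2 ^ (Fintype.card σ).choose d * finrank (ZMod 2) W := by
  have h : S d W ≤ ∑ _g ∈ (Vf d : Finset (SqA σ)), finrank (ZMod 2) W := by
    unfold S
    exact Finset.sum_le_sum fun g _ => nul_le W g
  rw [Finset.sum_const, card_Vf, smul_eq_mul] at h
  exact h

end H26IX
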