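import Mathlib

/-!
# Numerical form of the lower bound for the index
-/

namespace H26IX

open Finset

theorem psum_le {z w : ℝ} (hw : 0 < w) (hwz : w ≤ z) (n D : ℕ) :
    ∑ j ∈ range D, (n.choose j : ℝ) * z ^ j ≤ (z / w) ^ D * (1 + w) ^ n := by
  have h1 : 1 ≤ z / w := (one_le_div hw).2 hwz
  have h2 : ∑ j ∈ range D, (n.choose j : ℝ) * z ^ j ≤
      ∑ j ∈ range D, (z / w) ^ D * ((n.choose j : ℝ) * w ^ j) := by
    refine Finset.sum_le_sum fun j hj => ?_
    have hj' : j ≤ D := (Finset.mem_range.1 hj).le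
    have h3 : z ^ j = (z / w) ^ j * w ^ j := by
      rw [← mul_pow, div_mul_cancel₀ _ hw.ne']
    rw [h3]
    have h4 : (z / w) ^ j ≤ (z / w) ^ D := pow_le_pow_right₀ h1 hj'
    have h5 : 0 ≤ (n.choose j : ℝ) * w ^ j := by positivity
    calc (n.choose j : ℝ) * ((z / w) ^ j * w ^ j) = (z / w) ^ j * ((n.choose j : ℝ) * w ^ j) := by
          ring
      _ ≤ _ := mul_le_mul_of_nonneg_right h4 h5
  refine h2.trans ?_
  rw [← Finset.mul_sum]
  apply mul_le_mul_of_nonneg_left _ (by positivity)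
  have h3 : (1 + w) ^ n = ∑ j ∈ range (n + 1), (n.choose j : ℝ) * w ^ j := by
    rw [add_comm, add_pow]
    refine Finset.sum_congr rfl fun j _ => ?_
    rw [one_pow, mul_one, mul_comm]
  rw [h3]
  calc ∑ j ∈ range D, (n.choose j : ℝ) * w ^ j
      ≤ ∑ j ∈ range (n + 1 + D), (n.choose j : ℝ) * w ^ j := by
        apply Finset.sum_le_sum_of_subset_of_nonneg
        · intro j hj
          rw [Finset.mem_range] at hj ⊢
          omega
        · intro j _ _
          positivity
    _ = ∑ j ∈ range (n + 1), (n.choose j : ℝ) * w ^ j := by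
        rw [Finset.sum_range_add]
        have : ∑ x ∈ range D, (n.choose (n + 1 + x) : ℝ) * w ^ (n + 1 + x) = 0 := by
          apply Finset.sum_eq_zero
          intro x _
          rw [Nat.choose_eq_zero_of_lt (by omega)]
          simp
        rw [this, add_zero]

theorem log_ineq {z w : ℝ} (hw : 0 < w) (hwz : w ≤ z) {n m D d : ℕ}
    (h : (1 + z) ^ n ≤ (1 + z ^ d) ^ m * ∑ j ∈ range D, (n.choose j : ℝ) * z ^ j) :
    (n : ℝ) * (Real.log (1 + z) - Real.log (1 + w)) - m * Real.log (1 + z ^ d) ≤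
      D * Real.log (z / w) := by
  have hz : 0 < z := lt_of_lt_of_le hw hwz
  have hzd : 0 < z ^ d := pow_pos hz d
  have h1 : (1 + z) ^ n ≤ (1 + z ^ d) ^ m * ((z / w) ^ D * (1 + w) ^ n) :=
    h.trans (mul_le_mul_of_nonneg_left (psum_le hw hwz n D) (by positivity))
  have h2 := Real.log_le_log (by positivity) h1
  rw [Real.log_mul (by positivity) (by positivity), Real.log_mul (by positivity) (by positivity),
    Real.log_pow, Real.log_pow, Real.log_pow, Real.log_pow] at h2
  linarith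

theorem sinh_le {t : ℝ} (ht : 0 ≤ t) : Real.sinh t ≤ t * Real.cosh t := by
  have h1 : ∀ x : ℝ, HasDerivAt (fun x : ℝ => x * Real.cosh x - Real.sinh x)
      (1 * Real.cosh x + x * Real.sinh x - Real.cosh x) x := fun x =>
    ((hasDerivAt_id x).mul (Real.hasDerivAt_cosh x)).sub (Real.hasDerivAt_sinh x)
  have h2 : MonotoneOn (fun x : ℝ => x * Real.cosh x - Real.sinh x) (Set.Ici 0) := by
    apply monotoneOn_of_deriv_nonneg (convex_Ici 0)
    · exact fun x _ => (h1 x).continuousAt.continuousWithinAt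
    · exact fun x _ => (h1 x).differentiableAt.differentiableWithinAt
    · intro x hx
      rw [interior_Ici] at hx
      rw [(h1 x).deriv]
      have hx' : 0 ≤ x := le_of_lt hx
      have := mul_nonneg hx' (Real.sinh_nonneg_iff.2 hx')
      linarith
  have h3 := h2 (Set.mem_Ici.2 le_rfl) (Set.mem_Ici.2 ht) ht
  simp only [Real.sinh_zero, zero_mul, sub_zero] at h3
  linarith

theorem cosh_exp {x y : ℝ} (hx : 0 ≤ x) (hxy : x ≤ y) :
    Real.log (Real.cosh y) - Real.log (Real.cosh x) ≤ (y ^ 2 - x ^ 2) / 2 := by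
  have h1 : ∀ t : ℝ, HasDerivAt (fun t : ℝ => t ^ 2 / 2 - Real.log (Real.cosh t))
      (((2 : ℕ) : ℝ) * t ^ (2 - 1) / 2 - Real.sinh t / Real.cosh t) t := fun t =>
    ((hasDerivAt_pow 2 t).div_const 2).sub ((Real.hasDerivAt_cosh t).log (Real.cosh_pos t).ne')
  have h2 : MonotoneOn (fun t : ℝ => t ^ 2 / 2 - Real.log (Real.cosh t)) (Set.Ici 0) := by
    apply monotoneOn_of_deriv_nonneg (convex_Ici 0)
    · exact fun x _ => (h1 x).continuousAt.continuousWithinAt
    · exact fun x _ => (h1 x).differentiableAt.differentiableWithinAt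
    · intro t ht
      rw [interior_Ici] at ht
      rw [(h1 t).deriv]
      have ht' : 0 ≤ t := le_of_lt ht
      have h3 := sinh_le ht'
      have h4 : Real.sinh t / Real.cosh t ≤ t := (div_le_iff₀ (Real.cosh_pos t)).2 h3
      have h5 : ((2 : ℕ) : ℝ) * t ^ (2 - 1) / 2 = t := by
        norm_num
      rw [h5]
      linarith
  have h3 := h2 (Set.mem_Ici.2 hx) (Set.mem_Ici.2 (hx.trans hxy)) hxy
  simp only at h3
  linarith

theorem log_one_add_exp (x : ℝ) :
    Real.log (1 + Real.exp (-x)) = Real.log 2 - x / 2 + Real.log (Real.cosh (x / 2)) := by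
  have h1 : 1 + Real.exp (-x) = 2 * Real.exp (-(x / 2)) * Real.cosh (x / 2) := by
    rw [Real.cosh_eq]
    have h2 : Real.exp (-(x / 2)) * Real.exp (x / 2) = 1 := by
      rw [← Real.exp_add]; simp
    have h3 : Real.exp (-(x / 2)) * Real.exp (-(x / 2)) = Real.exp (-x) := by
      rw [← Real.exp_add]; congr 1; ring
    have h4 : 2 * Real.exp (-(x / 2)) * ((Real.exp (x / 2) + Real.exp (-(x / 2))) / 2) =
        Real.exp (-(x / 2)) * Real.exp (x / 2) + Real.exp (-(x / 2)) * Real.exp (-(x / 2)) := by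
      ring
    rw [h4, h2, h3]
  rw [h1, Real.log_mul (by positivity) (Real.cosh_pos _).ne',
    Real.log_mul (by norm_num) (Real.exp_pos _).ne', Real.log_exp]
  ring

/-- the explicit lower bound -/
theorem explicit {n D d : ℕ} (hd : 1 ≤ d)
    (h : ∀ z : ℝ, 0 ≤ z →
      (1 + z) ^ n ≤ (1 + z ^ d) ^ n * ∑ j ∈ range D, (n.choose j : ℝ) * z ^ j) :
    (1 / 2 - (Real.log d + 27 / 20) / (2 * d)) * n ≤ D := by
  have hd0 : (0 : ℝ) < d := by exact_mod_cast hd
  have hd1 : (1 : ℝ) ≤ d := by exact_mod_cast hd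
  set a : ℝ := Real.log (2 * (d : ℝ) ^ 2) / d with ha
  set b : ℝ := a + 2 / d with hb
  have hlog : 0 ≤ Real.log (2 * (d : ℝ) ^ 2) := Real.log_nonneg (by nlinarith)
  have ha0 : 0 ≤ a := div_nonneg hlog hd0.le
  have h2d : 0 < 2 / (d : ℝ) := by positivity
  have hab : a ≤ b := by linarith
  have h1 := log_ineq (z := Real.exp (-a)) (w := Real.exp (-b)) (Real.exp_pos _)
    (Real.exp_le_exp.2 (by linarith)) (h (Real.exp (-a)) (Real.exp_pos _).le)
  have h2 : Real.exp (-a) / Real.exp (-b) = Real.exp (2 / d) := by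
    rw [← Real.exp_sub]; congr 1; rw [hb]; ring
  have h3 : Real.exp (-a) ^ d = 1 / (2 * (d : ℝ) ^ 2) := by
    rw [← Real.exp_nat_mul]
    have : (d : ℝ) * -a = -Real.log (2 * (d : ℝ) ^ 2) := by
      rw [ha]; field_simp
    rw [this, Real.exp_neg, Real.exp_log (by positivity), one_div]
  have h4 : Real.log (1 + Real.exp (-a) ^ d) ≤ 1 / (2 * (d : ℝ) ^ 2) := by
    rw [h3]
    have h5 := Real.log_le_sub_one_of_pos (show 0 < 1 + 1 / (2 * (d : ℝ) ^ 2) by positivity)
    linarith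
  rw [h2, Real.log_exp, log_one_add_exp, log_one_add_exp] at h1
  have h5 := cosh_exp (x := a / 2) (y := b / 2) (by linarith) (by linarith)
  have hn0 : (0 : ℝ) ≤ n := Nat.cast_nonneg n
  have h6 : (n : ℝ) * (1 / d - (b ^ 2 - a ^ 2) / 8 - 1 / (2 * (d : ℝ) ^ 2)) ≤ D * (2 / d) := by
    have h7 : (n : ℝ) * Real.log (1 + Real.exp (-a) ^ d) ≤ n * (1 / (2 * (d : ℝ) ^ 2)) :=
      mul_le_mul_of_nonneg_left h4 hn0
    have h8 : (n : ℝ) * (1 / d - (b ^ 2 - a ^ 2) / 8) ≤
        n * (Real.log 2 - a / 2 + Real.log (Real.cosh (a / 2)) -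
          (Real.log 2 - b / 2 + Real.log (Real.cosh (b / 2)))) := by
      apply mul_le_mul_of_nonneg_left _ hn0
      have h9 : b / 2 - a / 2 = 1 / d := by rw [hb]; ring
      have h10 : ((b / 2) ^ 2 - (a / 2) ^ 2) / 2 = (b ^ 2 - a ^ 2) / 8 := by ring
      rw [h10] at h5
      linarith
    linarith
  have hlog2 : Real.log 2 ≤ 7 / 10 := by
    have := Real.log_two_lt_d9
    linarith
  have h7 : a = (Real.log 2 + 2 * Real.log d) / d := by
    rw [ha, Real.log_mul (by norm_num) (by positivity), Real.log_pow]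
    push_cast
    ring
  have h8 : 1 / (d : ℝ) - (b ^ 2 - a ^ 2) / 8 - 1 / (2 * (d : ℝ) ^ 2) =
      (1 / 2 - (Real.log d + (1 + Real.log 2 / 2)) / (2 * d)) * (2 / d) := by
    rw [hb, h7]
    field_simp
    ring
  rw [h8, ← mul_assoc] at h6
  have h9 : (n : ℝ) * (1 / 2 - (Real.log d + (1 + Real.log 2 / 2)) / (2 * d)) ≤ D :=
    le_of_mul_le_mul_right h6 h2d
  have h10 : (Real.log d + (1 + Real.log 2 / 2)) / (2 * (d : ℝ)) ≤
      (Real.log d + 27 / 20) / (2 * d) := by
    apply div_le_div_of_nonneg_right _ (by positivity)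
    linarith
  calc (1 / 2 - (Real.log d + 27 / 20) / (2 * d)) * (n : ℝ)
      ≤ (1 / 2 - (Real.log d + (1 + Real.log 2 / 2)) / (2 * d)) * n := by
        apply mul_le_mul_of_nonneg_right _ hn0
        linarith
    _ = n * (1 / 2 - (Real.log d + (1 + Real.log 2 / 2)) / (2 * d)) := by ring
    _ ≤ D := h9

/-- quadratic forms -/
theorem quadratic {n D : ℕ}
    (h : ∀ z : ℝ, 0 ≤ z →
      (1 + z) ^ n ≤ (1 + z ^ 2) ^ n * ∑ j ∈ range D, (n.choose j : ℝ) * z ^ j) :
    3 / 40 * (n : ℝ) ≤ D := by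
  have h1 := log_ineq (z := 27 / 100) (w := 3 / 37) (by norm_num) (by norm_num)
    (h (27 / 100) (by norm_num))
  have h2 : 3 / 40 * Real.log ((27 / 100) / (3 / 37)) ≤
      Real.log (1 + 27 / 100) - Real.log (1 + 3 / 37) - Real.log (1 + (27 / 100) ^ 2) := by
    have h3 : ((27 / 100 : ℝ) / (3 / 37)) ^ 3 ≤
        ((1 + 27 / 100) / (1 + 3 / 37) / (1 + (27 / 100) ^ 2)) ^ 40 := by norm_num
    have h4 := Real.log_le_log (by positivity) h3
    rw [Real.log_pow, Real.log_pow, Real.log_div (x := (1 + 27 / 100) / (1 + 3 / 37))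
      (by positivity) (by positivity), Real.log_div (x := 1 + 27 / 100) (by positivity)
      (by positivity)] at h4
    push_cast at h4
    linarith
  have h3 : 0 < Real.log ((27 / 100 : ℝ) / (3 / 37)) := Real.log_pos (by norm_num)
  have hn0 : (0 : ℝ) ≤ n := Nat.cast_nonneg n
  have h4 := mul_le_mul_of_nonneg_left h2 hn0
  have h5 : (3 / 40 * (n : ℝ)) * Real.log ((27 / 100) / (3 / 37)) ≤
      D * Real.log ((27 / 100) / (3 / 37)) := by linarith
  exact le_of_mul_le_mul_right h5 h3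

end H26IX
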