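import Pool.Agent.H26.IX.Tuple

/-!
# Lower bound for the index of every tuple
-/

namespace H26IX

open Finset H67SR H67SR.SqA Module

set_option linter.unusedSectionVars false

variable {σ : Type*} [DecidableEq σ] [Fintype σ]

theorem Ann_cons' {m : ℕ} (W : Submodule (ZMod 2) (SqA σ)) (a : SqA σ) (lam : Fin m → SqA σ) :
    Ann W (Fin.cons a lam : Fin (m + 1) → SqA σ) = Ann W lam ⊓ LinearMap.ker (mL a) := by
  rw [Ann_cons]
  unfold Ann
  rw [inf_right_comm]

theorem mem_Ann {m : ℕ} {W : Submodule (ZMod 2) (SqA σ)} {lam : Fin m → SqA σ} {x : SqA σ} :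
    x ∈ Ann W lam ↔ x ∈ W ∧ ∀ i, lam i * x = 0 := by
  unfold Ann
  simp only [Submodule.mem_inf, Submodule.mem_iInf, LinearMap.mem_ker, mL_apply]

theorem Ann_step {m d : ℕ} (hd : 1 ≤ d) (e : ℕ) {a : SqA σ} (ha : a ∈ V d) (lam : Fin m → SqA σ) :
    finrank (ZMod 2) (Ann (V e) lam) ≤
      finrank (ZMod 2) (Ann (V e) (Fin.cons a lam : Fin (m + 1) → SqA σ)) +
      finrank (ZMod 2) (Ann (V (e + d)) (Fin.cons a lam : Fin (m + 1) → SqA σ)) := by
  have h1 := rank_nullity (Ann (V e) lam) (mL a)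
  have h2 : finrank (ZMod 2) ((Ann (V e) lam).map (mL a)) ≤
      finrank (ZMod 2) (Ann (V (e + d)) (Fin.cons a lam : Fin (m + 1) → SqA σ)) := by
    apply Submodule.finrank_mono
    rintro _ ⟨x, hx, rfl⟩
    rw [SetLike.mem_coe, mem_Ann] at hx
    rw [mem_Ann]
    refine ⟨?_, ?_⟩
    · rw [mL_apply, add_comm e d]
      exact mul_mem_V ha hx.1
    · intro i
      rw [mL_apply]
      refine Fin.cases ?_ (fun i => ?_) i
      · rw [Fin.cons_zero, ← mul_assoc, sq_zero hd ha, zero_mul]
      · rw [Fin.cons_succ, ← mul_assoc, mul_comm (lam i) a, mul_assoc, hx.2 i, mul_zero]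
  rw [Ann_cons' (V e) a lam]
  omega

/-- generating function of the dimensions of the common kernels -/
noncomputable def GF {m : ℕ} (lam : Fin m → SqA σ) (z : ℝ) : ℝ :=
  ∑ e ∈ range (Fintype.card σ + 1), (finrank (ZMod 2) (Ann (V e) lam) : ℝ) *
    z ^ (Fintype.card σ - e)

theorem finrank_Ann_le {m : ℕ} (e : ℕ) (lam : Fin m → SqA σ) :
    finrank (ZMod 2) (Ann (V e) lam) ≤ (Fintype.card σ).choose e := by
  rw [← finrank_V]
  exact Submodule.finrank_mono inf_le_left

theorem GF_step {m d : ℕ} (hd : 1 ≤ d) {a : SqA σ} (ha : a ∈ V d) (lam : Fin m → SqA σ) {z : ℝ}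
    (hz : 0 ≤ z) : GF lam z ≤ (1 + z ^ d) * GF (Fin.cons a lam : Fin (m + 1) → SqA σ) z := by
  set N := Fintype.card σ with hN
  set g : ℕ → ℝ := fun e =>
    (finrank (ZMod 2) (Ann (V e) (Fin.cons a lam : Fin (m + 1) → SqA σ)) : ℝ) * z ^ (N - e) with hg
  have hg0 : ∀ e, 0 ≤ g e := fun e => mul_nonneg (Nat.cast_nonneg _) (pow_nonneg hz _)
  have hgN : ∀ e, N < e → g e = 0 := by
    intro e he
    have h1 := finrank_Ann_le e (Fin.cons a lam : Fin (m + 1) → SqA σ)
    rw [← hN, Nat.choose_eq_zero_of_lt he] at h1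
    have h2 : finrank (ZMod 2) (Ann (V e) (Fin.cons a lam : Fin (m + 1) → SqA σ)) = 0 := by omega
    change ((finrank (ZMod 2) (Ann (V e) (Fin.cons a lam : Fin (m + 1) → SqA σ)) : ℕ) : ℝ) *
      z ^ (N - e) = 0
    rw [h2, Nat.cast_zero, zero_mul]
  have h1 : GF lam z ≤ ∑ e ∈ range (N + 1), (g e + z ^ d * g (d + e)) := by
    unfold GF
    rw [← hN]
    refine Finset.sum_le_sum fun e he => ?_
    have he' : e ≤ N := by rw [Finset.mem_range] at he; omega
    have h2 := Ann_step hd e ha lam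
    have h3 : (finrank (ZMod 2) (Ann (V e) lam) : ℝ) * z ^ (N - e) ≤
        ((finrank (ZMod 2) (Ann (V e) (Fin.cons a lam : Fin (m + 1) → SqA σ)) : ℝ) +
        (finrank (ZMod 2) (Ann (V (e + d)) (Fin.cons a lam : Fin (m + 1) → SqA σ)) : ℝ)) *
          z ^ (N - e) := by
      apply mul_le_mul_of_nonneg_right _ (pow_nonneg hz _)
      exact_mod_cast h2
    refine h3.trans (le_of_eq ?_)
    rw [add_mul]
    congr 1
    by_cases h4 : e + d ≤ N
    · change _ = z ^ d * ((finrank (ZMod 2)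
        (Ann (V (d + e)) (Fin.cons a lam : Fin (m + 1) → SqA σ)) : ℝ) * z ^ (N - (d + e)))
      have h5 : N - e = d + (N - (d + e)) := by omega
      rw [h5, pow_add, add_comm e d]
      ring
    · have h5 : N < e + d := by omega
      have h6 := finrank_Ann_le (e + d) (Fin.cons a lam : Fin (m + 1) → SqA σ)
      rw [← hN, Nat.choose_eq_zero_of_lt h5] at h6
      have h7 : finrank (ZMod 2) (Ann (V (e + d)) (Fin.cons a lam : Fin (m + 1) → SqA σ)) = 0 := by
        omega
      rw [h7, hgN (d + e) (by omega)]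
      simp
  have h2 : ∑ e ∈ range (N + 1), g (d + e) ≤ ∑ e ∈ range (N + 1), g e := by
    have h3 := Finset.sum_range_add g d (N + 1)
    have h4 := Finset.sum_range_add g (N + 1) d
    have h5 : ∑ x ∈ range d, g (N + 1 + x) = 0 := by
      apply Finset.sum_eq_zero
      intro x _
      exact hgN _ (by omega)
    rw [h5, add_zero, add_comm (N + 1) d, h3] at h4
    have h6 : 0 ≤ ∑ x ∈ range d, g x := Finset.sum_nonneg fun x _ => hg0 x
    linarith
  have h3 : GF (Fin.cons a lam : Fin (m + 1) → SqA σ) z = ∑ e ∈ range (N + 1), g e := rfl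
  rw [h3]
  refine h1.trans ?_
  rw [Finset.sum_add_distrib, ← Finset.mul_sum]
  have h4 := mul_le_mul_of_nonneg_left h2 (pow_nonneg hz d)
  linarith

theorem GF_ge {d : ℕ} (hd : 1 ≤ d) {z : ℝ} (hz : 0 ≤ z) (m : ℕ) :
    ∀ lam : Fin m → SqA σ, (∀ i, lam i ∈ V d) →
      (1 + z) ^ Fintype.card σ ≤ (1 + z ^ d) ^ m * GF lam z := by
  induction m with
  | zero =>
    intro lam _
    rw [pow_zero, one_mul, add_pow]
    unfold GF
    apply le_of_eq
    refine Finset.sum_congr rfl fun e _ => ?_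
    have h1 : Ann (V e) lam = V e := by
      unfold Ann
      simp
    rw [h1, finrank_V, one_pow, one_mul, mul_comm]
  | succ m ih =>
    intro lam hlam
    have h1 := ih (Fin.tail lam) (fun i => hlam i.succ)
    have h2 := GF_step hd (hlam 0) (Fin.tail lam) hz
    rw [Fin.cons_self_tail] at h2
    have h3 : 0 ≤ (1 + z ^ d) ^ m := by positivity
    calc (1 + z) ^ Fintype.card σ ≤ (1 + z ^ d) ^ m * GF (Fin.tail lam) z := h1
      _ ≤ (1 + z ^ d) ^ m * ((1 + z ^ d) * GF lam z) := mul_le_mul_of_nonneg_left h2 h3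
      _ = (1 + z ^ d) ^ (m + 1) * GF lam z := by rw [pow_succ]; ring

theorem mono_mem_V (T : Finset σ) : (mono T : SqA σ) ∈ V T.card := by
  intro U hU
  rw [mono_apply] at hU
  by_cases h : U = T
  · rw [h]
  · rw [if_neg h] at hU; exact absurd rfl hU

theorem Ann_eq_bot {m D e : ℕ} (he : e + D ≤ Fintype.card σ) {lam : Fin m → SqA σ}
    (hD : ∀ f ∈ (V D : Submodule (ZMod 2) (SqA σ)), f ∈ Ideal.span (Set.range lam)) :
    Ann (V e) lam = ⊥ := by
  rw [Submodule.eq_bot_iff]
  intro x hx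
  rw [mem_Ann] at hx
  by_contra hne
  have h1 : ∃ T, x T ≠ 0 := by
    by_contra h
    apply hne
    ext T
    by_contra h'
    exact h ⟨T, h'⟩
  obtain ⟨T, hT⟩ := h1
  have hTe := hx.1 T hT
  have hc : Tᶜ.card = Fintype.card σ - e := by rw [Finset.card_compl, hTe]
  obtain ⟨S, hS, hSc⟩ := Finset.exists_subset_card_eq (show D ≤ Tᶜ.card by omega)
  have h2 : (mono Tᶜ : SqA σ) ∈ Ideal.span (Set.range lam) := by
    have h3 : (mono Tᶜ : SqA σ) = mono (Tᶜ \ S) * mono S := by
      rw [mono_mul_mono Finset.sdiff_disjoint, Finset.sdiff_union_of_subset hS]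
    rw [h3]
    apply Ideal.mul_mem_left
    apply hD
    have h4 := mono_mem_V S
    rwa [hSc] at h4
  have h3 : ∀ y ∈ Ideal.span (Set.range lam), y * x = 0 := by
    intro y hy
    induction hy using Submodule.span_induction with
    | mem y hy =>
      obtain ⟨i, rfl⟩ := hy
      exact hx.2 i
    | zero => rw [zero_mul]
    | add y z _ _ hy hz => rw [add_mul, hy, hz, add_zero]
    | smul a y _ hy => rw [smul_eq_mul, mul_assoc, hy, mul_zero]
  have h4 := h3 _ h2
  have h5 := congrFun h4 Finset.univ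
  rw [mono_mul_apply, if_pos (Finset.subset_univ _)] at h5
  have h6 : (Finset.univ \ Tᶜ) = T := by
    ext x; simp
  rw [h6] at h5
  exact hT h5

theorem GF_le {m D : ℕ} {lam : Fin m → SqA σ}
    (hD : ∀ f ∈ (V D : Submodule (ZMod 2) (SqA σ)), f ∈ Ideal.span (Set.range lam)) {z : ℝ}
    (hz : 0 ≤ z) : GF lam z ≤ ∑ j ∈ range D, ((Fintype.card σ).choose j : ℝ) * z ^ j := by
  set N := Fintype.card σ with hN
  have h1 : GF lam z = ∑ j ∈ range (N + 1),
      (finrank (ZMod 2) (Ann (V (N - j)) lam) : ℝ) * z ^ j := by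
    rw [← Finset.sum_range_reflect]
    unfold GF
    rw [← hN]
    refine Finset.sum_congr rfl fun e he => ?_
    have he' : e ≤ N := by rw [Finset.mem_range] at he; omega
    have h2 : N - (N + 1 - 1 - e) = e := by omega
    have h3 : N + 1 - 1 - e = N - e := by omega
    rw [h2, h3]
  rw [h1]
  calc ∑ j ∈ range (N + 1), (finrank (ZMod 2) (Ann (V (N - j)) lam) : ℝ) * z ^ j
      ≤ ∑ j ∈ range (N + 1), if j < D then (N.choose j : ℝ) * z ^ j else 0 := by
        refine Finset.sum_le_sum fun j hj => ?_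
        have hj' : j ≤ N := by rw [Finset.mem_range] at hj; omega
        split_ifs with h
        · apply mul_le_mul_of_nonneg_right _ (pow_nonneg hz _)
          have h2 := finrank_Ann_le (N - j) lam
          rw [← hN, Nat.choose_symm hj'] at h2
          exact_mod_cast h2
        · rw [Ann_eq_bot (D := D) (by omega) hD, finrank_bot]
          simp
    _ = ∑ j ∈ (range (N + 1)).filter (fun j => j < D), (N.choose j : ℝ) * z ^ j := by
        rw [Finset.sum_filter]
    _ ≤ _ := by
        apply Finset.sum_le_sum_of_subset_of_nonneg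
        · intro j hj
          rw [Finset.mem_filter] at hj
          exact Finset.mem_range.2 hj.2
        · intro j _ _
          positivity

end H26IX
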