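import Pool.Agent.H26.IX.Main
import Pool.Agent.H26.IX.Lower
import Pool.Agent.H26.IX.LowNum

/-!
# Lower bounds for the index in the quotient ring
-/

namespace H26IX

open Finset H67SR H67SR.SqA Module Filter

/-- the index of a tuple -/
noncomputable def idx {n m : ℕ} (lam : Fin m → BB n) : ℕ :=
  sInf {D | part n D ⊆ (Ideal.span (Set.range lam) : Set (BB n))}

theorem idx_spec {n m : ℕ} (lam : Fin m → BB n) :
    part n (idx lam) ⊆ (Ideal.span (Set.range lam) : Set (BB n)) := by
  have h : {D | part n D ⊆ (Ideal.span (Set.range lam) : Set (BB n))}.Nonempty := by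
    refine ⟨n + 1, ?_⟩
    intro x hx
    have h1 := mem_part_iff_V.1 hx
    have h2 : iso n x = 0 := by
      ext T
      by_contra h
      have h3 := h1 T h
      have h4 := Finset.card_le_univ T
      rw [Fintype.card_fin] at h4
      omega
    have h3 : x = 0 := by
      rw [← map_zero (iso n)] at h2
      exact (iso n).injective h2
    rw [h3]
    exact Ideal.zero_mem _
  exact Nat.sInf_mem h

theorem master {n m d : ℕ} (hd : 1 ≤ d) {lam : Fin m → BB n} (hlam : ∀ i, lam i ∈ part n d) {z : ℝ}
    (hz : 0 ≤ z) :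
    (1 + z) ^ n ≤ (1 + z ^ d) ^ m * ∑ j ∈ range (idx lam), (n.choose j : ℝ) * z ^ j := by
  have h1 := GF_ge (σ := Fin n) hd hz m (fun l => iso n (lam l))
    (fun i => mem_part_iff_V.1 (hlam i))
  rw [Fintype.card_fin] at h1
  refine h1.trans (mul_le_mul_of_nonneg_left ?_ (by positivity))
  have h2 := GF_le (σ := Fin n) (D := idx lam) (lam := fun l => iso n (lam l)) ?_ hz
  · rwa [Fintype.card_fin] at h2
  · intro f hf
    have h3 : (iso n).symm f ∈ part n (idx lam) := by
      rw [mem_part_iff_V, RingEquiv.apply_symm_apply]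
      exact hf
    have h4 := idx_spec lam h3
    have h5 := Ideal.mem_map_of_mem (iso n) h4
    rw [RingEquiv.apply_symm_apply, Ideal.map_span, ← Set.range_comp] at h5
    exact h5

theorem idx_ge {n d : ℕ} (hd : 1 ≤ d) {lam : Fin n → BB n} (hlam : ∀ i, lam i ∈ part n d) :
    (1 / 2 - (Real.log d + 27 / 20) / (2 * d)) * n ≤ idx lam :=
  explicit hd fun _ hz => master hd hlam hz

theorem idx_ge_two {n : ℕ} {lam : Fin n → BB n} (hlam : ∀ i, lam i ∈ part n 2) :
    3 / 40 * (n : ℝ) ≤ idx lam :=
  quadratic fun _ hz => master (by norm_num) hlam hz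

end H26IX
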