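import Pool.Agent.H26.IX.Avg

/-!
# Common annihilators of the forms of a code are determined by the good sets
-/

namespace H26IX

open Finset H67SR H67SR.SqA Module

set_option linter.unusedSectionVars false

variable {σ : Type*} [DecidableEq σ] [Fintype σ]

/-- if `S` is not good, there is a block disjoint from `S` and a functional which is one on its
column and zero on the columns of the full blocks before it -/
theorem exists_of_not_good {j : ℕ} {S : Finset σ} : ∀ {N : ℕ} (T : Fin N → Finset σ)
    (_ : ∀ β, (T β).Nonempty) (c : Fin N → (Fin j → ZMod 2))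
    (U : Submodule (ZMod 2) (Fin j → ZMod 2)), ¬ good N T c U S →
    ∃ b : Fin N, Disjoint (T b) S ∧ ∃ t : Dual (ZMod 2) (Fin j → ZMod 2),
      (∀ u ∈ U, t u = 0) ∧ t (c b) = 1 ∧ ∀ g < b, T g ⊆ S → t (c g) = 0 := by
  intro N
  induction N with
  | zero => intro T _ c U h; exact absurd trivial h
  | succ N ih =>
    intro T hT c U h
    have hT' : ∀ β : Fin N, (T β.succ).Nonempty := fun β => hT _
    by_cases h1 : T 0 ⊆ S
    · have h2 : ¬ Disjoint (T 0) S := by
        intro h2
        obtain ⟨z, hz⟩ := hT 0
        exact (Finset.disjoint_left.1 h2) hz (h1 hz)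
      have h3 : ¬ good N (fun β => T β.succ) (fun β => c β.succ)
          (U ⊔ Submodule.span (ZMod 2) {c 0}) S := by
        intro h3
        exact h ⟨fun _ => h3, fun h4 => absurd h4 h2, fun h4 => absurd h1 h4⟩
      obtain ⟨b, hb, t, ht1, ht2, ht3⟩ := ih _ hT' _ _ h3
      refine ⟨b.succ, hb, t, fun u hu => ht1 u (Submodule.mem_sup_left hu), ht2, ?_⟩
      intro g
      refine Fin.cases ?_ (fun g' => ?_) g
      · intro _ _
        exact ht1 _ (Submodule.mem_sup_right (Submodule.mem_span_singleton_self _))
      · intro hg hS
        exact ht3 g' (Fin.succ_lt_succ_iff.1 hg) hS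
    · by_cases h2 : Disjoint (T 0) S
      · by_cases h3 : c 0 ∈ U
        · have h4 : ¬ good N (fun β => T β.succ) (fun β => c β.succ) U S := by
            intro h4
            exact h ⟨fun h5 => absurd h5 h1, fun _ => ⟨h3, h4⟩, fun _ h5 => absurd h2 h5⟩
          obtain ⟨b, hb, t, ht1, ht2, ht3⟩ := ih _ hT' _ _ h4
          refine ⟨b.succ, hb, t, ht1, ht2, ?_⟩
          intro g
          refine Fin.cases ?_ (fun g' => ?_) g
          · intro _ h5
            exact absurd h5 h1
          · intro hg hS
            exact ht3 g' (Fin.succ_lt_succ_iff.1 hg) hS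
        · obtain ⟨t, ht1, ht2⟩ := Submodule.exists_dual_map_eq_bot_of_notMem h3 inferInstance
          refine ⟨0, h2, t, fun u hu => ?_, ?_, fun g hg => absurd hg (Fin.not_lt_zero g)⟩
          · have h4 : t u ∈ U.map t := Submodule.mem_map_of_mem hu
            rw [ht2] at h4
            exact (Submodule.mem_bot _).1 h4
          · have h5 : ∀ a : ZMod 2, a ≠ 0 → a = 1 := by decide
            exact h5 _ ht1
      · have h4 : ¬ good N (fun β => T β.succ) (fun β => c β.succ) U S := by
          intro h4
          exact h ⟨fun h5 => absurd h5 h1, fun h5 => absurd h5 h2, fun _ _ => h4⟩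
        obtain ⟨b, hb, t, ht1, ht2, ht3⟩ := ih _ hT' _ _ h4
        refine ⟨b.succ, hb, t, ht1, ht2, ?_⟩
        intro g
        refine Fin.cases ?_ (fun g' => ?_) g
        · intro _ h5
          exact absurd h5 h1
        · intro hg hS
          exact ht3 g' (Fin.succ_lt_succ_iff.1 hg) hS

/-- coefficients of a product with a combination of monomials -/
theorem comb_mul_apply {N : ℕ} (T : Fin N → Finset σ) (a : Fin N → ZMod 2) (x : SqA σ)
    (R : Finset σ) :
    ((∑ β, a β • (mono (T β) : SqA σ)) * x) R =
      ∑ β, a β * (if T β ⊆ R then x (R \ T β) else 0) := by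
  rw [Finset.sum_mul, SqA.sum_apply]
  refine Finset.sum_congr rfl fun β _ => ?_
  rw [← mono_mul_apply]
  have h : (a β • (mono (T β) : SqA σ)) * x = a β • ((mono (T β) : SqA σ) * x) := by
    rw [mul_comm, mul_comm (mono (T β) : SqA σ) x]
    exact (mL x).map_smul (a β) (mono (T β))
  rw [h, smul_apply']

theorem functional_mul {N j : ℕ} (T : Fin N → Finset σ) (c : Fin N → (Fin j → ZMod 2))
    (x : SqA σ) (hx : ∀ i : Fin j, (∑ β, c β i • (mono (T β) : SqA σ)) * x = 0)
    (t : Dual (ZMod 2) (Fin j → ZMod 2)) :
    (∑ β, t (c β) • (mono (T β) : SqA σ)) * x = 0 := by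
  ext R
  rw [comb_mul_apply, zero_apply]
  have h1 : ∀ β, t (c β) = ∑ i, c β i * t (fun l => if i = l then 1 else 0) := by
    intro β
    rw [LinearMap.pi_apply_eq_sum_univ t (c β)]
    rfl
  have h2 : ∀ i : Fin j, ∑ β, c β i * (if T β ⊆ R then x (R \ T β) else 0) = 0 := by
    intro i
    rw [← comb_mul_apply T (fun β => c β i) x R, hx i, zero_apply]
  calc ∑ β, t (c β) * (if T β ⊆ R then x (R \ T β) else 0)
      = ∑ β, ∑ i, t (fun l => if i = l then 1 else 0) *
          (c β i * (if T β ⊆ R then x (R \ T β) else 0)) := by
        refine Finset.sum_congr rfl fun β _ => ?_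
        rw [h1 β, Finset.sum_mul]
        refine Finset.sum_congr rfl fun i _ => ?_
        ring
    _ = ∑ i, t (fun l => if i = l then 1 else 0) *
          ∑ β, c β i * (if T β ⊆ R then x (R \ T β) else 0) := by
        rw [Finset.sum_comm]
        refine Finset.sum_congr rfl fun i _ => ?_
        rw [Finset.mul_sum]
    _ = 0 := by
        apply Finset.sum_eq_zero
        intro i _
        rw [h2 i, mul_zero]

open Classical in
/-- the sum of the indices of the full blocks -/
noncomputable def muS {N : ℕ} (T : Fin N → Finset σ) (S : Finset σ) : ℕ :=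
  ∑ g ∈ Finset.univ.filter (fun g => T g ⊆ S), (g : ℕ)

theorem good_det {N j d : ℕ} (hd : 1 ≤ d) (T : Fin N → Finset σ) (hT : ∀ β, (T β).card = d)
    (hdis : ∀ β γ, β ≠ γ → Disjoint (T β) (T γ)) (c : Fin N → (Fin j → ZMod 2)) (x : SqA σ)
    (hx : ∀ i : Fin j, (∑ β, c β i • (mono (T β) : SqA σ)) * x = 0)
    (h : ∀ S, good N T c ⊥ S → x S = 0) : x = 0 := by
  classical
  have hne : ∀ β, (T β).Nonempty := by
    intro β
    rw [← Finset.card_pos, hT β]
    exact hd
  have key : ∀ m : ℕ, ∀ S : Finset σ, muS T S ≤ m → x S = 0 := by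
    intro m
    induction m using Nat.strong_induction_on with
    | _ m ih =>
      intro S hS
      by_cases hg : good N T c ⊥ S
      · exact h S hg
      · obtain ⟨b, hb, t, _, ht2, ht3⟩ := exists_of_not_good T hne c ⊥ hg
        have h1 : ((∑ β, t (c β) • (mono (T β) : SqA σ)) * x) (S ∪ T b) = 0 := by
          rw [functional_mul T c x hx t, zero_apply]
        rw [comb_mul_apply, Finset.sum_eq_single b] at h1
        · rw [if_pos Finset.subset_union_right, ht2, one_mul] at h1
          have h3 : (S ∪ T b) \ T b = S := by
            rw [Finset.union_sdiff_right]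
            exact Finset.sdiff_eq_self_of_disjoint hb.symm
          rwa [h3] at h1
        · intro β _ hβ
          split_ifs with h2
          · have hTS : T β ⊆ S := by
              intro z hz
              rcases Finset.mem_union.1 (h2 hz) with h4 | h4
              · exact h4
              · exact absurd h4 ((Finset.disjoint_left.1 (hdis β b hβ)) hz)
            rcases lt_or_gt_of_ne hβ with h4 | h4
            · rw [ht3 β h4 hTS, zero_mul]
            · have h5 : muS T ((S ∪ T b) \ T β) < muS T S := by
                have h6 : Finset.univ.filter (fun g => T g ⊆ (S ∪ T b) \ T β) ⊆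
                    insert b ((Finset.univ.filter (fun g => T g ⊆ S)).erase β) := by
                  intro g hg
                  have hg' := (Finset.mem_filter.1 hg).2
                  rw [Finset.mem_insert, Finset.mem_erase, Finset.mem_filter]
                  by_cases hgb : g = b
                  · exact Or.inl hgb
                  · right
                    refine ⟨?_, Finset.mem_univ _, ?_⟩
                    · rintro rfl
                      obtain ⟨z, hz⟩ := hne g
                      exact (Finset.mem_sdiff.1 (hg' hz)).2 hz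
                    · intro z hz
                      rcases Finset.mem_union.1 (Finset.mem_sdiff.1 (hg' hz)).1 with h7 | h7
                      · exact h7
                      · exact absurd h7 ((Finset.disjoint_left.1 (hdis g b hgb)) hz)
                have h7 : muS T ((S ∪ T b) \ T β) ≤
                    ∑ g ∈ insert b ((Finset.univ.filter (fun g => T g ⊆ S)).erase β),
                      (g : ℕ) := Finset.sum_le_sum_of_subset h6
                have h8 : ∑ g ∈ insert b ((Finset.univ.filter (fun g => T g ⊆ S)).erase β),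
                      (g : ℕ) ≤ b + ∑ g ∈ (Finset.univ.filter (fun g => T g ⊆ S)).erase β,
                      (g : ℕ) := by
                  by_cases hb2 : b ∈ (Finset.univ.filter (fun g => T g ⊆ S)).erase β
                  · rw [Finset.insert_eq_of_mem hb2]
                    omega
                  · rw [Finset.sum_insert hb2]
                have h9 : ∑ g ∈ (Finset.univ.filter (fun g => T g ⊆ S)).erase β, (g : ℕ) +
                    (β : ℕ) = muS T S :=
                  Finset.sum_erase_add _ _ (Finset.mem_filter.2 ⟨Finset.mem_univ _, hTS⟩)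
                have h10 : (b : ℕ) < (β : ℕ) := h4
                omega
              rw [ih (muS T ((S ∪ T b) \ T β)) (lt_of_lt_of_le h5 hS) _ le_rfl, mul_zero]
          · rw [mul_zero]
        · intro h2; exact absurd (Finset.mem_univ _) h2
  ext S
  rw [zero_apply]
  exact key _ S le_rfl

open Classical in
theorem finrank_le_good {N j d : ℕ} (hd : 1 ≤ d) (T : Fin N → Finset σ) (hT : ∀ β, (T β).card = d)
    (hdis : ∀ β γ, β ≠ γ → Disjoint (T β) (T γ)) (c : Fin N → (Fin j → ZMod 2)) (e : ℕ)
    (W : Submodule (ZMod 2) (SqA σ))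
    (hW : ∀ x ∈ W, ∀ i : Fin j, (∑ β, c β i • (mono (T β) : SqA σ)) * x = 0) :
    finrank (ZMod 2) ↥(V e ⊓ W) ≤
      ((Finset.univ : Finset (Finset σ)).filter (fun S => S.card = e ∧ good N T c ⊥ S)).card := by
  set 𝒜 : Finset (Finset σ) :=
    (Finset.univ : Finset (Finset σ)).filter (fun S => S.card = e ∧ good N T c ⊥ S) with h𝒜
  let ev : ↥(V e ⊓ W : Submodule (ZMod 2) (SqA σ)) →ₗ[ZMod 2] (𝒜 → ZMod 2) :=
    { toFun := fun g A => (g : SqA σ) A.1
      map_add' := fun _ _ => rfl
      map_smul' := fun _ _ => rfl }
  have hinj : Function.Injective ev := by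
    rw [← LinearMap.ker_eq_bot, LinearMap.ker_eq_bot']
    intro g hg
    apply Subtype.ext
    obtain ⟨h1, h2⟩ := g.2
    refine good_det hd T hT hdis c _ (hW _ h2) ?_
    intro S hS
    by_contra hne
    have hc : S.card = e := h1 S hne
    have hmem : S ∈ 𝒜 := Finset.mem_filter.2 ⟨Finset.mem_univ _, hc, hS⟩
    exact hne (congrFun hg ⟨S, hmem⟩)
  have h1 := LinearMap.finrank_le_finrank_of_injective hinj
  rw [Module.finrank_fintype_fun_eq_card, Fintype.card_coe] at h1
  exact h1

end H26IX
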