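import Pool.Agent.H26.IX.Avg

/-!
# The weighted number of good sets, summed over all codes
-/

namespace H26IX

open Finset H67SR H67SR.SqA Module

set_option linter.unusedSectionVars false

variable {σ : Type*} [DecidableEq σ] [Fintype σ]

/-- `good` depends only on the traces on the blocks -/
theorem good_congr {j : ℕ} {S S' : Finset σ} : ∀ {N : ℕ} (T : Fin N → Finset σ)
    (c : Fin N → (Fin j → ZMod 2)) (U : Submodule (ZMod 2) (Fin j → ZMod 2))
    (_ : ∀ β, T β ∩ S = T β ∩ S'), good N T c U S → good N T c U S' := by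
  intro N
  induction N with
  | zero => intro T c U _ _; trivial
  | succ N ih =>
    intro T c U h hg
    have h' : ∀ β : Fin N, T β.succ ∩ S = T β.succ ∩ S' := fun β => h _
    obtain ⟨h1, h2, h3⟩ := hg
    have e1 : T 0 ⊆ S' ↔ T 0 ⊆ S := by
      rw [← Finset.inter_eq_left, ← Finset.inter_eq_left, h 0]
    have e2 : Disjoint (T 0) S' ↔ Disjoint (T 0) S := by
      rw [Finset.disjoint_iff_inter_eq_empty, Finset.disjoint_iff_inter_eq_empty, h 0]
    refine ⟨fun h4 => ih _ _ _ h' (h1 (e1.1 h4)), fun h4 => ⟨(h2 (e2.1 h4)).1,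
      ih _ _ _ h' (h2 (e2.1 h4)).2⟩, fun h4 h5 => ih _ _ _ h' (h3 (fun h => h4 (e1.2 h))
        (fun h => h5 (e2.2 h)))⟩

theorem good_iff {j N : ℕ} {S S' : Finset σ} (T : Fin N → Finset σ)
    (c : Fin N → (Fin j → ZMod 2)) (U : Submodule (ZMod 2) (Fin j → ZMod 2))
    (h : ∀ β, T β ∩ S = T β ∩ S') : good N T c U S ↔ good N T c U S' :=
  ⟨good_congr T c U h, good_congr T c U fun β => (h β).symm⟩

open Classical in
/-- the weighted number of good sets inside `R` -/
noncomputable def Wg {N j : ℕ} (z : ℝ) (T : Fin N → Finset σ) (R : Finset σ)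
    (U : Submodule (ZMod 2) (Fin j → ZMod 2)) : ℝ :=
  ∑ c : Fin N → (Fin j → ZMod 2), ∑ S ∈ R.powerset, if good N T c U S then z ^ S.card else 0

/-- splitting a sum over the subsets of a set along a subset -/
theorem sum_powerset_split (A R : Finset σ) (hA : A ⊆ R) (F : Finset σ → ℝ) :
    ∑ S ∈ R.powerset, F S = ∑ S2 ∈ (R \ A).powerset, ∑ S1 ∈ A.powerset, F (S1 ∪ S2) := by
  rw [← Finset.sum_product']
  symm
  refine Finset.sum_nbij' (fun p => p.2 ∪ p.1) (fun S => (S \ A, S ∩ A)) ?_ ?_ ?_ ?_ ?_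
  · rintro ⟨S2, S1⟩ h
    simp only [Finset.mem_product, Finset.mem_powerset] at h ⊢
    exact Finset.union_subset (h.2.trans hA) (h.1.trans Finset.sdiff_subset)
  · intro S h
    simp only [Finset.mem_product, Finset.mem_powerset] at h ⊢
    exact ⟨Finset.sdiff_subset_sdiff h (Finset.Subset.refl _), Finset.inter_subset_right⟩
  · rintro ⟨S2, S1⟩ h
    simp only [Finset.mem_product, Finset.mem_powerset] at h
    have hd : Disjoint S2 A := (Finset.subset_sdiff.1 h.1).2
    ext x
    · simp only [Finset.mem_sdiff, Finset.mem_union]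
      constructor
      · rintro ⟨h1 | h1, h2⟩
        · exact absurd (h.2 h1) h2
        · exact h1
      · intro h1
        exact ⟨Or.inr h1, (Finset.disjoint_left.1 hd) h1⟩
    · simp only [Finset.mem_inter, Finset.mem_union]
      constructor
      · rintro ⟨h1 | h1, h2⟩
        · exact h1
        · exact absurd h2 ((Finset.disjoint_left.1 hd) h1)
      · intro h1
        exact ⟨Or.inl h1, h.2 h1⟩
  · intro S _
    ext x
    simp only [Finset.mem_union, Finset.mem_inter, Finset.mem_sdiff]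
    tauto
  · rintro ⟨S2, S1⟩ _
    rfl

open Classical in
theorem inner_sum {N j d : ℕ} (hd : 1 ≤ d) (z : ℝ) (T : Fin (N + 1) → Finset σ)
    (hT : (T 0).card = d)
    (hdis : ∀ β : Fin N, Disjoint (T β.succ) (T 0)) (c : Fin (N + 1) → (Fin j → ZMod 2))
    (U : Submodule (ZMod 2) (Fin j → ZMod 2)) (S2 : Finset σ) (hS2 : Disjoint S2 (T 0)) :
    ∑ S1 ∈ (T 0).powerset, (if good (N + 1) T c U (S1 ∪ S2) then z ^ (S1 ∪ S2).card else 0) =
      z ^ d * (if good N (fun β => T β.succ) (fun β => c β.succ)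
          (U ⊔ Submodule.span (ZMod 2) {c 0}) S2 then z ^ S2.card else 0) +
      (if c 0 ∈ U then (if good N (fun β => T β.succ) (fun β => c β.succ) U S2 then
          z ^ S2.card else 0) else 0) +
      ((1 + z) ^ d - 1 - z ^ d) * (if good N (fun β => T β.succ) (fun β => c β.succ) U S2 then
          z ^ S2.card else 0) := by
  set g1 : ℝ := if good N (fun β => T β.succ) (fun β => c β.succ)
          (U ⊔ Submodule.span (ZMod 2) {c 0}) S2 then z ^ S2.card else 0 with hg1
  set g0 : ℝ := if good N (fun β => T β.succ) (fun β => c β.succ) U S2 then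
          z ^ S2.card else 0 with hg0
  have hne : (T 0).Nonempty := by
    rw [← Finset.card_pos, hT]; exact hd
  have hkey : ∀ S1 ∈ (T 0).powerset,
      (if good (N + 1) T c U (S1 ∪ S2) then z ^ (S1 ∪ S2).card else 0) =
      z ^ S1.card * g0 + (if S1 = T 0 then z ^ d * (g1 - g0) else 0) +
        (if S1 = ∅ then (if c 0 ∈ U then g0 else 0) - g0 else 0) := by
    intro S1 hS1
    have hS1' : S1 ⊆ T 0 := Finset.mem_powerset.1 hS1
    have hd12 : Disjoint S1 S2 := Finset.disjoint_of_subset_left hS1' hS2.symm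
    have hcard : (S1 ∪ S2).card = S1.card + S2.card := Finset.card_union_of_disjoint hd12
    have hloc : ∀ β : Fin N, T β.succ ∩ (S1 ∪ S2) = T β.succ ∩ S2 := by
      intro β
      ext x
      simp only [Finset.mem_inter, Finset.mem_union]
      constructor
      · rintro ⟨h1, h2 | h2⟩
        · exact absurd (hS1' h2) ((Finset.disjoint_left.1 (hdis β)) h1)
        · exact ⟨h1, h2⟩
      · rintro ⟨h1, h2⟩
        exact ⟨h1, Or.inr h2⟩
    have hinter : T 0 ∩ (S1 ∪ S2) = S1 := by
      ext x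
      simp only [Finset.mem_inter, Finset.mem_union]
      constructor
      · rintro ⟨h1, h2 | h2⟩
        · exact h2
        · exact absurd h1 ((Finset.disjoint_left.1 hS2) h2)
      · intro h1
        exact ⟨hS1' h1, Or.inl h1⟩
    by_cases h1 : S1 = T 0
    · have h2 : S1 ≠ ∅ := by rw [h1]; exact hne.ne_empty
      rw [if_pos h1, if_neg h2]
      have h3 : T 0 ⊆ S1 ∪ S2 := by rw [h1]; exact Finset.subset_union_left
      have h4 : ¬ Disjoint (T 0) (S1 ∪ S2) := by
        rw [Finset.disjoint_iff_inter_eq_empty, hinter]; exact h2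
      have h5 : good (N + 1) T c U (S1 ∪ S2) ↔ good N (fun β => T β.succ) (fun β => c β.succ)
          (U ⊔ Submodule.span (ZMod 2) {c 0}) S2 := by
        rw [← good_iff (S := S1 ∪ S2) (S' := S2) (fun β => T β.succ) (fun β => c β.succ) _ hloc]
        exact ⟨fun h => h.1 h3, fun h => ⟨fun _ => h, fun h6 => absurd h6 h4,
          fun h6 => absurd h3 h6⟩⟩
      rw [hg1]
      simp only [h5, hcard]
      rw [h1, hT]
      split_ifs
      · rw [pow_add]; ring
      · ring
    · rw [if_neg h1]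
      have h3 : ¬ T 0 ⊆ S1 ∪ S2 := by
        intro h3
        apply h1
        rw [← hinter]
        exact Finset.inter_eq_left.2 h3
      by_cases h2 : S1 = ∅
      · rw [if_pos h2]
        have h4 : Disjoint (T 0) (S1 ∪ S2) := by
          rw [Finset.disjoint_iff_inter_eq_empty, hinter]; exact h2
        have h5 : good (N + 1) T c U (S1 ∪ S2) ↔ (c 0 ∈ U ∧
            good N (fun β => T β.succ) (fun β => c β.succ) U S2) := by
          rw [← good_iff (S := S1 ∪ S2) (S' := S2) (fun β => T β.succ) (fun β => c β.succ) _ hloc]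
          exact ⟨fun h => h.2.1 h4, fun h => ⟨fun h6 => absurd h6 h3, fun _ => h,
            fun _ h6 => absurd h4 h6⟩⟩
        rw [hg0]
        simp only [h5, hcard]
        rw [h2, Finset.card_empty, zero_add, pow_zero, one_mul]
        by_cases h6 : c 0 ∈ U
        · simp [h6]
        · simp [h6]
      · rw [if_neg h2]
        have h4 : ¬ Disjoint (T 0) (S1 ∪ S2) := by
          rw [Finset.disjoint_iff_inter_eq_empty, hinter]; exact h2
        have h5 : good (N + 1) T c U (S1 ∪ S2) ↔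
            good N (fun β => T β.succ) (fun β => c β.succ) U S2 := by
          rw [← good_iff (S := S1 ∪ S2) (S' := S2) (fun β => T β.succ) (fun β => c β.succ) _ hloc]
          exact ⟨fun h => h.2.2 h3 h4, fun h => ⟨fun h6 => absurd h6 h3, fun h6 => absurd h6 h4,
            fun _ _ => h⟩⟩
        rw [hg0]
        simp only [h5, hcard]
        split_ifs
        · rw [pow_add]; ring
        · ring
  rw [Finset.sum_congr rfl hkey, Finset.sum_add_distrib, Finset.sum_add_distrib,
    Finset.sum_ite_eq' (T 0).powerset (T 0), Finset.sum_ite_eq' (T 0).powerset ∅,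
    if_pos (Finset.mem_powerset_self _), if_pos (Finset.empty_mem_powerset _), ← Finset.sum_mul]
  have h1 : ∑ S1 ∈ (T 0).powerset, z ^ S1.card = (1 + z) ^ d := by
    have := Finset.sum_pow_mul_eq_add_pow z 1 (T 0)
    simp only [one_pow, mul_one] at this
    rw [this, hT, add_comm]
  rw [h1]
  ring

theorem Wg_succ {N j d : ℕ} (hd : 1 ≤ d) (z : ℝ) (T : Fin (N + 1) → Finset σ)
    (hT : (T 0).card = d) (R : Finset σ) (hR : T 0 ⊆ R)
    (hdis : ∀ β : Fin N, Disjoint (T β.succ) (T 0))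
    (U : Submodule (ZMod 2) (Fin j → ZMod 2)) :
    Wg z T R U = ∑ a : Fin j → ZMod 2, (z ^ d * Wg z (fun β : Fin N => T β.succ) (R \ T 0)
        (U ⊔ Submodule.span (ZMod 2) {a}) +
      (open Classical in if a ∈ U then Wg z (fun β : Fin N => T β.succ) (R \ T 0) U else 0) +
      ((1 + z) ^ d - 1 - z ^ d) * Wg z (fun β : Fin N => T β.succ) (R \ T 0) U) := by
  classical
  have h0 : Wg z T R U = ∑ c : Fin (N + 1) → (Fin j → ZMod 2), ∑ S2 ∈ (R \ T 0).powerset,
      (z ^ d * (if good N (fun β => T β.succ) (fun β => c β.succ)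
          (U ⊔ Submodule.span (ZMod 2) {c 0}) S2 then z ^ S2.card else 0) +
      (if c 0 ∈ U then (if good N (fun β => T β.succ) (fun β => c β.succ) U S2 then
          z ^ S2.card else 0) else 0) +
      ((1 + z) ^ d - 1 - z ^ d) * (if good N (fun β => T β.succ) (fun β => c β.succ) U S2 then
          z ^ S2.card else 0)) := by
    unfold Wg
    refine Finset.sum_congr rfl fun c _ => ?_
    rw [sum_powerset_split (T 0) R hR]
    refine Finset.sum_congr rfl fun S2 hS2 => ?_
    have h1 : Disjoint S2 (T 0) := (Finset.subset_sdiff.1 (Finset.mem_powerset.1 hS2)).2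
    exact inner_sum hd z T hT hdis c U S2 h1
  rw [h0, ← (Fin.consEquiv (fun _ : Fin (N + 1) => (Fin j → ZMod 2))).sum_comp,
    Fintype.sum_prod_type]
  refine Finset.sum_congr rfl fun a _ => ?_
  have h1 : ∀ c' : Fin N → (Fin j → ZMod 2),
      (Fin.consEquiv (fun _ : Fin (N + 1) => (Fin j → ZMod 2))) (a, c') 0 = a := fun _ => rfl
  have h2 : ∀ c' : Fin N → (Fin j → ZMod 2), (fun β : Fin N =>
      (Fin.consEquiv (fun _ : Fin (N + 1) => (Fin j → ZMod 2))) (a, c') β.succ) = c' :=
    fun _ => rfl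
  simp only [h1, h2]
  unfold Wg
  by_cases ha : a ∈ U
  · simp only [if_pos ha]
    simp only [Finset.sum_add_distrib, Finset.mul_sum]
  · simp only [if_neg ha]
    simp only [Finset.sum_add_distrib, Finset.mul_sum, Finset.sum_const_zero]

theorem Wg_zero {j : ℕ} (z : ℝ) (T : Fin 0 → Finset σ) (R : Finset σ)
    (U : Submodule (ZMod 2) (Fin j → ZMod 2)) : Wg z T R U = (1 + z) ^ R.card := by
  classical
  unfold Wg
  rw [Fintype.sum_unique]
  have h2 := Finset.sum_pow_mul_eq_add_pow z 1 R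
  simp only [one_pow, mul_one] at h2
  rw [add_comm, ← h2]
  exact Finset.sum_congr rfl fun S _ => if_pos trivial

/-- the majorant -/
noncomputable def Bd (z : ℝ) (d N s : ℕ) : ℝ :=
  (z ^ d / (1 + z ^ d)) ^ s + 2 * (1 - (1 / 2) ^ s) * (1 - (1 + z ^ d) / (2 * (1 + z) ^ d)) ^ N

theorem one_add_pow_le {z : ℝ} (hz : 0 < z) {d : ℕ} (hd : 1 ≤ d) : 1 + z ^ d ≤ (1 + z) ^ d := by
  induction d, hd using Nat.le_induction with
  | base => simp
  | succ d _ ih =>
    rw [pow_succ, pow_succ]
    have h1 : (0 : ℝ) < z ^ d := pow_pos hz d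
    nlinarith [mul_le_mul_of_nonneg_right ih (by linarith : (0 : ℝ) ≤ 1 + z)]

theorem th_nonneg {z : ℝ} (hz : 0 < z) {d : ℕ} (hd : 1 ≤ d) :
    0 ≤ 1 - (1 + z ^ d) / (2 * (1 + z) ^ d) := by
  have h1 := one_add_pow_le hz hd
  have h2 : (0 : ℝ) < (1 + z) ^ d := pow_pos (by linarith) d
  rw [sub_nonneg, div_le_one (by positivity)]
  linarith

theorem Bd_step {z : ℝ} (hz : 0 < z) (hz1 : z ≤ 1) {d : ℕ} (hd : 1 ≤ d) (N s : ℕ) :
    z ^ d * ((1 / 2) ^ s * Bd z d N s + (1 - (1 / 2) ^ s) * Bd z d N (s - 1)) +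
      (1 / 2) ^ s * Bd z d N s + ((1 + z) ^ d - 1 - z ^ d) * Bd z d N s ≤
      (1 + z) ^ d * Bd z d (N + 1) s := by
  have hzd : (0 : ℝ) < z ^ d := pow_pos hz d
  have hzd1 : z ^ d ≤ 1 := pow_le_one₀ hz.le hz1
  have h2 : (0 : ℝ) < (1 + z) ^ d := pow_pos (by linarith) d
  have hth := th_nonneg hz hd
  have hthN := pow_nonneg hth N
  have hthe : (1 + z) ^ d * (1 - (1 + z ^ d) / (2 * (1 + z) ^ d)) =
      (1 + z) ^ d - (1 + z ^ d) / 2 := by
    field_simp
  rcases Nat.eq_zero_or_pos s with hs | hs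
  · subst hs
    unfold Bd
    simp only [pow_zero, sub_self, mul_zero, zero_mul, add_zero]
    apply le_of_eq
    ring
  · obtain ⟨s, rfl⟩ : ∃ t, s = t + 1 := ⟨s - 1, by omega⟩
    rw [Nat.add_sub_cancel]
    unfold Bd
    set y : ℝ := z ^ d / (1 + z ^ d) with hy
    set th : ℝ := 1 - (1 + z ^ d) / (2 * (1 + z) ^ d) with hthdef
    set q : ℝ := (1 / 2 : ℝ) ^ s with hq
    have hq1 : (1 / 2 : ℝ) ^ (s + 1) = q / 2 := by rw [pow_succ, hq]; ring
    have hq0 : 0 < q := pow_pos (by norm_num) s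
    have hqle : q ≤ 1 := pow_le_one₀ (by norm_num) (by norm_num)
    have hyy : y * (1 + z ^ d) = z ^ d := by
      rw [hy]; field_simp
    have hyz : z ^ d * y ^ s = (1 + z ^ d) * y ^ (s + 1) := by
      calc z ^ d * y ^ s = (y * (1 + z ^ d)) * y ^ s := by rw [hyy]
        _ = (1 + z ^ d) * y ^ (s + 1) := by rw [pow_succ]; ring
    rw [hq1, pow_succ th N]
    have hmain : (1 + z) ^ d * (y ^ (s + 1) + 2 * (1 - q / 2) * (th ^ N * th)) -
        (z ^ d * (q / 2 * (y ^ (s + 1) + 2 * (1 - q / 2) * th ^ N) +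
          (1 - q / 2) * (y ^ s + 2 * (1 - q) * th ^ N)) +
          q / 2 * (y ^ (s + 1) + 2 * (1 - q / 2) * th ^ N) +
          ((1 + z) ^ d - 1 - z ^ d) * (y ^ (s + 1) + 2 * (1 - q / 2) * th ^ N)) =
        2 * (1 - q / 2) * th ^ N * ((1 - z ^ d) * (1 / 2 - q / 2)) := by
      have e1 : (1 + z) ^ d * (y ^ (s + 1) + 2 * (1 - q / 2) * (th ^ N * th)) =
          (1 + z) ^ d * y ^ (s + 1) + 2 * (1 - q / 2) * th ^ N *
            ((1 + z) ^ d * th) := by ring
      rw [e1, hthe]
      have e2 : z ^ d * (q / 2 * (y ^ (s + 1) + 2 * (1 - q / 2) * th ^ N) +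
          (1 - q / 2) * (y ^ s + 2 * (1 - q) * th ^ N)) =
          z ^ d * (q / 2) * y ^ (s + 1) + (1 - q / 2) * (z ^ d * y ^ s) +
          z ^ d * (2 * (1 - q / 2) * th ^ N) * (q / 2 + (1 - q)) := by ring
      rw [e2, hyz]
      ring
    have hpos : 0 ≤ 2 * (1 - q / 2) * th ^ N * ((1 - z ^ d) * (1 / 2 - q / 2)) := by
      apply mul_nonneg
      · apply mul_nonneg
        · linarith
        · exact hthN
      · apply mul_nonneg <;> linarith
    linarith

theorem Bd_zero {z : ℝ} (hz : 0 < z) (d s : ℕ) : 1 ≤ Bd z d 0 s := by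
  unfold Bd
  rw [pow_zero, mul_one]
  rcases Nat.eq_zero_or_pos s with hs | hs
  · subst hs; simp
  · have h1 : (1 / 2 : ℝ) ^ s ≤ 1 / 2 := by
      calc (1 / 2 : ℝ) ^ s ≤ (1 / 2) ^ 1 :=
            pow_le_pow_of_le_one (by norm_num) (by norm_num) hs
        _ = 1 / 2 := by norm_num
    have h2 : (0 : ℝ) < z ^ d := pow_pos hz d
    have h3 : (0 : ℝ) ≤ (z ^ d / (1 + z ^ d)) ^ s := by positivity
    linarith

theorem Wg_le {j d : ℕ} (hd : 1 ≤ d) {z : ℝ} (hz : 0 < z) (hz1 : z ≤ 1) : ∀ {N : ℕ}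
    (T : Fin N → Finset σ) (_ : ∀ β, (T β).card = d) (_ : ∀ β γ, β ≠ γ → Disjoint (T β) (T γ))
    (R : Finset σ) (_ : ∀ β, T β ⊆ R) (U : Submodule (ZMod 2) (Fin j → ZMod 2)),
    Wg z T R U ≤ ((2 : ℝ) ^ j) ^ N * (1 + z) ^ R.card * Bd z d N (j - finrank (ZMod 2) U) := by
  classical
  intro N
  induction N with
  | zero =>
    intro T _ _ R _ U
    rw [Wg_zero, pow_zero, one_mul]
    have h1 := Bd_zero hz d (j - finrank (ZMod 2) U)
    have h2 : (0 : ℝ) ≤ (1 + z) ^ R.card := by positivity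
    nlinarith
  | succ N ih =>
    intro T hT hdis R hR U
    have hdis0 : ∀ β : Fin N, Disjoint (T β.succ) (T 0) := fun β =>
      hdis _ _ (Fin.succ_ne_zero β)
    rw [Wg_succ hd z T (hT 0) R (hR 0) hdis0 U]
    have hR' : ∀ β : Fin N, T β.succ ⊆ R \ T 0 := fun β =>
      Finset.subset_sdiff.2 ⟨hR _, hdis0 β⟩
    have hdis' : ∀ β γ : Fin N, β ≠ γ → Disjoint (T β.succ) (T γ.succ) := fun β γ h =>
      hdis _ _ (fun h' => h (Fin.succ_injective _ h'))
    have IH := fun U' => ih (fun β => T β.succ) (fun β => hT _) hdis' (R \ T 0) hR' U'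
    have hcardR : (R \ T 0).card + d = R.card := by
      rw [← hT 0, Finset.card_sdiff_add_card_eq_card (hR 0)]
    set u := finrank (ZMod 2) U with hu
    have huj : u ≤ j := by
      have := Submodule.finrank_le U
      rwa [Module.finrank_fin_fun] at this
    set s := j - u with hs
    set K : ℝ := ((2 : ℝ) ^ j) ^ N * (1 + z) ^ (R \ T 0).card with hK
    have hK0 : 0 ≤ K := by positivity
    have hzd : (0 : ℝ) < z ^ d := pow_pos hz d
    have htau : 0 ≤ (1 + z) ^ d - 1 - z ^ d := by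
      have := one_add_pow_le hz hd
      linarith
    -- bound of one term
    have hterm : ∀ a : Fin j → ZMod 2, (z ^ d * Wg z (fun β : Fin N => T β.succ) (R \ T 0)
        (U ⊔ Submodule.span (ZMod 2) {a}) +
      (if a ∈ U then Wg z (fun β : Fin N => T β.succ) (R \ T 0) U else 0) +
      ((1 + z) ^ d - 1 - z ^ d) * Wg z (fun β : Fin N => T β.succ) (R \ T 0) U) ≤
        if a ∈ U then K * (z ^ d * Bd z d N s + Bd z d N s +
          ((1 + z) ^ d - 1 - z ^ d) * Bd z d N s)
        else K * (z ^ d * Bd z d N (s - 1) + ((1 + z) ^ d - 1 - z ^ d) * Bd z d N s) := by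
      intro a
      have h1 := IH U
      rw [← hu, ← hs] at h1
      have h2 := IH (U ⊔ Submodule.span (ZMod 2) {a})
      have h3 := mul_le_mul_of_nonneg_left h1 htau
      by_cases ha : a ∈ U
      · rw [if_pos ha, if_pos ha]
        have h4 : U ⊔ Submodule.span (ZMod 2) {a} = U :=
          sup_eq_left.2 ((Submodule.span_singleton_le_iff_mem _ _).2 ha)
        rw [h4] at h2 ⊢
        have h5 := mul_le_mul_of_nonneg_left h1 hzd.le
        nlinarith
      · rw [if_neg ha, if_neg ha]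
        have h4 : finrank (ZMod 2) ↥(U ⊔ Submodule.span (ZMod 2) {a}) = u + 1 :=
          Submodule.finrank_sup_span_singleton ha
        have h5 : j - (u + 1) = s - 1 := by omega
        rw [h4, h5] at h2
        have h6 := mul_le_mul_of_nonneg_left h2 hzd.le
        nlinarith
    refine (Finset.sum_le_sum fun a _ => hterm a).trans ?_
    -- the number of a in U
    have hcardU : ((Finset.univ.filter fun a : Fin j → ZMod 2 => a ∈ U).card : ℝ) = 2 ^ u := by
      have h1 : (Finset.univ.filter fun a : Fin j → ZMod 2 => a ∈ U).card = Fintype.card U := by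
        rw [Fintype.card_subtype]
      rw [h1, Module.card_eq_pow_finrank (K := ZMod 2) (V := U), ZMod.card, hu]
      push_cast
      rfl
    have hcardall : ((Finset.univ : Finset (Fin j → ZMod 2)).card : ℝ) = 2 ^ j := by
      rw [Finset.card_univ, Fintype.card_fun, ZMod.card, Fintype.card_fin]
      push_cast
      rfl
    have hcardN : ((Finset.univ.filter fun a : Fin j → ZMod 2 => ¬ a ∈ U).card : ℝ) =
        2 ^ j - 2 ^ u := by
      have h1 := Finset.card_filter_add_card_filter_not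
        (s := (Finset.univ : Finset (Fin j → ZMod 2))) (fun a => a ∈ U)
      have h2 : ((Finset.univ.filter fun a : Fin j → ZMod 2 => a ∈ U).card : ℝ) +
          ((Finset.univ.filter fun a : Fin j → ZMod 2 => ¬ a ∈ U).card : ℝ) =
          ((Finset.univ : Finset (Fin j → ZMod 2)).card : ℝ) := by
        exact_mod_cast h1
      rw [hcardU, hcardall] at h2
      linarith
    rw [Finset.sum_ite, Finset.sum_const, Finset.sum_const, nsmul_eq_mul, nsmul_eq_mul,
      hcardU, hcardN]
    have hpow : (2 : ℝ) ^ u = 2 ^ j * (1 / 2) ^ s := by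
      have h1 : j = u + s := by omega
      rw [h1, pow_add, mul_assoc, ← mul_pow]
      norm_num
    rw [hpow]
    have hstep := Bd_step hz hz1 hd N s
    have hfac : ((2 : ℝ) ^ j) ^ (N + 1) * (1 + z) ^ R.card * Bd z d (N + 1) s =
        (2 ^ j * K) * ((1 + z) ^ d * Bd z d (N + 1) s) := by
      rw [← hcardR, pow_add, pow_succ, hK]
      ring
    rw [hfac]
    have h9 : (0 : ℝ) ≤ 2 ^ j * K := by positivity
    calc (2 : ℝ) ^ j * (1 / 2) ^ s * (K * (z ^ d * Bd z d N s + Bd z d N s +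
          ((1 + z) ^ d - 1 - z ^ d) * Bd z d N s)) +
        (2 ^ j - 2 ^ j * (1 / 2) ^ s) *
          (K * (z ^ d * Bd z d N (s - 1) + ((1 + z) ^ d - 1 - z ^ d) * Bd z d N s))
        = (2 ^ j * K) * (z ^ d * ((1 / 2) ^ s * Bd z d N s +
            (1 - (1 / 2) ^ s) * Bd z d N (s - 1)) +
            (1 / 2) ^ s * Bd z d N s + ((1 + z) ^ d - 1 - z ^ d) * Bd z d N s) := by ring
      _ ≤ (2 ^ j * K) * ((1 + z) ^ d * Bd z d (N + 1) s) :=
          mul_le_mul_of_nonneg_left hstep h9

open Classical in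
theorem count_good {N j d : ℕ} (hd : 1 ≤ d) (T : Fin N → Finset σ) (hT : ∀ β, (T β).card = d)
    (hdis : ∀ β γ, β ≠ γ → Disjoint (T β) (T γ)) {z : ℝ} (hz : 0 < z) (hz1 : z ≤ 1) :
    ∑ c : Fin N → (Fin j → ZMod 2), ∑ S : Finset σ, (if good N T c ⊥ S then z ^ S.card else 0) ≤
      ((2 : ℝ) ^ j) ^ N * (1 + z) ^ Fintype.card σ *
        ((z ^ d / (1 + z ^ d)) ^ j + 2 * (1 - (1 + z ^ d) / (2 * (1 + z) ^ d)) ^ N) := by
  have h1 := Wg_le (j := j) hd hz hz1 T hT hdis Finset.univ (fun β => Finset.subset_univ _) ⊥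
  rw [finrank_bot, Nat.sub_zero, Finset.card_univ] at h1
  unfold Wg at h1
  rw [Finset.powerset_univ] at h1
  refine h1.trans ?_
  apply mul_le_mul_of_nonneg_left _ (by positivity)
  unfold Bd
  have h2 : (0 : ℝ) ≤ (1 / 2) ^ j := by positivity
  have h3 := pow_nonneg (th_nonneg hz hd) N
  nlinarith [mul_nonneg h2 h3]

end H26IX
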