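import Pool.Agent.H26.IX.Star
import Pool.Agent.H26.IX.CodeA
import Pool.Agent.H26.IX.CodeB

/-!
# The average over codes, and the bound for random forms
-/

namespace H26IX

open Finset H67SR H67SR.SqA Module

set_option linter.unusedSectionVars false

variable {σ : Type*} [DecidableEq σ] [Fintype σ]

theorem iter_eq_sum {ι : Type*} [Fintype ι] (D : ι → SqA σ)
    (f : Submodule (ZMod 2) (SqA σ) → ℝ) (j : ℕ) : ∀ W : Submodule (ZMod 2) (SqA σ),
    (av D)^[j] f W =
      (∑ c : Fin j → ι, f (W ⊓ ⨅ i, LinearMap.ker (mL (D (c i))))) / (Fintype.card ι : ℝ) ^ j := by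
  induction j with
  | zero =>
    intro W
    simp
  | succ j ih =>
    intro W
    rw [Function.iterate_succ_apply' _ j]
    change (∑ a, (av D)^[j] f (W ⊓ LinearMap.ker (mL (D a)))) / (Fintype.card ι : ℝ) = _
    have h1 : ∑ c : Fin (j + 1) → ι, f (W ⊓ ⨅ i, LinearMap.ker (mL (D (c i)))) =
        ∑ a : ι, ∑ c : Fin j → ι,
          f ((W ⊓ LinearMap.ker (mL (D a))) ⊓ ⨅ i, LinearMap.ker (mL (D (c i)))) := by
      rw [← Fintype.sum_prod_type']
      symm
      refine Fintype.sum_equiv (Fin.consEquiv (fun _ : Fin (j + 1) => ι)) _ _ ?_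
      rintro ⟨a, c⟩
      congr 1
      ext x
      simp only [Submodule.mem_inf, Submodule.mem_iInf, Fin.consEquiv_apply]
      constructor
      · rintro ⟨⟨h1, h2⟩, h3⟩
        refine ⟨h1, fun i => ?_⟩
        refine Fin.cases ?_ (fun i => ?_) i
        · rwa [Fin.cons_zero]
        · rw [Fin.cons_succ]; exact h3 i
      · rintro ⟨h1, h2⟩
        refine ⟨⟨h1, ?_⟩, fun i => ?_⟩
        · have := h2 0
          rwa [Fin.cons_zero] at this
        · have := h2 i.succ
          rwa [Fin.cons_succ] at this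
    rw [h1, Finset.sum_congr rfl (fun a _ => ih (W ⊓ LinearMap.ker (mL (D a)))),
      ← Finset.sum_div, div_div, pow_succ]

theorem Dc_mem {N d : ℕ} {T : Fin N → Finset σ} (hT : ∀ β, (T β).card = d)
    (c : Fin N → ZMod 2) : Dc T c ∈ V d := by
  unfold Dc
  apply Submodule.sum_mem
  intro β _
  apply Submodule.smul_mem
  intro U hU
  rw [mono_apply] at hU
  by_cases h : U = T β
  · rw [h, hT]
  · rw [if_neg h] at hU; exact absurd rfl hU

open Classical in
theorem code_bound {N j d : ℕ} (hd : 1 ≤ d) (T : Fin N → Finset σ) (hT : ∀ β, (T β).card = d)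
    (hdis : ∀ β γ, β ≠ γ → Disjoint (T β) (T γ)) {z : ℝ} (hz : 0 < z) (hz1 : z ≤ 1) :
    QQ (Dc T) d z j 0 ≤ (1 + z) ^ Fintype.card σ *
        ((z ^ d / (1 + z ^ d)) ^ j + 2 * (1 - (1 + z ^ d) / (2 * (1 + z) ^ d)) ^ N) := by
  unfold QQ
  rw [Function.iterate_zero, id_eq, iter_eq_sum]
  have hcard : (Fintype.card (Fin N → ZMod 2) : ℝ) ^ j = ((2 : ℝ) ^ j) ^ N := by
    rw [Fintype.card_fun, ZMod.card, Fintype.card_fin]
    push_cast
    rw [← pow_mul, ← pow_mul, mul_comm]
  rw [hcard, div_le_iff₀ (by positivity)]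
  have h1 : ∑ c : Fin j → Fin N → ZMod 2,
      Fz z (⊤ ⊓ ⨅ i, LinearMap.ker (mL (Dc T (c i)))) ≤
      ∑ c : Fin N → (Fin j → ZMod 2), ∑ S : Finset σ,
        (if good N T c ⊥ S then z ^ S.card else 0) := by
    rw [← (Equiv.piComm (fun (_ : Fin N) (_ : Fin j) => ZMod 2)).symm.sum_comp]
    refine Finset.sum_le_sum fun c _ => ?_
    have h2 : ∀ x ∈ (⊤ ⊓ ⨅ i, LinearMap.ker (mL (Dc T (c i))) : Submodule (ZMod 2) (SqA σ)),
        ∀ i : Fin j, (∑ β, (Function.swap c) β i • (mono (T β) : SqA σ)) * x = 0 := by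
      rintro x ⟨_, hx⟩ i
      rw [SetLike.mem_coe, Submodule.mem_iInf] at hx
      have := hx i
      rwa [LinearMap.mem_ker, mL_apply] at this
    have h3 : ∀ e ∈ range (Fintype.card σ + 1), z ^ e * (finrank (ZMod 2)
        ↥(V e ⊓ (⊤ ⊓ ⨅ i, LinearMap.ker (mL (Dc T (c i))))) : ℝ) ≤
        ∑ S : Finset σ, if S.card = e then (if good N T (Function.swap c) ⊥ S then z ^ S.card
          else 0) else 0 := by
      intro e _
      have h4 := finrank_le_good hd T hT hdis (Function.swap c) e _ h2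
      have h5 : ∑ S : Finset σ, (if S.card = e then (if good N T (Function.swap c) ⊥ S then
          z ^ S.card else 0) else 0) = z ^ e * (((Finset.univ : Finset (Finset σ)).filter
          (fun S => S.card = e ∧ good N T (Function.swap c) ⊥ S)).card : ℝ) := by
        rw [Finset.card_filter]
        push_cast
        rw [Finset.mul_sum]
        refine Finset.sum_congr rfl fun S _ => ?_
        by_cases h6 : S.card = e
        · by_cases h7 : good N T (Function.swap c) ⊥ S
          · simp [h6, h7]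
          · simp [h6, h7]
        · simp [h6]
      rw [h5]
      apply mul_le_mul_of_nonneg_left _ (pow_nonneg hz.le e)
      exact_mod_cast h4
    unfold Fz
    refine (Finset.sum_le_sum h3).trans (le_of_eq ?_)
    rw [Finset.sum_comm]
    refine Finset.sum_congr rfl fun S _ => ?_
    rw [Finset.sum_ite_eq]
    rw [if_pos]
    · rfl
    · rw [Finset.mem_range]
      exact Nat.lt_succ_of_le (Finset.card_le_univ S)
  refine h1.trans ((count_good hd T hT hdis hz hz1).trans (le_of_eq ?_))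
  ring

/-- the bound for random forms -/
theorem alp_bound {N d L m e : ℕ} (hd : 1 ≤ d) (T : Fin N → Finset σ) (hT : ∀ β, (T β).card = d)
    (hdis : ∀ β γ, β ≠ γ → Disjoint (T β) (T γ)) {z : ℝ} (hz : 0 < z) (hz1 : z ≤ 1)
    (h1 : 2 * (1 - (1 + z ^ d) / (2 * (1 + z) ^ d)) ^ N ≤ (z ^ d / (1 + z ^ d)) ^ L)
    (h2 : ((1 + z ^ d / (1 + z ^ d)) / 2) ^ L ≤ (z ^ d / (1 + z ^ d)) ^ m)
    (he : e ≤ Fintype.card σ) :
    (SS d m (V e : Submodule (ZMod 2) (SqA σ)) : ℝ) ≤
      ((2 : ℝ) ^ (Fintype.card σ).choose d) ^ m *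
        (4 * (1 + z) ^ Fintype.card σ * (z ^ d / (1 + z ^ d)) ^ m / z ^ e) := by
  set y : ℝ := z ^ d / (1 + z ^ d) with hy
  have hzd : 0 < z ^ d := pow_pos hz d
  have hy0 : 0 < y := by rw [hy]; positivity
  have hy1 : y ≤ 1 := by
    rw [hy, div_le_one (by positivity)]
    linarith
  have hL : ∀ j ≤ L, QQ (Dc T) d z j 0 ≤ (2 * (1 + z) ^ Fintype.card σ) * y ^ j := by
    intro j hj
    refine (code_bound hd T hT hdis hz hz1).trans ?_
    have h3 : y ^ L ≤ y ^ j := pow_le_pow_of_le_one hy0.le hy1 hj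
    have h4 : (0 : ℝ) ≤ (1 + z) ^ Fintype.card σ := by positivity
    calc (1 + z) ^ Fintype.card σ * (y ^ j + 2 * (1 - (1 + z ^ d) / (2 * (1 + z) ^ d)) ^ N)
        ≤ (1 + z) ^ Fintype.card σ * (y ^ j + y ^ j) := by
          apply mul_le_mul_of_nonneg_left _ h4
          linarith
      _ = _ := by ring
  have h5 := QQ_bound (Dc T) hd (fun c => Dc_mem hT c) hz (A := 2 * (1 + z) ^ Fintype.card σ)
    (by positivity) hy hL L 0 (by omega) m
  rw [zero_add, pow_zero, mul_one] at h5
  have h6 : QQ (Dc T) d z 0 m ≤ 4 * (1 + z) ^ Fintype.card σ * y ^ m := by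
    refine h5.trans ?_
    have h7 : (0 : ℝ) ≤ 2 * (1 + z) ^ Fintype.card σ := by positivity
    calc 2 * (1 + z) ^ Fintype.card σ * (y ^ m + ((1 + y) / 2) ^ L)
        ≤ 2 * (1 + z) ^ Fintype.card σ * (y ^ m + y ^ m) :=
          mul_le_mul_of_nonneg_left (by linarith) h7
      _ = _ := by ring
  -- the iterate is the average
  have h7 : ∀ (m : ℕ) (W : Submodule (ZMod 2) (SqA σ)),
      z ^ e * (SS d m (V e ⊓ W) : ℝ) / ((2 : ℝ) ^ (Fintype.card σ).choose d) ^ m ≤
      (av (fam σ d))^[m] (Fz z) W := by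
    intro m
    induction m with
    | zero =>
      intro W
      rw [pow_zero, div_one, Function.iterate_zero, id_eq]
      unfold Fz
      exact Finset.single_le_sum (f := fun e => z ^ e * (finrank (ZMod 2) ↥(V e ⊓ W) : ℝ))
        (fun i _ => by positivity) (Finset.mem_range.2 (Nat.lt_succ_of_le he))
    | succ m ih =>
      intro W
      rw [Function.iterate_succ_apply' _ m]
      change _ ≤ (∑ c, (av (fam σ d))^[m] (Fz z) (W ⊓ LinearMap.ker (mL (fam σ d c)))) /
        (Fintype.card {g : SqA σ // g ∈ (Vf d : Finset (SqA σ))} : ℝ)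
      have h8 : (Fintype.card {g : SqA σ // g ∈ (Vf d : Finset (SqA σ))} : ℝ) =
          (2 : ℝ) ^ (Fintype.card σ).choose d := by
        rw [Fintype.card_coe, card_Vf]
        push_cast
        rfl
      have h9 : (SS d (m + 1) (V e ⊓ W) : ℝ) =
          ∑ c : {g : SqA σ // g ∈ (Vf d : Finset (SqA σ))},
            (SS d m (V e ⊓ (W ⊓ LinearMap.ker (mL (fam σ d c)))) : ℝ) := by
        change ((∑ g ∈ Vf d, SS d m ((V e ⊓ W) ⊓ LinearMap.ker (mL g)) : ℕ) : ℝ) = _
        push_cast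
        rw [← Finset.sum_coe_sort (Vf d : Finset (SqA σ))
          (fun g => (SS d m ((V e ⊓ W) ⊓ LinearMap.ker (mL g)) : ℝ))]
        refine Finset.sum_congr rfl fun c _ => ?_
        rw [inf_assoc]
        rfl
      rw [h8, h9, pow_succ, ← div_div]
      apply div_le_div_of_nonneg_right _ (by positivity)
      rw [Finset.mul_sum, Finset.sum_div]
      exact Finset.sum_le_sum fun c _ => ih _
  have h8 := (h7 m ⊤).trans h6
  rw [inf_top_eq] at h8
  have hM : (0 : ℝ) < ((2 : ℝ) ^ (Fintype.card σ).choose d) ^ m := by positivity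
  have hze : 0 < z ^ e := pow_pos hz e
  rw [div_le_iff₀ hM] at h8
  have h9 : ((2 : ℝ) ^ (Fintype.card σ).choose d) ^ m *
        (4 * (1 + z) ^ Fintype.card σ * y ^ m / z ^ e) =
      (4 * (1 + z) ^ Fintype.card σ * y ^ m * ((2 : ℝ) ^ (Fintype.card σ).choose d) ^ m) /
        z ^ e := by ring
  rw [h9, le_div_iff₀ hze, mul_comm]
  exact h8

end H26IX
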