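import Mathlib

/-!
# The numerical end of the argument
-/

namespace H26IX

open Filter Finset

/-! ### the binomial coefficient from below -/

/-- the k-th term of the binomial expansion -/
def bterm (n e k : ℕ) : ℕ := n.choose k * e ^ k * (n - e) ^ (n - k)

theorem bterm_rec {n e k : ℕ} (hk : k < n) :
    bterm n e (k + 1) * ((k + 1) * (n - e)) = bterm n e k * ((n - k) * e) := by
  unfold bterm
  have h1 := Nat.choose_succ_right_eq n k
  have h2 : n - k = (n - (k + 1)) + 1 := by omega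
  calc n.choose (k + 1) * e ^ (k + 1) * (n - e) ^ (n - (k + 1)) * ((k + 1) * (n - e))
      = (n.choose (k + 1) * (k + 1)) * (e ^ (k + 1)) * ((n - e) ^ (n - (k + 1)) * (n - e)) := by
        ring
    _ = (n.choose k * (n - k)) * (e ^ (k + 1)) * ((n - e) ^ (n - (k + 1)) * (n - e)) := by
        rw [h1]
    _ = (n.choose k * (n - k)) * (e ^ (k + 1)) * ((n - e) ^ (n - k)) := by
        rw [← pow_succ, ← h2]
    _ = n.choose k * e ^ k * (n - e) ^ (n - k) * ((n - k) * e) := by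
        ring

theorem bterm_le {n e : ℕ} (he0 : 0 < e) (hen : e < n) : ∀ k ≤ n, bterm n e k ≤ bterm n e e := by
  have hup : ∀ k < e, bterm n e k ≤ bterm n e (k + 1) := by
    intro k hk
    have h1 := bterm_rec (e := e) (show k < n by omega)
    have h2 : (k + 1) * (n - e) ≤ (n - k) * e := by
      calc (k + 1) * (n - e) ≤ e * (n - k) := Nat.mul_le_mul (by omega) (by omega)
        _ = (n - k) * e := mul_comm _ _
    have h3 : 0 < (n - k) * e := Nat.mul_pos (by omega) he0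
    refine Nat.le_of_mul_le_mul_right ?_ h3
    calc bterm n e k * ((n - k) * e) = bterm n e (k + 1) * ((k + 1) * (n - e)) := h1.symm
      _ ≤ bterm n e (k + 1) * ((n - k) * e) := Nat.mul_le_mul_left _ h2
  have hdn : ∀ k, e ≤ k → k < n → bterm n e (k + 1) ≤ bterm n e k := by
    intro k hk hkn
    have h1 := bterm_rec (e := e) hkn
    have h2 : (n - k) * e ≤ (k + 1) * (n - e) := by
      calc (n - k) * e ≤ (n - e) * (k + 1) := Nat.mul_le_mul (by omega) (by omega)
        _ = (k + 1) * (n - e) := mul_comm _ _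
    have h3 : 0 < (k + 1) * (n - e) := Nat.mul_pos (by omega) (by omega)
    refine Nat.le_of_mul_le_mul_right ?_ h3
    calc bterm n e (k + 1) * ((k + 1) * (n - e)) = bterm n e k * ((n - k) * e) := h1
      _ ≤ bterm n e k * ((k + 1) * (n - e)) := Nat.mul_le_mul_left _ h2
  have hup' : ∀ j, j ≤ e → bterm n e (e - j) ≤ bterm n e e := by
    intro j
    induction j with
    | zero => intro _; simp
    | succ j ih =>
      intro hj
      have h1 := hup (e - (j + 1)) (by omega)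
      have h2 : e - (j + 1) + 1 = e - j := by omega
      rw [h2] at h1
      exact h1.trans (ih (by omega))
  have hdn' : ∀ j, e + j ≤ n → bterm n e (e + j) ≤ bterm n e e := by
    intro j
    induction j with
    | zero => intro _; simp
    | succ j ih =>
      intro hj
      have h1 := hdn (e + j) (by omega) (by omega)
      exact h1.trans (ih (by omega))
  intro k hk
  rcases le_total k e with h | h
  · have := hup' (e - k) (by omega)
    rwa [show e - (e - k) = k by omega] at this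
  · have := hdn' (k - e) (by omega)
    rwa [show e + (k - e) = k by omega] at this

theorem pow_le_choose {n e : ℕ} (he0 : 0 < e) (hen : e < n) :
    n ^ n ≤ (n + 1) * (n.choose e * e ^ e * (n - e) ^ (n - e)) := by
  have h1 : (e + (n - e)) ^ n = ∑ k ∈ range (n + 1), bterm n e k := by
    rw [add_pow]
    refine Finset.sum_congr rfl fun k _ => ?_
    unfold bterm
    simp only [Nat.cast_id]
    ring
  rw [show e + (n - e) = n by omega] at h1
  rw [h1]
  calc ∑ k ∈ range (n + 1), bterm n e k ≤ ∑ _k ∈ range (n + 1), bterm n e e :=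
        Finset.sum_le_sum fun k hk => bterm_le he0 hen k (by
          have := Finset.mem_range.1 hk
          omega)
    _ = (n + 1) * bterm n e e := by simp

/-- `log C(n,e) ≥ n log 2 - 4 (e - n/2)² / n - log (n+1)` -/
theorem log_choose_ge {n e : ℕ} (he0 : 0 < e) (hen : e < n) :
    (n : ℝ) * Real.log 2 - 4 * ((e : ℝ) - n / 2) ^ 2 / n - Real.log (n + 1) ≤
      Real.log (n.choose e) := by
  have hn : (0 : ℝ) < n := by
    have : 0 < n := by omega
    exact_mod_cast this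
  have heR : (0 : ℝ) < e := by exact_mod_cast he0
  have hneR : (0 : ℝ) < (n : ℝ) - e := by
    have : (e : ℝ) < n := by exact_mod_cast hen
    linarith
  have hC : (0 : ℝ) < (n.choose e : ℝ) := by exact_mod_cast Nat.choose_pos hen.le
  have h1 : (n : ℝ) ^ n ≤ ((n : ℝ) + 1) * (n.choose e * (e : ℝ) ^ e * ((n : ℝ) - e) ^ (n - e)) := by
    have := pow_le_choose he0 hen
    have h2 : ((n ^ n : ℕ) : ℝ) ≤ (((n + 1) * (n.choose e * e ^ e * (n - e) ^ (n - e)) : ℕ) : ℝ) := by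
      exact_mod_cast this
    push_cast [Nat.cast_sub hen.le] at h2
    exact h2
  have h2 := Real.log_le_log (by positivity) h1
  rw [Real.log_mul (by positivity) (by positivity), Real.log_mul (by positivity) (by positivity),
    Real.log_mul (by positivity) (by positivity), Real.log_pow, Real.log_pow, Real.log_pow,
    Nat.cast_sub hen.le] at h2
  -- log e ≤ log (n/2) + (2e-n)/n
  have h3 : Real.log e ≤ Real.log n - Real.log 2 + (2 * (e : ℝ) - n) / n := by
    have h4 : (e : ℝ) = n / 2 * (2 * e / n) := by field_simp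
    have h5 : Real.log e = Real.log n - Real.log 2 + Real.log (2 * e / n) := by
      conv_lhs => rw [h4]
      rw [Real.log_mul (by positivity) (by positivity), Real.log_div hn.ne' (by norm_num)]
    have h6 := Real.log_le_sub_one_of_pos (show (0 : ℝ) < 2 * e / n by positivity)
    have h7 : 2 * (e : ℝ) / n - 1 = (2 * (e : ℝ) - n) / n := by field_simp
    linarith
  have h3' : Real.log ((n : ℝ) - e) ≤ Real.log n - Real.log 2 - (2 * (e : ℝ) - n) / n := by
    have h4 : (n : ℝ) - e = n / 2 * (2 * (n - e) / n) := by field_simp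
    have h5 : Real.log ((n : ℝ) - e) = Real.log n - Real.log 2 + Real.log (2 * (n - e) / n) := by
      conv_lhs => rw [h4]
      rw [Real.log_mul (by positivity) (by positivity), Real.log_div hn.ne' (by norm_num)]
    have h6 := Real.log_le_sub_one_of_pos (show (0 : ℝ) < 2 * (n - e) / n by positivity)
    have h7 : 2 * ((n : ℝ) - e) / n - 1 = -((2 * (e : ℝ) - n) / n) := by field_simp; ring
    linarith
  have h8 : (e : ℝ) * Real.log e ≤
      e * (Real.log n - Real.log 2 + (2 * (e : ℝ) - n) / n) :=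
    mul_le_mul_of_nonneg_left h3 heR.le
  have h9 : ((n : ℝ) - e) * Real.log ((n : ℝ) - e) ≤
      ((n : ℝ) - e) * (Real.log n - Real.log 2 - (2 * (e : ℝ) - n) / n) :=
    mul_le_mul_of_nonneg_left h3' hneR.le
  have h10 : (e : ℝ) * (Real.log n - Real.log 2 + (2 * (e : ℝ) - n) / n) +
      ((n : ℝ) - e) * (Real.log n - Real.log 2 - (2 * (e : ℝ) - n) / n) =
      n * Real.log n - n * Real.log 2 + 4 * ((e : ℝ) - n / 2) ^ 2 / n := by
    field_simp
    ring
  linarith

/-! ### eventual domination of a logarithm -/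

theorem ev_log (A B : ℝ) {ε : ℝ} (hε : 0 < ε) :
    ∀ᶠ n : ℕ in atTop, A + B * Real.log ((n : ℝ) + 1) ≤ ε * n := by
  have h1 : Tendsto (fun x : ℝ => Real.log x / x) atTop (nhds 0) := by
    have := Real.tendsto_pow_log_div_mul_add_atTop 1 0 1 one_ne_zero
    simpa using this
  have h2 : Tendsto (fun n : ℕ => (n : ℝ) + 1) atTop atTop :=
    tendsto_atTop_add_const_right _ _ tendsto_natCast_atTop_atTop
  have h3 := h1.comp h2
  have h4 : Tendsto (fun n : ℕ => (A + ε) / ((n : ℝ) + 1)) atTop (nhds 0) :=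
    Tendsto.const_div_atTop h2 _
  have h5 : Tendsto (fun n : ℕ => (A + ε) / ((n : ℝ) + 1) + B * (Real.log ((n : ℝ) + 1) / ((n : ℝ) + 1)))
      atTop (nhds (0 + B * 0)) := h4.add (h3.const_mul B)
  rw [mul_zero, add_zero] at h5
  filter_upwards [h5.eventually (gt_mem_nhds hε)] with n hn
  have hn1 : (0 : ℝ) < (n : ℝ) + 1 := by positivity
  have h6 : (A + ε) / ((n : ℝ) + 1) + B * (Real.log ((n : ℝ) + 1) / ((n : ℝ) + 1)) =
      (A + ε + B * Real.log ((n : ℝ) + 1)) / ((n : ℝ) + 1) := by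
    field_simp
  rw [h6, div_lt_iff₀ hn1] at hn
  linarith

/-! ### the choice of the constants -/

theorem d_half_pow {d : ℕ} (hd : 1 ≤ d) : (d : ℝ) * (1 / 2) ^ d ≤ 1 / 2 := by
  obtain ⟨k, rfl⟩ : ∃ k, d = k + 1 := ⟨d - 1, by omega⟩
  have h1 : k + 1 ≤ 2 ^ k := Nat.lt_two_pow_self
  have h2 : ((k : ℝ) + 1) ≤ 2 ^ k := by exact_mod_cast h1
  have h3 : ((k + 1 : ℕ) : ℝ) * (1 / 2) ^ (k + 1) = ((k : ℝ) + 1) / 2 ^ k / 2 := by
    rw [one_div, inv_pow, pow_succ]
    push_cast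
    field_simp
  rw [h3]
  have h4 : ((k : ℝ) + 1) / 2 ^ k ≤ 1 := (div_le_one (by positivity)).2 h2
  linarith

theorem exp_neg_le_three_sevenths : Real.exp (-(9 / 10)) ≤ 3 / 7 := by
  rw [Real.exp_neg, inv_le_comm₀ (Real.exp_pos _) (by norm_num)]
  have h := Real.sum_le_exp_of_nonneg (show (0 : ℝ) ≤ 9 / 10 by norm_num) 4
  refine le_trans ?_ h
  norm_num [Finset.sum_range_succ, Nat.factorial]

theorem three_quarters_le : (3 / 4 : ℝ) ≤ Real.exp (-(1 / 4)) := by
  have := Real.add_one_le_exp (-(1 / 4 : ℝ))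
  linarith

theorem log_one_add_exp_neg (σ : ℝ) :
    Real.log (1 + Real.exp (-σ)) ≤ Real.log 2 - σ / 2 + σ ^ 2 / 8 := by
  have h1 : 1 + Real.exp (-σ) = 2 * Real.exp (-σ / 2) * Real.cosh (σ / 2) := by
    rw [Real.cosh_eq]
    have h2 : Real.exp (-σ / 2) * Real.exp (σ / 2) = 1 := by
      rw [← Real.exp_add]
      simp [neg_div]
    have h3 : Real.exp (-σ / 2) * Real.exp (-(σ / 2)) = Real.exp (-σ) := by
      rw [← Real.exp_add]
      congr 1
      ring
    linear_combination -h2 - h3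
  rw [h1, Real.log_mul (by positivity) (Real.cosh_pos _).ne', Real.log_mul (by norm_num)
    (Real.exp_pos _).ne', Real.log_exp]
  have h2 := Real.cosh_le_exp_half_sq (σ / 2)
  have h3 := Real.log_le_log (Real.cosh_pos _) h2
  rw [Real.log_exp] at h3
  have h4 : (σ / 2) ^ 2 / 2 = σ ^ 2 / 8 := by ring
  linarith

theorem log_y_le (x : ℝ) :
    Real.log (Real.exp (-x) / (1 + Real.exp (-x))) ≤ -Real.log 2 - x / 2 := by
  have h1 : 2 * Real.exp (-x / 2) ≤ 1 + Real.exp (-x) := by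
    have h2 : Real.exp (-x) = Real.exp (-x / 2) ^ 2 := by
      rw [← Real.exp_nat_mul]
      congr 1
      push_cast
      ring
    rw [h2]
    nlinarith [sq_nonneg (1 - Real.exp (-x / 2))]
  have h3 := Real.log_le_log (by positivity) h1
  rw [Real.log_mul (by norm_num) (Real.exp_pos _).ne', Real.log_exp] at h3
  rw [Real.log_div (Real.exp_pos _).ne' (by positivity), Real.log_exp]
  linarith

/-- the second part -/
theorem num_L {d : ℕ} (hd : 1 ≤ d) {h z : ℝ} (hh : h = (1 / 2) ^ d) (hz : z = Real.exp (-(h / 2)))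
    {K : ℕ} (hK : K = 4 * d * 2 ^ d) :
    ∀ᶠ n : ℕ in atTop,
      ∃ L : ℕ, 2 * (1 - (1 + z ^ d) / (2 * (1 + z) ^ d)) ^ (n / d) ≤ (z ^ d / (1 + z ^ d)) ^ L ∧
        ((1 + z ^ d / (1 + z ^ d)) / 2) ^ L ≤ (z ^ d / (1 + z ^ d)) ^ (n / K) := by
  have hd0 : (0 : ℝ) < d := by exact_mod_cast hd
  have hh0 : 0 < h := by rw [hh]; positivity
  have hdh : (d : ℝ) * h ≤ 1 / 2 := by rw [hh]; exact d_half_pow hd
  have hz0 : 0 < z := by rw [hz]; exact Real.exp_pos _
  have hz1 : z ≤ 1 := by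
    rw [hz, Real.exp_le_one_iff]
    linarith
  have hzd1 : z ^ d ≤ 1 := pow_le_one₀ hz0.le hz1
  have hzd : 3 / 4 ≤ z ^ d := by
    have h1 : z ^ d = Real.exp (-(d * h / 2)) := by
      rw [hz, ← Real.exp_nat_mul]
      congr 1
      ring
    rw [h1]
    have := Real.add_one_le_exp (-(d * h / 2))
    linarith
  have h2d : (2 : ℝ) ^ d * h = 1 := by
    rw [hh, ← mul_pow]
    norm_num
  have hpd : (1 + z) ^ d ≤ 2 ^ d := pow_le_pow_left₀ (by linarith) (by linarith) d
  have hpd1 : 1 ≤ (1 + z) ^ d := one_le_pow₀ (by linarith)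
  obtain ⟨θ, hθ⟩ : ∃ θ, θ = 1 - (1 + z ^ d) / (2 * (1 + z) ^ d) := ⟨_, rfl⟩
  obtain ⟨y, hy⟩ : ∃ y, y = z ^ d / (1 + z ^ d) := ⟨_, rfl⟩
  have hθ0 : 0 ≤ θ := by
    rw [hθ, sub_nonneg, div_le_one (by positivity)]
    linarith
  have hθ1 : θ ≤ Real.exp (-(7 / 8 * h)) := by
    have h1 : 7 / 8 * h ≤ (1 + z ^ d) / (2 * (1 + z) ^ d) := by
      rw [le_div_iff₀ (by positivity)]
      have h3 : 7 / 8 * h * (2 * (1 + z) ^ d) ≤ 7 / 8 * h * (2 * 2 ^ d) := by gcongr
      have h4 : 7 / 8 * h * (2 * 2 ^ d) = 7 / 4 * (2 ^ d * h) := by ring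
      rw [h4, h2d] at h3
      linarith
    have h2 := Real.add_one_le_exp (-(7 / 8 * h))
    rw [hθ]
    linarith
  have hy0 : 3 / 7 ≤ y := by
    rw [hy, le_div_iff₀ (by positivity)]
    linarith
  have hy1 : y ≤ 1 / 2 := by
    rw [hy, div_le_iff₀ (by positivity)]
    linarith
  have hye : Real.exp (-(9 / 10)) ≤ y := exp_neg_le_three_sevenths.trans hy0
  rw [← hθ, ← hy]
  have hev : ∀ᶠ n : ℕ in atTop, 100 * (d : ℝ) / h ≤ n :=
    tendsto_natCast_atTop_atTop.eventually (eventually_ge_atTop _)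
  filter_upwards [hev] with n hn
  have hn0 : (0 : ℝ) ≤ n := Nat.cast_nonneg n
  have hn' : 100 ≤ h * n / d := by
    rw [div_le_iff₀ hh0] at hn
    rw [le_div_iff₀ hd0]
    linarith
  obtain ⟨T, hT⟩ : ∃ T, T = h * n / d := ⟨_, rfl⟩
  rw [← hT] at hn'
  refine ⟨⌊95 / 100 * T⌋₊, ?_, ?_⟩
  · have hL : ((⌊95 / 100 * T⌋₊ : ℕ) : ℝ) ≤ 95 / 100 * T := Nat.floor_le (by linarith)
    obtain ⟨L, hLd⟩ : ∃ L, L = ⌊95 / 100 * T⌋₊ := ⟨_, rfl⟩
    rw [← hLd] at hL ⊢
    have h1 : (n : ℝ) / d - 1 ≤ ((n / d : ℕ) : ℝ) := by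
      have h2 : n < d * (n / d + 1) := Nat.lt_mul_div_succ n (by omega)
      have h3 : (n : ℝ) < d * (((n / d : ℕ) : ℝ) + 1) := by exact_mod_cast h2
      have h4 : (n : ℝ) / d < ((n / d : ℕ) : ℝ) + 1 := by
        rw [div_lt_iff₀ hd0]
        linarith
      linarith
    have h2 : θ ^ (n / d) ≤ Real.exp (-(7 / 8 * h) * ((n / d : ℕ) : ℝ)) := by
      calc θ ^ (n / d) ≤ (Real.exp (-(7 / 8 * h))) ^ (n / d) := pow_le_pow_left₀ hθ0 hθ1 _
        _ = _ := by
          rw [← Real.exp_nat_mul]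
          congr 1
          ring
    have h3 : Real.exp (-(9 / 10) * (L : ℝ)) ≤ y ^ L := by
      calc Real.exp (-(9 / 10) * (L : ℝ)) = (Real.exp (-(9 / 10))) ^ L := by
            rw [← Real.exp_nat_mul]
            congr 1
            ring
        _ ≤ y ^ L := pow_le_pow_left₀ (Real.exp_pos _).le hye _
    have h4 : (2 : ℝ) ≤ Real.exp 1 := by
      have := Real.add_one_le_exp (1 : ℝ)
      linarith
    have h5 : h ≤ 1 / 2 := by
      have : h * 1 ≤ h * d := mul_le_mul_of_nonneg_left (by exact_mod_cast hd) hh0.le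
      linarith
    have h6 : h * ((n : ℝ) / d - 1) = T - h := by
      rw [hT]
      ring
    have h7 : h * ((n : ℝ) / d - 1) ≤ h * ((n / d : ℕ) : ℝ) := mul_le_mul_of_nonneg_left h1 hh0.le
    calc 2 * θ ^ (n / d) ≤ Real.exp 1 * Real.exp (-(7 / 8 * h) * ((n / d : ℕ) : ℝ)) :=
          mul_le_mul h4 h2 (pow_nonneg hθ0 _) (Real.exp_pos _).le
      _ = Real.exp (1 + -(7 / 8 * h) * ((n / d : ℕ) : ℝ)) := (Real.exp_add _ _).symm
      _ ≤ Real.exp (-(9 / 10) * (L : ℝ)) := by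
          refine Real.exp_le_exp.2 ?_
          nlinarith
      _ ≤ y ^ L := h3
  · have hL : 95 / 100 * T - 1 ≤ ((⌊95 / 100 * T⌋₊ : ℕ) : ℝ) := by
      have := Nat.lt_floor_add_one (95 / 100 * T)
      linarith
    obtain ⟨L, hLd⟩ : ∃ L, L = ⌊95 / 100 * T⌋₊ := ⟨_, rfl⟩
    rw [← hLd] at hL ⊢
    have hK0 : (0 : ℝ) < K := by
      have : 0 < K := by rw [hK]; positivity
      exact_mod_cast this
    have hKR : (K : ℝ) * h = 4 * d := by
      have : (K : ℝ) = 4 * d * 2 ^ d := by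
        rw [hK]
        push_cast
        ring
      rw [this]
      linear_combination 4 * (d : ℝ) * h2d
    have h1 : ((n / K : ℕ) : ℝ) ≤ T / 4 := by
      have h2 : ((n / K : ℕ) : ℝ) ≤ (n : ℝ) / K := Nat.cast_div_le
      have h3 : (n : ℝ) / K = T / 4 := by
        rw [hT, div_div, div_eq_div_iff hK0.ne' (by positivity)]
        linear_combination -(n : ℝ) * hKR
      rwa [h3] at h2
    have h2 : ((1 + y) / 2) ^ L ≤ Real.exp (-(1 / 4) * (L : ℝ)) := by
      calc ((1 + y) / 2) ^ L ≤ (Real.exp (-(1 / 4))) ^ L :=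
            pow_le_pow_left₀ (by linarith) (le_trans (by linarith) three_quarters_le) _
        _ = _ := by
          rw [← Real.exp_nat_mul]
          congr 1
          ring
    have h3 : Real.exp (-(9 / 10) * ((n / K : ℕ) : ℝ)) ≤ y ^ (n / K) := by
      calc Real.exp (-(9 / 10) * ((n / K : ℕ) : ℝ)) = (Real.exp (-(9 / 10))) ^ (n / K) := by
            rw [← Real.exp_nat_mul]
            congr 1
            ring
        _ ≤ y ^ (n / K) := pow_le_pow_left₀ (Real.exp_pos _).le hye _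
    refine h2.trans (le_trans (Real.exp_le_exp.2 ?_) h3)
    linarith

/-- MODULE NUM -/
theorem num_final {d : ℕ} (hd : 1 ≤ d) : ∃ (K : ℕ) (z c : ℝ), 1 ≤ K ∧ 0 < z ∧ z ≤ 1 ∧ 0 < c ∧
    ∀ᶠ n : ℕ in atTop,
      ⌈(1 / 2 + (1 / 2) ^ d / 32) * (n : ℝ)⌉₊ ≤ n ∧
      (∃ L : ℕ, 2 * (1 - (1 + z ^ d) / (2 * (1 + z) ^ d)) ^ (n / d) ≤ (z ^ d / (1 + z ^ d)) ^ L ∧
        ((1 + z ^ d / (1 + z ^ d)) / 2) ^ L ≤ (z ^ d / (1 + z ^ d)) ^ (n / K)) ∧
      (4 * (1 + z) ^ n * (z ^ d / (1 + z ^ d)) ^ (n / K) /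
          (z ^ ⌈(1 / 2 + (1 / 2) ^ d / 32) * (n : ℝ)⌉₊ *
            (n.choose ⌈(1 / 2 + (1 / 2) ^ d / 32) * (n : ℝ)⌉₊ : ℝ))) ^ K *
        (n.choose ⌈(1 / 2 + (1 / 2) ^ d / 32) * (n : ℝ)⌉₊ : ℝ) ≤ Real.exp (-c * n) := by
  obtain ⟨h, hh⟩ : ∃ h : ℝ, h = (1 / 2) ^ d := ⟨_, rfl⟩
  obtain ⟨K, hK⟩ : ∃ K, K = 4 * d * 2 ^ d := ⟨_, rfl⟩
  obtain ⟨z, hz⟩ : ∃ z, z = Real.exp (-(h / 2)) := ⟨_, rfl⟩
  have hd0 : (0 : ℝ) < d := by exact_mod_cast hd
  have hd1 : (1 : ℝ) ≤ d := by exact_mod_cast hd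
  have hh0 : 0 < h := by rw [hh]; positivity
  have hdh : (d : ℝ) * h ≤ 1 / 2 := by rw [hh]; exact d_half_pow hd
  have hh1 : h ≤ 1 / 2 := by
    have : h * 1 ≤ h * d := mul_le_mul_of_nonneg_left hd1 hh0.le
    linarith
  have hz0 : 0 < z := by rw [hz]; exact Real.exp_pos _
  have hz1 : z ≤ 1 := by
    rw [hz, Real.exp_le_one_iff]
    linarith
  have h2d : (2 : ℝ) ^ d * h = 1 := by
    rw [hh, ← mul_pow]
    norm_num
  have hKN : 1 ≤ K := by
    rw [hK]
    have : 0 < 4 * d * 2 ^ d := by positivity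
    omega
  have hK1 : (1 : ℝ) ≤ K := by exact_mod_cast hKN
  have hKh : (K : ℝ) * h = 4 * d := by
    have : (K : ℝ) = 4 * d * 2 ^ d := by
      rw [hK]
      push_cast
      ring
    rw [this]
    linear_combination 4 * (d : ℝ) * h2d
  refine ⟨K, z, d * h / 64, hKN, hz0, hz1, by positivity, ?_⟩
  rw [← hh]
  obtain ⟨y, hy⟩ : ∃ y, y = z ^ d / (1 + z ^ d) := ⟨_, rfl⟩
  have hy0 : 0 < y := by rw [hy]; positivity
  have hly : Real.log y ≤ -Real.log 2 - (d * (h / 2)) / 2 := by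
    have h1 : z ^ d = Real.exp (-(d * (h / 2))) := by
      rw [hz, ← Real.exp_nat_mul]
      congr 1
      ring
    rw [hy, h1]
    exact log_y_le _
  have hlz : Real.log z = -(h / 2) := by rw [hz, Real.log_exp]
  have hl1 : Real.log (1 + z) ≤ Real.log 2 - (h / 2) / 2 + (h / 2) ^ 2 / 8 := by
    rw [hz]
    exact log_one_add_exp_neg _
  have hlog2 : 0 < Real.log 2 := Real.log_pos (by norm_num)
  have hev1 := ev_log (K * Real.log 4 + K * (Real.log 2 + d * (h / 2) / 2) + K * (h / 2) + 8 * K) K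
    (show 0 < (d : ℝ) * h / 32 by positivity)
  filter_upwards [num_L hd hh hz hK, hev1, eventually_gt_atTop 4] with n hn1 hn2 hn3
  have hnR : (4 : ℝ) < n := by exact_mod_cast hn3
  have hnR0 : (0 : ℝ) < n := by linarith
  obtain ⟨e, he⟩ : ∃ e, e = ⌈(1 / 2 + h / 32) * (n : ℝ)⌉₊ := ⟨_, rfl⟩
  have hen : e ≤ n := by
    rw [he, Nat.ceil_le]
    nlinarith
  have he1 : (1 / 2 + h / 32) * (n : ℝ) ≤ e := by
    rw [he]
    exact Nat.le_ceil _
  have he2 : (e : ℝ) < (1 / 2 + h / 32) * (n : ℝ) + 1 := by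
    rw [he]
    exact Nat.ceil_lt_add_one (by positivity)
  have he0 : 0 < e := by
    have : (0 : ℝ) < e := lt_of_lt_of_le (by positivity) he1
    exact_mod_cast this
  have hen' : e < n := by
    have : (e : ℝ) < n := by
      refine he2.trans_le ?_
      nlinarith
    exact_mod_cast this
  rw [← he, ← hy]
  refine ⟨hen, ?_, ?_⟩
  · rw [← hy] at hn1
    exact hn1
  have hC : (0 : ℝ) < (n.choose e : ℝ) := by exact_mod_cast Nat.choose_pos hen
  obtain ⟨C, hCd⟩ : ∃ C : ℝ, C = (n.choose e : ℝ) := ⟨_, rfl⟩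
  rw [← hCd] at hC ⊢
  have hX : 0 < 4 * (1 + z) ^ n * y ^ (n / K) / (z ^ e * C) := by positivity
  have hlC := log_choose_ge he0 hen'
  rw [← hCd] at hlC
  -- (e - n/2)^2/n ≤ δ² n + 2
  have hsq : 4 * ((e : ℝ) - n / 2) ^ 2 / n ≤ 4 * (h / 32) ^ 2 * n + 8 := by
    have h1 : 0 ≤ (e : ℝ) - n / 2 := by
      have : 0 ≤ h / 32 * (n : ℝ) := by positivity
      linarith
    have h2 : (e : ℝ) - n / 2 ≤ h / 32 * n + 1 := by linarith
    have h3 : ((e : ℝ) - n / 2) ^ 2 ≤ (h / 32 * n + 1) ^ 2 := pow_le_pow_left₀ h1 h2 2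
    rw [div_le_iff₀ hnR0]
    have h4 : (h / 32 * (n : ℝ) + 1) ^ 2 = (h / 32) ^ 2 * n * n + h / 16 * n + 1 := by ring
    have h5 : h / 16 * (n : ℝ) ≤ 1 * n := by
      refine mul_le_mul_of_nonneg_right ?_ hnR0.le
      linarith
    nlinarith
  have hKm : (n : ℝ) - K ≤ K * ((n / K : ℕ) : ℝ) := by
    have h2 : n < K * (n / K + 1) := Nat.lt_mul_div_succ n (by omega)
    have h3 : (n : ℝ) < K * (((n / K : ℕ) : ℝ) + 1) := by exact_mod_cast h2
    linarith
  have key : Real.log ((4 * (1 + z) ^ n * y ^ (n / K) / (z ^ e * C)) ^ K * C) ≤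
      -(d * h / 64) * n := by
    rw [Real.log_mul (pow_pos hX _).ne' hC.ne', Real.log_pow, Real.log_div (by positivity)
      (by positivity), Real.log_mul (by positivity) (by positivity), Real.log_mul (by norm_num)
      (by positivity), Real.log_mul (by positivity) hC.ne', Real.log_pow, Real.log_pow,
      Real.log_pow, hlz]
    obtain ⟨m, hm⟩ : ∃ m : ℝ, m = ((n / K : ℕ) : ℝ) := ⟨_, rfl⟩
    rw [← hm] at hKm ⊢
    have hm0 : 0 ≤ m := by rw [hm]; positivity
    have a1 : (K : ℝ) * (n * Real.log (1 + z)) ≤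
        K * (n * (Real.log 2 - (h / 2) / 2 + (h / 2) ^ 2 / 8)) := by gcongr
    have a2 : (K : ℝ) * (m * Real.log y) ≤ -((n - K) * (Real.log 2 + (d * (h / 2)) / 2)) := by
      have b1 : (K : ℝ) * (m * Real.log y) ≤ K * (m * (-Real.log 2 - (d * (h / 2)) / 2)) := by
        gcongr
      have b2 : ((n : ℝ) - K) * (Real.log 2 + (d * (h / 2)) / 2) ≤
          (K * m) * (Real.log 2 + (d * (h / 2)) / 2) :=
        mul_le_mul_of_nonneg_right hKm (by positivity)
      have b3 : (K : ℝ) * (m * (-Real.log 2 - (d * (h / 2)) / 2)) =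
        -((K * m) * (Real.log 2 + (d * (h / 2)) / 2)) := by ring
      linarith
    have a3 : (K : ℝ) * (e * (h / 2)) ≤ K * (((1 / 2 + h / 32) * (n : ℝ) + 1) * (h / 2)) := by
      gcongr
    have a4 : ((K : ℝ) - 1) * (n * Real.log 2 - 4 * (h / 32) ^ 2 * n - 8 - Real.log (n + 1)) ≤
        ((K : ℝ) - 1) * Real.log C := by
      refine mul_le_mul_of_nonneg_left ?_ (by linarith)
      linarith
    have hl : 0 ≤ Real.log ((n : ℝ) + 1) := Real.log_nonneg (by linarith)
    have a5 : (K : ℝ) * (h / 2) ^ 2 / 8 * n = d * h / 8 * n := by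
      linear_combination h * n / 32 * hKh
    have a6 : (K : ℝ) * (h / 32 * (h / 2)) * n = d * h / 16 * n := by
      linear_combination h * n / 64 * hKh
    have a7 : (K : ℝ) * (4 * (h / 32) ^ 2) * n = d * h / 64 * n := by
      linear_combination h * n / 256 * hKh
    have a8 : 0 ≤ 4 * (h / 32) ^ 2 * (n : ℝ) := by positivity
    nlinarith
  have h9 := Real.exp_le_exp.2 key
  rwa [Real.exp_log (by positivity)] at h9

end H26IX
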