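import Pool.Agent.H26.IX.Main
import Pool.Agent.H26.IX.CodeC
import Pool.Agent.H26.IX.Num

/-!
# The index of a random `n`-tuple is at most `(1/2 - δ) n`
-/

namespace H26IX

open Finset H67SR H67SR.SqA Module Filter

theorem ncard_bad' {n d e : ℕ} :
    (({lam ∈ tups n d | Ann (V e) (trp lam) ≠ ⊥} : Set (Fin n → BB n)).ncard : ℝ) ≤
      SS d n (V e : Submodule (ZMod 2) (SqA (Fin n))) := by
  classical
  have h1 := sum_Ann (σ := Fin n) d n (V e)
  rw [← h1]
  have h2 : (({lam ∈ tups n d | Ann (V e) (trp lam) ≠ ⊥} : Set (Fin n → BB n)).ncard) ≤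
      ((Fintype.piFinset (fun _ : Fin n => (Vf d : Finset (SqA (Fin n))))).filter
        (fun Λ => Ann (V e) Λ ≠ ⊥)).card := by
    rw [← Set.ncard_image_of_injective _ (trp_injective (n := n)), ← Set.ncard_coe_finset]
    apply Set.ncard_le_ncard _ (Set.toFinite _)
    rintro _ ⟨lam, ⟨hl, hne⟩, rfl⟩
    rw [Finset.mem_coe, Finset.mem_filter, Fintype.mem_piFinset]
    exact ⟨fun i => mem_Vf.2 (mem_part_iff_V.1 (hl i).1), hne⟩
  have h3 : (((Fintype.piFinset (fun _ : Fin n => (Vf d : Finset (SqA (Fin n))))).filter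
        (fun Λ => Ann (V e) Λ ≠ ⊥)).card : ℝ) ≤
      ∑ lam ∈ Fintype.piFinset (fun _ : Fin n => (Vf d : Finset (SqA (Fin n)))),
        (finrank (ZMod 2) (Ann (V e) lam) : ℝ) := by
    rw [Finset.card_filter]
    push_cast
    refine Finset.sum_le_sum fun Λ _ => ?_
    split_ifs with h
    · have h4 : 0 < finrank (ZMod 2) (Ann (V e) Λ) := by
        rw [Module.finrank_pos_iff]
        exact Submodule.nontrivial_iff_ne_bot.2 h
      exact_mod_cast h4
    · exact Nat.cast_nonneg _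
  calc (({lam ∈ tups n d | Ann (V e) (trp lam) ≠ ⊥} : Set (Fin n → BB n)).ncard : ℝ)
      ≤ (((Fintype.piFinset (fun _ : Fin n => (Vf d : Finset (SqA (Fin n))))).filter
        (fun Λ => Ann (V e) Λ ≠ ⊥)).card : ℝ) := by exact_mod_cast h2
    _ ≤ _ := h3

theorem SS_bound {n d : ℕ} (hd : 1 ≤ d) {K e L : ℕ} {z : ℝ} (hz : 0 < z) (hz1 : z ≤ 1)
    (h1 : 2 * (1 - (1 + z ^ d) / (2 * (1 + z) ^ d)) ^ (n / d) ≤ (z ^ d / (1 + z ^ d)) ^ L)
    (h2 : ((1 + z ^ d / (1 + z ^ d)) / 2) ^ L ≤ (z ^ d / (1 + z ^ d)) ^ (n / K))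
    (he : e ≤ n) :
    (SS d n (V e : Submodule (ZMod 2) (SqA (Fin n))) : ℝ) ≤
      ((2 : ℝ) ^ n.choose d) ^ n * ((4 * (1 + z) ^ n * (z ^ d / (1 + z ^ d)) ^ (n / K) /
          (z ^ e * (n.choose e : ℝ))) ^ K * (n.choose e : ℝ)) := by
  set m := n / K with hm
  set M : ℝ := (2 : ℝ) ^ n.choose d with hM
  have hM0 : 0 < M := by positivity
  have hC : (0 : ℝ) < (n.choose e : ℝ) := choose_pos_real he
  have h3 := alp_bound (σ := Fin n) (N := n / d) (L := L) (m := m) (e := e) hd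
    (fun β => blk n d β) (fun β => card_blk (by
      have h4 : (β : ℕ) + 1 ≤ n / d := β.2
      calc ((β : ℕ) + 1) * d ≤ (n / d) * d := Nat.mul_le_mul_right _ h4
        _ ≤ n := Nat.div_mul_le_self n d))
    (fun β γ h => disj_blk (fun h' => h (Fin.ext h'))) hz hz1 h1 h2
    (by rw [Fintype.card_fin]; exact he)
  rw [Fintype.card_fin, ← hM] at h3
  have hKm : K * m ≤ n := Nat.mul_div_le n K
  have h4 : (SS d n (V e : Submodule (ZMod 2) (SqA (Fin n))) : ℝ) ≤
      M ^ (n - K * m) * SS d (K * m) (V e : Submodule (ZMod 2) (SqA (Fin n))) := by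
    have h5 := SS_add_le d (K * m) (n - K * m) (V e : Submodule (ZMod 2) (SqA (Fin n)))
    rw [Nat.add_sub_cancel' hKm, Fintype.card_fin] at h5
    rw [hM]
    exact_mod_cast h5
  have h5 := SS_mul (σ := Fin n) (d := d) (b := m) (e := e) (by rw [Fintype.card_fin]; exact he) K
  rw [Fintype.card_fin] at h5
  set R : ℝ := 4 * (1 + z) ^ n * (z ^ d / (1 + z ^ d)) ^ m / (z ^ e * (n.choose e : ℝ)) with hR
  have h6 : alp (Fin n) d m e ≤ M ^ m * R := by
    unfold alp
    rw [Fintype.card_fin, div_le_iff₀ hC]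
    refine h3.trans (le_of_eq ?_)
    rw [hR]
    have hze : 0 < z ^ e := pow_pos hz e
    field_simp
  calc (SS d n (V e : Submodule (ZMod 2) (SqA (Fin n))) : ℝ)
      ≤ M ^ (n - K * m) * SS d (K * m) (V e : Submodule (ZMod 2) (SqA (Fin n))) := h4
    _ ≤ M ^ (n - K * m) * (alp (Fin n) d m e ^ K * (n.choose e : ℝ)) :=
        mul_le_mul_of_nonneg_left h5 (by positivity)
    _ ≤ M ^ (n - K * m) * ((M ^ m * R) ^ K * (n.choose e : ℝ)) := by
        apply mul_le_mul_of_nonneg_left _ (by positivity)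
        apply mul_le_mul_of_nonneg_right _ hC.le
        exact pow_le_pow_left₀ (alp_nonneg _ _ _) h6 K
    _ = (M ^ (n - K * m) * M ^ (K * m)) * (R ^ K * (n.choose e : ℝ)) := by
        rw [mul_pow, ← pow_mul M m K, mul_comm m K]
        ring
    _ = M ^ n * (R ^ K * (n.choose e : ℝ)) := by
        rw [← pow_add, Nat.sub_add_cancel hKm]

theorem ind_half {d : ℕ} (hd : 1 ≤ d) :
    ∃ c : ℝ, 0 < c ∧ ∀ᶠ n : ℕ in atTop,
      0 < (tups n d).ncard ∧
      1 - Real.exp (-c * n) ≤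
      (({lam ∈ tups n d |
        ((sInf {D | part n D ⊆ (Ideal.span (Set.range lam) : Set (BB n))} : ℕ) : ℝ) ≤
          (1 / 2 - (1 / 2) ^ d / 32) * (n : ℝ)} : Set (Fin n → BB n)).ncard : ℝ) /
        ((tups n d).ncard : ℝ) := by
  classical
  obtain ⟨K, z, c, hK, hz, hz1, hc, hev⟩ := num_final hd
  refine ⟨c / 2, by positivity, ?_⟩
  have hc2 : ∀ᶠ n : ℕ in atTop, 2 * Real.exp (-c * n) ≤ Real.exp (-(c / 2) * n) := by
    obtain ⟨n0, hn0⟩ := exists_nat_gt (2 * Real.log 2 / c)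
    filter_upwards [eventually_ge_atTop n0] with n hn
    have h1 : 2 * Real.log 2 / c < n := lt_of_lt_of_le hn0 (by exact_mod_cast hn)
    rw [div_lt_iff₀ hc] at h1
    have h2 : (2 : ℝ) = Real.exp (Real.log 2) := (Real.exp_log (by norm_num)).symm
    calc 2 * Real.exp (-c * n) = Real.exp (Real.log 2) * Real.exp (-c * n) := by rw [← h2]
      _ = Real.exp (Real.log 2 + -c * n) := by rw [Real.exp_add]
      _ ≤ Real.exp (-(c / 2) * n) := by
        apply Real.exp_le_exp.2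
        linarith
  filter_upwards [hev, hc2, eventually_ge_atTop (2 * d), eventually_ge_atTop 1] with n hn hcn
    hn2d hn1
  obtain ⟨hen, ⟨L, hL1, hL2⟩, hfin⟩ := hn
  set e : ℕ := ⌈(1 / 2 + (1 / 2) ^ d / 32) * (n : ℝ)⌉₊ with he
  have he1 : (1 / 2 + (1 / 2) ^ d / 32) * (n : ℝ) ≤ e := Nat.le_ceil _
  have hn0 : (0 : ℝ) < (n : ℝ) := by exact_mod_cast hn1
  set M : ℝ := (2 : ℝ) ^ n.choose d with hM
  have hMn : 2 * (n : ℝ) ≤ M := by
    have h1 : 2 * n ≤ 2 ^ n.choose d :=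
      (two_mul_le_two_pow hn1).trans (Nat.pow_le_pow_right (by norm_num) (le_choose hd hn2d))
    rw [hM]
    exact_mod_cast h1
  have hM1 : 1 ≤ M := by
    have : (1 : ℝ) ≤ n := by exact_mod_cast hn1
    linarith
  have hM0 : 0 < M := by linarith
  have htot : M ^ n / 2 ≤ (tups n d).ncard :=
    (pow_pred_ge hMn hM1).trans ncard_tups_ge
  have htot0 : (0 : ℝ) < (tups n d).ncard := lt_of_lt_of_le (by positivity) htot
  refine ⟨by exact_mod_cast htot0, ?_⟩
  have hbad := ncard_bad' (n := n) (d := d) (e := e)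
  have hSS := SS_bound hd hz hz1 hL1 hL2 hen
  rw [← hM] at hSS
  have hbad2 : (({lam ∈ tups n d | Ann (V e) (trp lam) ≠ ⊥} : Set (Fin n → BB n)).ncard : ℝ) ≤
      M ^ n * Real.exp (-c * n) :=
    hbad.trans (hSS.trans (mul_le_mul_of_nonneg_left hfin (by positivity)))
  set good : Set (Fin n → BB n) := {lam ∈ tups n d |
        ((sInf {D | part n D ⊆ (Ideal.span (Set.range lam) : Set (BB n))} : ℕ) : ℝ) ≤
          (1 / 2 - (1 / 2) ^ d / 32) * (n : ℝ)} with hgood
  set bad : Set (Fin n → BB n) := {lam ∈ tups n d | Ann (V e) (trp lam) ≠ ⊥} with hbaddef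
  have hsub : tups n d ⊆ good ∪ bad := by
    intro lam hl
    by_cases h : Ann (V e) (trp lam) = ⊥
    · left
      refine ⟨hl, ?_⟩
      have h1 := part_subset hen hl h
      have h2 : sInf {D | part n D ⊆ (Ideal.span (Set.range lam) : Set (BB n))} ≤ n - e :=
        Nat.sInf_le h1
      have h3 : ((sInf {D | part n D ⊆ (Ideal.span (Set.range lam) : Set (BB n))} : ℕ) : ℝ) ≤
          ((n - e : ℕ) : ℝ) := by exact_mod_cast h2
      rw [Nat.cast_sub hen] at h3
      linarith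
    · right
      exact ⟨hl, h⟩
  have hcard : ((tups n d).ncard : ℝ) ≤ (good.ncard : ℝ) + (bad.ncard : ℝ) := by
    have h1 := (Set.ncard_le_ncard hsub (Set.toFinite _)).trans (Set.ncard_union_le good bad)
    exact_mod_cast h1
  have hbad3 : (bad.ncard : ℝ) ≤ Real.exp (-(c / 2) * n) * (tups n d).ncard := by
    calc (bad.ncard : ℝ) ≤ M ^ n * Real.exp (-c * n) := hbad2
      _ ≤ (2 * (tups n d).ncard) * Real.exp (-c * n) := by
          apply mul_le_mul_of_nonneg_right _ (Real.exp_pos _).le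
          linarith
      _ = (2 * Real.exp (-c * n)) * (tups n d).ncard := by ring
      _ ≤ _ := mul_le_mul_of_nonneg_right hcn htot0.le
  rw [le_div_iff₀ htot0]
  have h1 : (1 - Real.exp (-(c / 2) * n)) * ((tups n d).ncard : ℝ) =
      (tups n d).ncard - Real.exp (-(c / 2) * n) * (tups n d).ncard := by ring
  rw [h1]
  linarith

end H26IX
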