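import Pool.Agent.H26.IX.Half

/-!
# The index of a random `n`-tuple, from a numerical certificate
-/

namespace H26IX

open Finset H67SR H67SR.SqA Module Filter

/-- the numerical certificate for the index bound `(1 - p) n` -/
def NumCert (d : ℕ) (p : ℝ) : Prop :=
  ∃ (K : ℕ) (z c : ℝ), 1 ≤ K ∧ 0 < z ∧ z ≤ 1 ∧ 0 < c ∧ ∀ᶠ n : ℕ in atTop,
    ⌈p * (n : ℝ)⌉₊ ≤ n ∧
    (∃ L : ℕ, 2 * (1 - (1 + z ^ d) / (2 * (1 + z) ^ d)) ^ (n / d) ≤ (z ^ d / (1 + z ^ d)) ^ L ∧
      ((1 + z ^ d / (1 + z ^ d)) / 2) ^ L ≤ (z ^ d / (1 + z ^ d)) ^ (n / K)) ∧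
    (4 * (1 + z) ^ n * (z ^ d / (1 + z ^ d)) ^ (n / K) /
        (z ^ ⌈p * (n : ℝ)⌉₊ * (n.choose ⌈p * (n : ℝ)⌉₊ : ℝ))) ^ K *
      (n.choose ⌈p * (n : ℝ)⌉₊ : ℝ) ≤ Real.exp (-c * n)

theorem ind_of_num {d : ℕ} (hd : 1 ≤ d) {p : ℝ} (hnum : NumCert d p) :
    ∃ c : ℝ, 0 < c ∧ ∀ᶠ n : ℕ in atTop,
      0 < (tups n d).ncard ∧
      1 - Real.exp (-c * n) ≤
      (({lam ∈ tups n d |
        ((sInf {D | part n D ⊆ (Ideal.span (Set.range lam) : Set (BB n))} : ℕ) : ℝ) ≤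
          (1 - p) * (n : ℝ)} : Set (Fin n → BB n)).ncard : ℝ) /
        ((tups n d).ncard : ℝ) := by
  classical
  obtain ⟨K, z, c, hK, hz, hz1, hc, hev⟩ := hnum
  refine ⟨c / 2, by positivity, ?_⟩
  have hc2 : ∀ᶠ n : ℕ in atTop, 2 * Real.exp (-c * n) ≤ Real.exp (-(c / 2) * n) := by
    obtain ⟨n0, hn0⟩ := exists_nat_gt (2 * Real.log 2 / c)
    filter_upwards [eventually_ge_atTop n0] with n hn
    have h1 : 2 * Real.log 2 / c < n := lt_of_lt_of_le hn0 (by exact_mod_cast hn)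
    rw [div_lt_iff₀ hc] at h1
    have h2 : (2 : ℝ) = Real.exp (Real.log 2) := (Real.exp_log (by norm_num)).symm
    calc 2 * Real.exp (-c * n) = Real.exp (Real.log 2) * Real.exp (-c * n) := by rw [← h2]
      _ = Real.exp (Real.log 2 + -c * n) := by rw [Real.exp_add]
      _ ≤ Real.exp (-(c / 2) * n) := by
        apply Real.exp_le_exp.2
        linarith
  filter_upwards [hev, hc2, eventually_ge_atTop (2 * d), eventually_ge_atTop 1] with n hn hcn
    hn2d hn1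
  obtain ⟨hen, ⟨L, hL1, hL2⟩, hfin⟩ := hn
  set e : ℕ := ⌈p * (n : ℝ)⌉₊ with he
  have he1 : p * (n : ℝ) ≤ e := Nat.le_ceil _
  have hn0 : (0 : ℝ) < (n : ℝ) := by exact_mod_cast hn1
  set M : ℝ := (2 : ℝ) ^ n.choose d with hM
  have hMn : 2 * (n : ℝ) ≤ M := by
    have h1 : 2 * n ≤ 2 ^ n.choose d :=
      (two_mul_le_two_pow hn1).trans (Nat.pow_le_pow_right (by norm_num) (le_choose hd hn2d))
    rw [hM]
    exact_mod_cast h1
  have hM1 : 1 ≤ M := by
    have : (1 : ℝ) ≤ n := by exact_mod_cast hn1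
    linarith
  have hM0 : 0 < M := by linarith
  have htot : M ^ n / 2 ≤ (tups n d).ncard :=
    (pow_pred_ge hMn hM1).trans ncard_tups_ge
  have htot0 : (0 : ℝ) < (tups n d).ncard := lt_of_lt_of_le (by positivity) htot
  refine ⟨by exact_mod_cast htot0, ?_⟩
  have hbad := ncard_bad' (n := n) (d := d) (e := e)
  have hSS := SS_bound hd hz hz1 hL1 hL2 hen
  rw [← hM] at hSS
  have hbad2 : (({lam ∈ tups n d | Ann (V e) (trp lam) ≠ ⊥} : Set (Fin n → BB n)).ncard : ℝ) ≤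
      M ^ n * Real.exp (-c * n) :=
    hbad.trans (hSS.trans (mul_le_mul_of_nonneg_left hfin (by positivity)))
  set good : Set (Fin n → BB n) := {lam ∈ tups n d |
        ((sInf {D | part n D ⊆ (Ideal.span (Set.range lam) : Set (BB n))} : ℕ) : ℝ) ≤
          (1 - p) * (n : ℝ)} with hgood
  set bad : Set (Fin n → BB n) := {lam ∈ tups n d | Ann (V e) (trp lam) ≠ ⊥} with hbaddef
  have hsub : tups n d ⊆ good ∪ bad := by
    intro lam hl
    by_cases h : Ann (V e) (trp lam) = ⊥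
    · left
      refine ⟨hl, ?_⟩
      have h1 := part_subset hen hl h
      have h2 : sInf {D | part n D ⊆ (Ideal.span (Set.range lam) : Set (BB n))} ≤ n - e :=
        Nat.sInf_le h1
      have h3 : ((sInf {D | part n D ⊆ (Ideal.span (Set.range lam) : Set (BB n))} : ℕ) : ℝ) ≤
          ((n - e : ℕ) : ℝ) := by exact_mod_cast h2
      rw [Nat.cast_sub hen] at h3
      linarith
    · right
      exact ⟨hl, h⟩
  have hcard : ((tups n d).ncard : ℝ) ≤ (good.ncard : ℝ) + (bad.ncard : ℝ) := by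
    have h1 := (Set.ncard_le_ncard hsub (Set.toFinite _)).trans (Set.ncard_union_le good bad)
    exact_mod_cast h1
  have hbad3 : (bad.ncard : ℝ) ≤ Real.exp (-(c / 2) * n) * (tups n d).ncard := by
    calc (bad.ncard : ℝ) ≤ M ^ n * Real.exp (-c * n) := hbad2
      _ ≤ (2 * (tups n d).ncard) * Real.exp (-c * n) := by
          apply mul_le_mul_of_nonneg_right _ (Real.exp_pos _).le
          linarith
      _ = (2 * Real.exp (-c * n)) * (tups n d).ncard := by ring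
      _ ≤ _ := mul_le_mul_of_nonneg_right hcn htot0.le
  rw [le_div_iff₀ htot0]
  have h1 : (1 - Real.exp (-(c / 2) * n)) * ((tups n d).ncard : ℝ) =
      (tups n d).ncard - Real.exp (-(c / 2) * n) * (tups n d).ncard := by ring
  rw [h1]
  linarith

end H26IX
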