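import Pool.Agent.H26.IX.Slope

/-!
# The average nullity of one form, compared with a special form
-/

namespace H26IX

open Finset H67SR H67SR.SqA Module

set_option linter.unusedSectionVars false

variable {σ : Type*} [DecidableEq σ] [Fintype σ]

theorem rank_nullity (X : Submodule (ZMod 2) (SqA σ)) (f : SqA σ →ₗ[ZMod 2] SqA σ) :
    finrank (ZMod 2) X = finrank (ZMod 2) ↥(X.map f) +
      finrank (ZMod 2) ↥(X ⊓ LinearMap.ker f) := by
  have h1 := LinearMap.finrank_range_add_finrank_ker (f.domRestrict X)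
  have h2 : LinearMap.range (f.domRestrict X) = X.map f := by
    ext y
    simp [Submodule.mem_map]
  have h3 : finrank (ZMod 2) (LinearMap.ker (f.domRestrict X)) =
      finrank (ZMod 2) ↥(X ⊓ LinearMap.ker f) := by
    have h4 : (LinearMap.ker (f.domRestrict X)).map X.subtype = X ⊓ LinearMap.ker f := by
      ext y
      simp only [Submodule.mem_map, LinearMap.mem_ker, LinearMap.domRestrict_apply,
        Submodule.mem_inf]
      constructor
      · rintro ⟨x, hx, rfl⟩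
        exact ⟨x.2, hx⟩
      · rintro ⟨hy, hy'⟩
        exact ⟨⟨y, hy⟩, hy', rfl⟩
    rw [← h4]
    exact (Submodule.finrank_map_subtype_eq X _).symm
  rw [h2, h3] at h1
  exact h1.symm

theorem pair_ineq {d e : ℕ} (hd : 1 ≤ d) {D lam : SqA σ} (hl : lam ∈ V d) :
    nul (V e) lam + nul (V e) (lam + D) ≤
      nul (V e) D + nul ((V e).map (mL D)) lam + nul (V e ⊓ LinearMap.ker (mL D)) lam := by
  have h1 := Submodule.finrank_sup_add_finrank_inf_eq
    ((V e : Submodule (ZMod 2) (SqA σ)) ⊓ LinearMap.ker (mL lam))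
    ((V e : Submodule (ZMod 2) (SqA σ)) ⊓ LinearMap.ker (mL (lam + D)))
  have h2 : finrank (ZMod 2) ↥(((V e : Submodule (ZMod 2) (SqA σ)) ⊓ LinearMap.ker (mL lam)) ⊔
      ((V e : Submodule (ZMod 2) (SqA σ)) ⊓ LinearMap.ker (mL (lam + D)))) ≤
      finrank (ZMod 2) ↥((V e : Submodule (ZMod 2) (SqA σ)) ⊓ LinearMap.ker (mL (lam * D))) := by
    apply Submodule.finrank_mono
    apply sup_le
    · rintro x ⟨hx1, hx2⟩
      refine ⟨hx1, ?_⟩
      rw [SetLike.mem_coe, LinearMap.mem_ker, mL_apply] at hx2 ⊢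
      rw [mul_comm lam D, mul_assoc, hx2, mul_zero]
    · rintro x ⟨hx1, hx2⟩
      refine ⟨hx1, ?_⟩
      rw [SetLike.mem_coe, LinearMap.mem_ker, mL_apply] at hx2 ⊢
      have h3 : lam * ((lam + D) * x) = 0 := by rw [hx2, mul_zero]
      have h4 : lam * ((lam + D) * x) = (lam * lam) * x + lam * D * x := by ring
      rw [h4, sq_zero hd hl, zero_mul, zero_add] at h3
      exact h3
  have h3 : finrank (ZMod 2) ↥(((V e : Submodule (ZMod 2) (SqA σ)) ⊓ LinearMap.ker (mL lam)) ⊓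
      ((V e : Submodule (ZMod 2) (SqA σ)) ⊓ LinearMap.ker (mL (lam + D)))) ≤
      nul (V e ⊓ LinearMap.ker (mL D)) lam := by
    apply Submodule.finrank_mono
    rintro x ⟨⟨hx1, hx2⟩, ⟨_, hx3⟩⟩
    rw [SetLike.mem_coe, LinearMap.mem_ker, mL_apply] at hx2 hx3
    refine ⟨⟨hx1, ?_⟩, ?_⟩
    · rw [SetLike.mem_coe, LinearMap.mem_ker, mL_apply]
      rw [add_mul, hx2, zero_add] at hx3
      exact hx3
    · rw [SetLike.mem_coe, LinearMap.mem_ker, mL_apply]
      exact hx2
  have h4 := rank_nullity ((V e : Submodule (ZMod 2) (SqA σ)) ⊓ LinearMap.ker (mL (lam * D)))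
    (mL D)
  have h5 : ((V e : Submodule (ZMod 2) (SqA σ)) ⊓ LinearMap.ker (mL (lam * D))) ⊓
      LinearMap.ker (mL D) = V e ⊓ LinearMap.ker (mL D) := by
    ext x
    simp only [Submodule.mem_inf, LinearMap.mem_ker, mL_apply]
    constructor
    · rintro ⟨⟨h6, _⟩, h7⟩
      exact ⟨h6, h7⟩
    · rintro ⟨h6, h7⟩
      exact ⟨⟨h6, by rw [mul_assoc, h7, mul_zero]⟩, h7⟩
  have h6 : ((V e : Submodule (ZMod 2) (SqA σ)) ⊓ LinearMap.ker (mL (lam * D))).map (mL D) ≤
      (V e).map (mL D) ⊓ LinearMap.ker (mL lam) := by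
    rintro _ ⟨x, ⟨hx1, hx2⟩, rfl⟩
    refine ⟨⟨x, hx1, rfl⟩, ?_⟩
    rw [SetLike.mem_coe, LinearMap.mem_ker, mL_apply] at hx2 ⊢
    rw [mL_apply, ← mul_assoc, hx2]
  have h7 := Submodule.finrank_mono (R := ZMod 2) h6
  rw [h5] at h4
  unfold nul at *
  omega

theorem dineq {d e : ℕ} (hd : 1 ≤ d) {D : SqA σ} (hD : D ∈ V d) :
    2 * S d (V e : Submodule (ZMod 2) (SqA σ)) ≤
      2 ^ (Fintype.card σ).choose d * nul (V e) D + S d ((V e).map (mL D)) +
        S d (V e ⊓ LinearMap.ker (mL D)) := by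
  have h1 : ∑ g ∈ Vf d, nul (V e) (g + D) = S d (V e : Submodule (ZMod 2) (SqA σ)) := by
    unfold S
    refine Finset.sum_nbij' (fun g => g + D) (fun g => g + D) ?_ ?_ ?_ ?_ ?_
    · intro g hg; exact mem_Vf.2 ((V d).add_mem (mem_Vf.1 hg) hD)
    · intro g hg; exact mem_Vf.2 ((V d).add_mem (mem_Vf.1 hg) hD)
    · intro g _; simp only [add_assoc, SqA.add_self, add_zero]
    · intro g _; simp only [add_assoc, SqA.add_self, add_zero]
    · intro g _; rfl
  have h2 : ∑ g ∈ Vf d, (nul (V e) g + nul (V e) (g + D)) ≤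
      ∑ g ∈ Vf d, (nul (V e) D + nul ((V e).map (mL D)) g +
        nul (V e ⊓ LinearMap.ker (mL D)) g) :=
    Finset.sum_le_sum fun g hg => pair_ineq hd (mem_Vf.1 hg)
  rw [Finset.sum_add_distrib, h1, Finset.sum_add_distrib, Finset.sum_add_distrib,
    Finset.sum_const, card_Vf, smul_eq_mul] at h2
  unfold S at *
  omega

/-- average nullity of a form of degree `d` in degree `e` -/
noncomputable def kap (σ : Type*) [DecidableEq σ] [Fintype σ] (d e : ℕ) : ℝ :=
  (S d (V e : Submodule (ZMod 2) (SqA σ)) : ℝ) /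
    (2 ^ (Fintype.card σ).choose d * ((Fintype.card σ).choose e : ℝ))

theorem choose_pos_real {n e : ℕ} (he : e ≤ n) : (0 : ℝ) < (n.choose e : ℝ) := by
  exact_mod_cast Nat.choose_pos he

theorem kap_nonneg (d e : ℕ) : 0 ≤ kap σ d e := by
  unfold kap
  positivity

theorem kap_le_one (d e : ℕ) : kap σ d e ≤ 1 := by
  unfold kap
  apply div_le_one_of_le₀ _ (by positivity)
  have h := S_le d (V e : Submodule (ZMod 2) (SqA σ))
  rw [finrank_V] at h
  exact_mod_cast h

theorem S_eq_kap {d e : ℕ} (he : e ≤ Fintype.card σ) :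
    (S d (V e : Submodule (ZMod 2) (SqA σ)) : ℝ) =
      kap σ d e * (2 ^ (Fintype.card σ).choose d * ((Fintype.card σ).choose e : ℝ)) := by
  unfold kap
  have := choose_pos_real he
  field_simp

theorem slope_real {d e : ℕ} (he : e ≤ Fintype.card σ) {W : Submodule (ZMod 2) (SqA σ)}
    (hW : W ≤ V e) :
    (S d W : ℝ) ≤ kap σ d e * 2 ^ (Fintype.card σ).choose d * finrank (ZMod 2) W := by
  have h1 := slope d e W hW
  rw [finrank_V] at h1
  have h2 : (S d W : ℝ) * ((Fintype.card σ).choose e : ℝ) ≤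
      (S d (V e : Submodule (ZMod 2) (SqA σ)) : ℝ) * finrank (ZMod 2) W := by exact_mod_cast h1
  rw [S_eq_kap he] at h2
  have h3 := choose_pos_real he
  have h4 : (S d W : ℝ) * ((Fintype.card σ).choose e : ℝ) ≤
      (kap σ d e * 2 ^ (Fintype.card σ).choose d * finrank (ZMod 2) W) *
        ((Fintype.card σ).choose e : ℝ) := by
    refine h2.trans (le_of_eq ?_)
    ring
  exact le_of_mul_le_mul_right h4 h3

theorem kap_step {d e : ℕ} (hd : 1 ≤ d) (he : e + d ≤ Fintype.card σ) {D : SqA σ}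
    (hD : D ∈ V d) {s : ℝ} (hs : (nul (V e) D : ℝ) ≤ s * ((Fintype.card σ).choose e : ℝ)) :
    kap σ d e * (2 - s) ≤ s + (1 - s) * kap σ d (e + d) := by
  have he' : e ≤ Fintype.card σ := by omega
  have hN := choose_pos_real he'
  have hM : (0 : ℝ) < 2 ^ (Fintype.card σ).choose d := by positivity
  have h1 : (2 : ℝ) * S d (V e : Submodule (ZMod 2) (SqA σ)) ≤
      2 ^ (Fintype.card σ).choose d * nul (V e) D + S d ((V e).map (mL D)) +
        S d (V e ⊓ LinearMap.ker (mL D)) := by exact_mod_cast dineq hd hD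
  have h2 : (V e : Submodule (ZMod 2) (SqA σ)).map (mL D) ≤ V (e + d) := by
    rintro _ ⟨x, hx, rfl⟩
    rw [mL_apply, add_comm e d]
    exact mul_mem_V hD hx
  have h3 := slope_real (d := d) he h2
  have h4 := slope_real (d := d) he' (inf_le_left :
    (V e : Submodule (ZMod 2) (SqA σ)) ⊓ LinearMap.ker (mL D) ≤ V e)
  have h5 := rank_nullity (V e : Submodule (ZMod 2) (SqA σ)) (mL D)
  rw [finrank_V] at h5
  have h6 : (finrank (ZMod 2) ↥((V e : Submodule (ZMod 2) (SqA σ)).map (mL D)) : ℝ) =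
      ((Fintype.card σ).choose e : ℝ) - nul (V e) D := by
    have : (((Fintype.card σ).choose e : ℕ) : ℝ) =
      (finrank (ZMod 2) ↥((V e : Submodule (ZMod 2) (SqA σ)).map (mL D)) : ℝ) +
        (finrank (ZMod 2) ↥((V e : Submodule (ZMod 2) (SqA σ)) ⊓ LinearMap.ker (mL D)) : ℝ) := by
      exact_mod_cast h5
    unfold nul
    linarith
  rw [h6] at h3
  have h7 : (finrank (ZMod 2) ↥((V e : Submodule (ZMod 2) (SqA σ)) ⊓ LinearMap.ker (mL D)) : ℝ) =
      nul (V e) D := rfl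
  rw [h7] at h4
  rw [S_eq_kap he'] at h1
  set N : ℝ := ((Fintype.card σ).choose e : ℝ) with hNdef
  set M : ℝ := 2 ^ (Fintype.card σ).choose d with hMdef
  set ν : ℝ := (nul (V e) D : ℝ) with hν
  set k := kap σ d e with hk
  set k' := kap σ d (e + d) with hk'
  have hk0 : 0 ≤ k := kap_nonneg d e
  have hk1 : k' ≤ 1 := kap_le_one d (e + d)
  have h8 : M * (2 * k * N) ≤ M * (ν + k' * (N - ν) + k * ν) := by nlinarith
  have h9 : 2 * k * N ≤ ν + k' * (N - ν) + k * ν := le_of_mul_le_mul_left h8 hM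
  have h10 : (k * (2 - s)) * N ≤ (s + (1 - s) * k') * N := by
    have h11 : 0 ≤ (s * N - ν) * (1 - k' + k) :=
      mul_nonneg (by linarith) (by linarith)
    nlinarith
  exact le_of_mul_le_mul_right h10 hN

end H26IX
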