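import Pool.Agent.H26.IX.Asym

/-!
# The index of a random `n`-tuple of forms of degree `d` is at most `n/2 - c log n`
-/

namespace H26IX

open Finset H67SR H67SR.SqA Module Filter

instance (n : ℕ) : Finite (BB n) := Finite.of_equiv _ (iso n).symm.toEquiv

/-- tuples of nonzero forms of degree `d` -/
def tups (n d : ℕ) : Set (Fin n → BB n) := {lam | ∀ i, lam i ∈ part n d ∧ lam i ≠ 0}

/-- transport of a tuple to the concrete algebra -/
noncomputable def trp {n : ℕ} (lam : Fin n → BB n) : Fin n → SqA (Fin n) := fun l => iso n (lam l)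

theorem trp_injective {n : ℕ} : Function.Injective (trp (n := n)) := by
  intro a b h
  funext l
  exact (iso n).injective (congrFun h l)

theorem mem_part_iff_V {n k : ℕ} {x : BB n} : x ∈ part n k ↔ iso n x ∈ V k := by
  rw [mem_part_iff, mem_H_iff_V]

/-- if the common kernel in degree `e` vanishes then the ideal contains degree `n - e` -/
theorem part_subset {n d e : ℕ} (he : e ≤ n) {lam : Fin n → BB n} (hl : lam ∈ tups n d)
    (h0 : Ann (V e) (trp lam) = ⊥) :
    part n (n - e) ⊆ (Ideal.span (Set.range lam) : Set (BB n)) := by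
  intro x hx
  have h1 := mem_part_iff_V.1 hx
  have h2 := dual (k := n - e) (e := e) (d := d) (by rw [Fintype.card_fin]; omega)
    (lam := trp lam) (fun i => mem_part_iff_V.1 (hl i).1) h0 _ h1
  have h3 := Ideal.mem_map_of_mem (iso n).symm h2
  rw [RingEquiv.symm_apply_apply, Ideal.map_span] at h3
  refine Ideal.span_mono ?_ h3
  rintro _ ⟨_, ⟨l, rfl⟩, rfl⟩
  refine ⟨l, ?_⟩
  change lam l = (iso n).symm (iso n (lam l))
  rw [RingEquiv.symm_apply_apply]

theorem ncard_tups_ge {n d : ℕ} :
    ((2 : ℝ) ^ n.choose d - 1) ^ n ≤ (tups n d).ncard := by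
  classical
  have h1 : (((Fintype.piFinset (fun _ : Fin n => (Vf d : Finset (SqA (Fin n))).erase 0)).card :
      ℕ) : ℝ) = ((2 : ℝ) ^ n.choose d - 1) ^ n := by
    rw [Fintype.card_piFinset_const, Finset.card_erase_of_mem (mem_Vf.2 (V d).zero_mem),
      card_Vf, Fintype.card_fin]
    push_cast [Nat.one_le_two_pow]
    rfl
  rw [← h1]
  have h2 : (Fintype.piFinset (fun _ : Fin n => (Vf d : Finset (SqA (Fin n))).erase 0)).card ≤
      (tups n d).ncard := by
    rw [← Set.ncard_image_of_injective (tups n d) trp_injective, ← Set.ncard_coe_finset]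
    apply Set.ncard_le_ncard _ (Set.toFinite _)
    intro Λ hΛ
    rw [Finset.mem_coe, Fintype.mem_piFinset] at hΛ
    refine ⟨fun l => (iso n).symm (Λ l), fun l => ⟨?_, ?_⟩, ?_⟩
    · rw [mem_part_iff_V, RingEquiv.apply_symm_apply]
      exact mem_Vf.1 (Finset.mem_of_mem_erase (hΛ l))
    · intro h3
      have h4 := Finset.ne_of_mem_erase (hΛ l)
      apply h4
      have h5 : (iso n).symm (Λ l) = 0 := h3
      rw [← (iso n).apply_symm_apply (Λ l), h5, map_zero]
    · funext l
      unfold trp
      rw [RingEquiv.apply_symm_apply]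
  exact_mod_cast h2

/-- counting the tuples with a common kernel in degree `e` -/
theorem ncard_bad {n d e : ℕ} (he : e ≤ n) :
    (({lam ∈ tups n d | Ann (V e) (trp lam) ≠ ⊥} : Set (Fin n → BB n)).ncard : ℝ) ≤
      (kap (Fin n) d e * 2 ^ n.choose d) ^ n * (n.choose e : ℝ) := by
  classical
  have h1 := first_moment (σ := Fin n) (d := d) (e := e) (by rw [Fintype.card_fin]; exact he) n
    (V e) le_rfl
  rw [finrank_V, Fintype.card_fin] at h1
  refine le_trans ?_ h1
  have h2 : (({lam ∈ tups n d | Ann (V e) (trp lam) ≠ ⊥} : Set (Fin n → BB n)).ncard) ≤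
      ((Fintype.piFinset (fun _ : Fin n => (Vf d : Finset (SqA (Fin n))))).filter
        (fun Λ => Ann (V e) Λ ≠ ⊥)).card := by
    rw [← Set.ncard_image_of_injective _ (trp_injective (n := n)), ← Set.ncard_coe_finset]
    apply Set.ncard_le_ncard _ (Set.toFinite _)
    rintro _ ⟨lam, ⟨hl, hne⟩, rfl⟩
    rw [Finset.mem_coe, Finset.mem_filter, Fintype.mem_piFinset]
    exact ⟨fun i => mem_Vf.2 (mem_part_iff_V.1 (hl i).1), hne⟩
  have h3 : (((Fintype.piFinset (fun _ : Fin n => (Vf d : Finset (SqA (Fin n))))).filter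
        (fun Λ => Ann (V e) Λ ≠ ⊥)).card : ℝ) ≤
      ∑ lam ∈ Fintype.piFinset (fun _ : Fin n => (Vf d : Finset (SqA (Fin n)))),
        (finrank (ZMod 2) (Ann (V e) lam) : ℝ) := by
    rw [Finset.card_filter]
    push_cast
    refine Finset.sum_le_sum fun Λ _ => ?_
    split_ifs with h
    · have h4 : 0 < finrank (ZMod 2) (Ann (V e) Λ) := by
        rw [Module.finrank_pos_iff]
        exact Submodule.nontrivial_iff_ne_bot.2 h
      exact_mod_cast h4
    · exact Nat.cast_nonneg _
  calc (({lam ∈ tups n d | Ann (V e) (trp lam) ≠ ⊥} : Set (Fin n → BB n)).ncard : ℝ)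
      ≤ (((Fintype.piFinset (fun _ : Fin n => (Vf d : Finset (SqA (Fin n))))).filter
        (fun Λ => Ann (V e) Λ ≠ ⊥)).card : ℝ) := by exact_mod_cast h2
    _ ≤ _ := h3

theorem ind_tendsto {d : ℕ} (hd : 1 ≤ d) :
    ∃ c : ℝ, 0 < c ∧ Tendsto (fun n : ℕ =>
      (({lam ∈ tups n d |
        ((sInf {D | part n D ⊆ (Ideal.span (Set.range lam) : Set (BB n))} : ℕ) : ℝ) ≤
          (n : ℝ) / 2 - c * Real.log n} : Set (Fin n → BB n)).ncard : ℝ) /
        ((tups n d).ncard : ℝ)) atTop (nhds 1) := by
  classical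
  set c : ℝ := 1 / (8 * C2 d) with hc
  have hC := C2_pos d
  have hc0 : 0 < c := by rw [hc]; positivity
  refine ⟨c, hc0, ?_⟩
  have hlim := quarter_tendsto (2 * Real.exp (4 * C2 d))
  have hlow : Tendsto (fun n : ℕ => 1 - 2 * Real.exp (4 * C2 d) *
      (Real.exp (Real.log (n : ℝ) / 4) / Real.sqrt ((n : ℝ) + 1))) atTop (nhds 1) := by
    have := hlim.const_sub 1
    rwa [sub_zero] at this
  have hev : ∀ᶠ n : ℕ in atTop, 0 < (tups n d).ncard ∧
      1 - 2 * Real.exp (4 * C2 d) *
        (Real.exp (Real.log (n : ℝ) / 4) / Real.sqrt ((n : ℝ) + 1)) ≤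
      (({lam ∈ tups n d |
        ((sInf {D | part n D ⊆ (Ideal.span (Set.range lam) : Set (BB n))} : ℕ) : ℝ) ≤
          (n : ℝ) / 2 - c * Real.log n} : Set (Fin n → BB n)).ncard : ℝ) /
        ((tups n d).ncard : ℝ) := by
    filter_upwards [kap_fin hd c hc0.le, eventually_ge_atTop (2 * d), eventually_ge_atTop 1,
      eventually_log_le (2 * c) 2] with n hkap hn2d hn1 hlogn
    have hn0 : (0 : ℝ) < (n : ℝ) := by exact_mod_cast hn1
    have hlog : 0 ≤ Real.log (n : ℝ) := Real.log_nonneg (by exact_mod_cast hn1)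
    set e : ℕ := ⌈(n : ℝ) / 2 + c * Real.log n⌉₊ with he
    have he1 : (n : ℝ) / 2 + c * Real.log n ≤ e := Nat.le_ceil _
    have he2 : (e : ℝ) ≤ (n : ℝ) / 2 + (c * Real.log n + 1) := by
      have := (Nat.ceil_lt_add_one (show 0 ≤ (n : ℝ) / 2 + c * Real.log n by positivity)).le
      linarith
    have hen : e ≤ n := by
      have : (e : ℝ) ≤ n := by linarith
      exact_mod_cast this
    have hk := hkap e he2
    have hk0 := kap_nonneg (σ := Fin n) d e
    -- size of the set of forms
    set M : ℝ := (2 : ℝ) ^ n.choose d with hM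
    have hMn : 2 * (n : ℝ) ≤ M := by
      have h1 : 2 * n ≤ 2 ^ n.choose d :=
        (two_mul_le_two_pow hn1).trans (Nat.pow_le_pow_right (by norm_num) (le_choose hd hn2d))
      rw [hM]
      exact_mod_cast h1
    have hM1 : 1 ≤ M := by
      have : (1 : ℝ) ≤ n := by exact_mod_cast hn1
      linarith
    have hM0 : 0 < M := by linarith
    have htot : M ^ n / 2 ≤ (tups n d).ncard :=
      (pow_pred_ge hMn hM1).trans ncard_tups_ge
    have htot0 : (0 : ℝ) < (tups n d).ncard := lt_of_lt_of_le (by positivity) htot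
    refine ⟨by exact_mod_cast htot0, ?_⟩
    -- the bad tuples
    have hbad := ncard_bad (n := n) (d := d) (e := e) hen
    have hbound : (kap (Fin n) d e * M) ^ n * (n.choose e : ℝ) ≤
        M ^ n * (Real.exp (4 * C2 d) *
          (Real.exp (Real.log (n : ℝ) / 4) / Real.sqrt ((n : ℝ) + 1))) := by
      have h1 : kap (Fin n) d e ^ n ≤
          (1 / 2) ^ n * (Real.exp (4 * C2 d) * Real.exp (Real.log (n : ℝ) / 4)) := by
        have h2 : (1 : ℝ) / 2 + C2 d * (c * Real.log n + 2) / n =
            (1 / 2) * (2 * (C2 d * (c * Real.log n + 2)) / n + 1) := by ring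
        have h3 : kap (Fin n) d e ^ n ≤
            ((1 / 2) * (2 * (C2 d * (c * Real.log n + 2)) / n + 1)) ^ n := by
          rw [← h2]
          exact pow_le_pow_left₀ hk0 hk n
        refine h3.trans ?_
        rw [mul_pow]
        apply mul_le_mul_of_nonneg_left _ (by positivity)
        have h4 : (2 * (C2 d * (c * Real.log n + 2)) / n + 1) ^ n ≤
            (Real.exp (2 * (C2 d * (c * Real.log n + 2)) / n)) ^ n :=
          pow_le_pow_left₀ (by positivity) (Real.add_one_le_exp _) n
        refine h4.trans (le_of_eq ?_)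
        rw [← Real.exp_nat_mul, ← Real.exp_add]
        congr 1
        rw [hc]
        field_simp
        ring
      have h2 := choose_real n e
      have h3 : 0 < Real.sqrt ((n : ℝ) + 1) := Real.sqrt_pos.2 (by positivity)
      rw [mul_pow]
      calc kap (Fin n) d e ^ n * M ^ n * (n.choose e : ℝ)
          ≤ ((1 / 2) ^ n * (Real.exp (4 * C2 d) * Real.exp (Real.log (n : ℝ) / 4))) * M ^ n *
            (2 ^ n / Real.sqrt ((n : ℝ) + 1)) := by
            apply mul_le_mul _ h2 (Nat.cast_nonneg _) (by positivity)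
            exact mul_le_mul_of_nonneg_right h1 (by positivity)
        _ = M ^ n * (Real.exp (4 * C2 d) *
          (Real.exp (Real.log (n : ℝ) / 4) / Real.sqrt ((n : ℝ) + 1))) * ((1 / 2) ^ n * 2 ^ n) := by
            ring
        _ = _ := by
            rw [← mul_pow]
            norm_num
    set X : ℝ := Real.exp (Real.log (n : ℝ) / 4) / Real.sqrt ((n : ℝ) + 1) with hX
    have hX0 : 0 ≤ X := by rw [hX]; positivity
    -- complement
    set good : Set (Fin n → BB n) := {lam ∈ tups n d |
        ((sInf {D | part n D ⊆ (Ideal.span (Set.range lam) : Set (BB n))} : ℕ) : ℝ) ≤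
          (n : ℝ) / 2 - c * Real.log n} with hgood
    set bad : Set (Fin n → BB n) := {lam ∈ tups n d | Ann (V e) (trp lam) ≠ ⊥} with hbaddef
    have hsub : tups n d ⊆ good ∪ bad := by
      intro lam hl
      by_cases h : Ann (V e) (trp lam) = ⊥
      · left
        refine ⟨hl, ?_⟩
        have h1 := part_subset hen hl h
        have h2 : sInf {D | part n D ⊆ (Ideal.span (Set.range lam) : Set (BB n))} ≤ n - e :=
          Nat.sInf_le h1
        have h3 : ((sInf {D | part n D ⊆ (Ideal.span (Set.range lam) : Set (BB n))} : ℕ) : ℝ) ≤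
            ((n - e : ℕ) : ℝ) := by exact_mod_cast h2
        rw [Nat.cast_sub hen] at h3
        linarith
      · right
        exact ⟨hl, h⟩
    have hcard : ((tups n d).ncard : ℝ) ≤ (good.ncard : ℝ) + (bad.ncard : ℝ) := by
      have h1 := (Set.ncard_le_ncard hsub (Set.toFinite _)).trans (Set.ncard_union_le good bad)
      exact_mod_cast h1
    have hbad2 : (bad.ncard : ℝ) ≤ 2 * Real.exp (4 * C2 d) * X * (tups n d).ncard := by
      calc (bad.ncard : ℝ) ≤ M ^ n * (Real.exp (4 * C2 d) * X) := hbad.trans hbound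
        _ ≤ (2 * (tups n d).ncard) * (Real.exp (4 * C2 d) * X) := by
            apply mul_le_mul_of_nonneg_right _ (by positivity)
            linarith
        _ = _ := by ring
    rw [le_div_iff₀ htot0]
    have h1 : (1 - 2 * Real.exp (4 * C2 d) * X) * ((tups n d).ncard : ℝ) =
        (tups n d).ncard - 2 * Real.exp (4 * C2 d) * X * (tups n d).ncard := by ring
    rw [h1]
    linarith
  refine tendsto_of_tendsto_of_tendsto_of_le_of_le' hlow tendsto_const_nhds ?_ ?_
  · filter_upwards [hev] with n hn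
    exact hn.2
  · filter_upwards [hev] with n hn
    have h1 : (0 : ℝ) < (tups n d).ncard := by exact_mod_cast hn.1
    rw [div_le_one h1]
    exact_mod_cast Set.ncard_le_ncard (Set.sep_subset _ _) (Set.toFinite _)

end H26IX
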