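import Mathlib
import Pool.Agent.H26.IX.Num

/-!
# The sharp numbers for `d = 2`
-/

namespace H26IX

open Filter Finset

/-! ### the big inequality -/

theorem num2_nat :
    19 ^ 14000 * 537 ^ 6981 * 463 ^ 6019 < 181 ^ 1000 * 9 ^ 5518 * 10 ^ 45482 := by
  decide +kernel

theorem log_of_nat_lt {a b c d e f i j k l m o : ℕ} (ha : 0 < a) (hb : 0 < b) (hc : 0 < c)
    (hd : 0 < d) (he : 0 < e) (hf : 0 < f)
    (h : a ^ i * b ^ j * c ^ k < d ^ l * e ^ m * f ^ o) :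
    (i : ℝ) * Real.log a + j * Real.log b + k * Real.log c <
      l * Real.log d + m * Real.log e + o * Real.log f := by
  have ha' : (0 : ℝ) < a := by exact_mod_cast ha
  have hb' : (0 : ℝ) < b := by exact_mod_cast hb
  have hc' : (0 : ℝ) < c := by exact_mod_cast hc
  have hd' : (0 : ℝ) < d := by exact_mod_cast hd
  have he' : (0 : ℝ) < e := by exact_mod_cast he
  have hf' : (0 : ℝ) < f := by exact_mod_cast hf
  have h1 : ((a : ℝ) ^ i * (b : ℝ) ^ j * (c : ℝ) ^ k) < (d : ℝ) ^ l * (e : ℝ) ^ m * (f : ℝ) ^ o := by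
    exact_mod_cast h
  have h2 := Real.log_lt_log (by positivity) h1
  rwa [Real.log_mul (by positivity) (by positivity), Real.log_mul (by positivity) (by positivity),
    Real.log_mul (by positivity) (by positivity), Real.log_mul (by positivity) (by positivity),
    Real.log_pow, Real.log_pow, Real.log_pow, Real.log_pow, Real.log_pow, Real.log_pow] at h2

theorem num2_S : 14 * Real.log (19 / 10) + Real.log (81 / 181) - 7518 / 1000 * Real.log (9 / 10) +
    13 * (537 / 1000 * Real.log (537 / 1000) + 463 / 1000 * Real.log (463 / 1000)) < 0 := by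
  have h1 := log_of_nat_lt (by norm_num) (by norm_num) (by norm_num) (by norm_num) (by norm_num)
    (by norm_num) num2_nat
  have e1 : Real.log (81 : ℝ) = 2 * Real.log 9 := by
    rw [show (81 : ℝ) = 9 ^ 2 by norm_num, Real.log_pow]
    norm_num
  have e2 : Real.log (1000 : ℝ) = 3 * Real.log 10 := by
    rw [show (1000 : ℝ) = 10 ^ 3 by norm_num, Real.log_pow]
    norm_num
  rw [Real.log_div (by norm_num) (by norm_num), Real.log_div (by norm_num) (by norm_num),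
    Real.log_div (by norm_num) (by norm_num), Real.log_div (by norm_num) (by norm_num),
    Real.log_div (by norm_num) (by norm_num), e1, e2]
  norm_num at h1 ⊢
  linarith

/-- the entropy bound at `p = 537/1000` -/
theorem num2_choose {n e : ℕ} (he0 : 0 < e) (hen : e < n) (h1 : (537 / 1000 : ℝ) * n ≤ e)
    (h2 : (e : ℝ) < 537 / 1000 * n + 1) (hn : 4 < n) :
    -(n : ℝ) * (537 / 1000 * Real.log (537 / 1000) + 463 / 1000 * Real.log (463 / 1000)) +
        Real.log (463 / 1000) - 2 - Real.log (n + 1) ≤ Real.log (n.choose e) := by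
  have hnR : (4 : ℝ) < n := by exact_mod_cast hn
  have hn0 : (0 : ℝ) < n := by linarith
  have heR : (0 : ℝ) < e := by exact_mod_cast he0
  have hneR : (0 : ℝ) < (n : ℝ) - e := by
    have : (e : ℝ) < n := by exact_mod_cast hen
    linarith
  have hC : (0 : ℝ) < (n.choose e : ℝ) := by exact_mod_cast Nat.choose_pos hen.le
  have h3 : (n : ℝ) ^ n ≤ ((n : ℝ) + 1) * (n.choose e * (e : ℝ) ^ e * ((n : ℝ) - e) ^ (n - e)) := by
    have := pow_le_choose he0 hen
    have h4 : ((n ^ n : ℕ) : ℝ) ≤ (((n + 1) * (n.choose e * e ^ e * (n - e) ^ (n - e)) : ℕ) : ℝ) := by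
      exact_mod_cast this
    push_cast [Nat.cast_sub hen.le] at h4
    exact h4
  have h4 := Real.log_le_log (by positivity) h3
  rw [Real.log_mul (by positivity) (by positivity), Real.log_mul (by positivity) (by positivity),
    Real.log_mul (by positivity) (by positivity), Real.log_pow, Real.log_pow, Real.log_pow,
    Nat.cast_sub hen.le] at h4
  obtain ⟨p, hp⟩ : ∃ p : ℝ, p = 537 / 1000 := ⟨_, rfl⟩
  obtain ⟨q, hq⟩ : ∃ q : ℝ, q = 463 / 1000 := ⟨_, rfl⟩
  have hp0 : 0 < p := by rw [hp]; norm_num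
  have hq0 : 0 < q := by rw [hq]; norm_num
  have hlp : Real.log p < 0 := Real.log_neg hp0 (by rw [hp]; norm_num)
  have hlq : Real.log q < 0 := Real.log_neg hq0 (by rw [hq]; norm_num)
  rw [← hp] at h1 h2
  rw [← hp, ← hq]
  -- `log e ≤ log n + log p + (e - p n) / (p n)`
  have h5 : Real.log e ≤ Real.log n + Real.log p + (e - p * n) / (p * n) := by
    have h6 : (e : ℝ) = (n * p) * (e / (p * n)) := by field_simp
    have h7 : Real.log e = Real.log n + Real.log p + Real.log (e / (p * n)) := by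
      conv_lhs => rw [h6]
      rw [Real.log_mul (by positivity) (by positivity), Real.log_mul (by positivity) (by positivity)]
    have h8 := Real.log_le_sub_one_of_pos (show (0 : ℝ) < e / (p * n) by positivity)
    have h9 : (e : ℝ) / (p * n) - 1 = (e - p * n) / (p * n) := by field_simp
    linarith
  have h6 : Real.log ((n : ℝ) - e) ≤ Real.log n + Real.log q := by
    rw [← Real.log_mul (by positivity) (by positivity)]
    refine Real.log_le_log hneR ?_
    have : p + q = 1 := by rw [hp, hq]; norm_num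
    nlinarith
  have h7 : (e : ℝ) * Real.log e ≤ e * (Real.log n + Real.log p) + 2 := by
    have h8 : (e : ℝ) * Real.log e ≤ e * (Real.log n + Real.log p + (e - p * n) / (p * n)) :=
      mul_le_mul_of_nonneg_left h5 heR.le
    have h9 : (e : ℝ) * ((e - p * n) / (p * n)) ≤ 2 := by
      rw [mul_div_assoc', div_le_iff₀ (by positivity)]
      have h10 : 1 ≤ p * n := by rw [hp]; linarith
      have h11 : 0 ≤ (e : ℝ) - p * n := by linarith
      have h12 : (e : ℝ) - p * n ≤ 1 := by linarith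
      nlinarith
    nlinarith
  have h8 : ((n : ℝ) - e) * Real.log ((n : ℝ) - e) ≤ ((n : ℝ) - e) * (Real.log n + Real.log q) :=
    mul_le_mul_of_nonneg_left h6 hneR.le
  have h9 : (e : ℝ) * Real.log p ≤ p * n * Real.log p := by nlinarith
  have h10 : ((n : ℝ) - e) * Real.log q ≤ (q * n - 1) * Real.log q := by
    have h11 : q * n - 1 ≤ (n : ℝ) - e := by
      have : p + q = 1 := by rw [hp, hq]; norm_num
      nlinarith
    nlinarith
  nlinarith

/-- the second part -/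
theorem num2_L : ∀ᶠ n : ℕ in atTop, ∃ L : ℕ,
    2 * (541 / 722 : ℝ) ^ (n / 2) ≤ (81 / 181) ^ L ∧
      (131 / 181 : ℝ) ^ L ≤ (81 / 181) ^ (n / 14) := by
  have h1 : Tendsto (fun m : ℕ => (101 / 100 : ℝ) ^ m) atTop atTop :=
    tendsto_pow_atTop_atTop_of_one_lt (by norm_num)
  have h2 : Tendsto (fun n : ℕ => n / 28) atTop atTop :=
    Nat.tendsto_div_const_atTop (by norm_num)
  filter_upwards [(h1.comp h2).eventually (eventually_ge_atTop 23)] with n hn
  obtain ⟨m, hm⟩ : ∃ m, m = n / 28 := ⟨_, rfl⟩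
  simp only [Function.comp, ← hm] at hn
  refine ⟨5 * m + 3, ?_, ?_⟩
  · have h3 : 14 * m ≤ n / 2 := by omega
    have h4 : (541 / 722 : ℝ) ^ (n / 2) ≤ (541 / 722 : ℝ) ^ (14 * m) :=
      pow_le_pow_of_le_one (by norm_num) (by norm_num) h3
    have h5 : (541 / 722 : ℝ) ^ (14 * m) * (101 / 100) ^ m ≤ (81 / 181 : ℝ) ^ (5 * m) := by
      rw [pow_mul, pow_mul, ← mul_pow]
      exact pow_le_pow_left₀ (by norm_num) (by norm_num) m
    have h6 : (541 / 722 : ℝ) ^ (14 * m) * 23 ≤ (541 / 722 : ℝ) ^ (14 * m) * (101 / 100) ^ m :=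
      mul_le_mul_of_nonneg_left hn (by positivity)
    have h7 : (2 : ℝ) ≤ 23 * (81 / 181) ^ 3 := by norm_num
    have h8 : (0 : ℝ) ≤ (541 / 722 : ℝ) ^ (14 * m) := by positivity
    calc 2 * (541 / 722 : ℝ) ^ (n / 2) ≤ 2 * (541 / 722 : ℝ) ^ (14 * m) := by linarith
      _ ≤ (23 * (81 / 181) ^ 3) * (541 / 722 : ℝ) ^ (14 * m) :=
          mul_le_mul_of_nonneg_right h7 h8
      _ = ((541 / 722 : ℝ) ^ (14 * m) * 23) * (81 / 181) ^ 3 := by ring
      _ ≤ (81 / 181 : ℝ) ^ (5 * m) * (81 / 181) ^ 3 :=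
          mul_le_mul_of_nonneg_right (h6.trans h5) (by positivity)
      _ = (81 / 181) ^ (5 * m + 3) := (pow_add _ _ _).symm
  · have h3 : n / 14 ≤ 2 * m + 1 := by omega
    have h4 : (81 / 181 : ℝ) ^ (2 * m + 1) ≤ (81 / 181 : ℝ) ^ (n / 14) :=
      pow_le_pow_of_le_one (by norm_num) (by norm_num) h3
    refine le_trans ?_ h4
    rw [pow_add, pow_add, pow_mul, pow_mul]
    refine mul_le_mul (pow_le_pow_left₀ (by norm_num) (by norm_num) m) (by norm_num)
      (by positivity) (by positivity)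

/-- MODULE NUM2 -/
theorem num_two : ∃ (K : ℕ) (z c : ℝ), 1 ≤ K ∧ 0 < z ∧ z ≤ 1 ∧ 0 < c ∧ ∀ᶠ n : ℕ in atTop,
    ⌈(537 / 1000 : ℝ) * (n : ℝ)⌉₊ ≤ n ∧
    (∃ L : ℕ, 2 * (1 - (1 + z ^ 2) / (2 * (1 + z) ^ 2)) ^ (n / 2) ≤ (z ^ 2 / (1 + z ^ 2)) ^ L ∧
       ((1 + z ^ 2 / (1 + z ^ 2)) / 2) ^ L ≤ (z ^ 2 / (1 + z ^ 2)) ^ (n / K)) ∧
    (4 * (1 + z) ^ n * (z ^ 2 / (1 + z ^ 2)) ^ (n / K) /
       (z ^ ⌈(537 / 1000 : ℝ) * (n : ℝ)⌉₊ * (n.choose ⌈(537 / 1000 : ℝ) * (n : ℝ)⌉₊ : ℝ))) ^ K *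
       (n.choose ⌈(537 / 1000 : ℝ) * (n : ℝ)⌉₊ : ℝ) ≤ Real.exp (-c * n) := by
  obtain ⟨S, hS⟩ : ∃ S, S = 14 * Real.log (19 / 10) + Real.log (81 / 181) -
    7518 / 1000 * Real.log (9 / 10) +
    13 * (537 / 1000 * Real.log (537 / 1000) + 463 / 1000 * Real.log (463 / 1000)) := ⟨_, rfl⟩
  have hS0 : S < 0 := hS ▸ num2_S
  refine ⟨14, 9 / 10, -S / 2, by norm_num, by norm_num, by norm_num, by linarith, ?_⟩
  have e1 : (1 : ℝ) - (1 + (9 / 10) ^ 2) / (2 * (1 + 9 / 10) ^ 2) = 541 / 722 := by norm_num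
  have e2 : ((9 / 10 : ℝ) ^ 2 / (1 + (9 / 10) ^ 2)) = 81 / 181 := by norm_num
  have e3 : ((1 : ℝ) + 81 / 181) / 2 = 131 / 181 := by norm_num
  have e4 : (1 : ℝ) + 9 / 10 = 19 / 10 := by norm_num
  rw [e1, e2, e3, e4]
  have hev1 := ev_log (14 * Real.log 4 - 13 * Real.log (81 / 181) - 14 * Real.log (9 / 10) -
    13 * Real.log (463 / 1000) + 26) 13 (show 0 < -S / 2 by linarith)
  filter_upwards [num2_L, hev1, eventually_gt_atTop 4] with n hn1 hn2 hn3
  have hnR : (4 : ℝ) < n := by exact_mod_cast hn3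
  have hnR0 : (0 : ℝ) < n := by linarith
  obtain ⟨e, he⟩ : ∃ e, e = ⌈(537 / 1000 : ℝ) * (n : ℝ)⌉₊ := ⟨_, rfl⟩
  have hen : e ≤ n := by
    rw [he, Nat.ceil_le]
    nlinarith
  have he1 : (537 / 1000 : ℝ) * (n : ℝ) ≤ e := by
    rw [he]
    exact Nat.le_ceil _
  have he2 : (e : ℝ) < (537 / 1000 : ℝ) * (n : ℝ) + 1 := by
    rw [he]
    exact Nat.ceil_lt_add_one (by positivity)
  have he0 : 0 < e := by
    have : (0 : ℝ) < e := lt_of_lt_of_le (by positivity) he1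
    exact_mod_cast this
  have hen' : e < n := by
    have : (e : ℝ) < n := by
      refine he2.trans_le ?_
      nlinarith
    exact_mod_cast this
  rw [← he]
  refine ⟨hen, hn1, ?_⟩
  have hC : (0 : ℝ) < (n.choose e : ℝ) := by exact_mod_cast Nat.choose_pos hen
  have hlC := num2_choose he0 hen' he1 he2 hn3
  obtain ⟨C, hCd⟩ : ∃ C : ℝ, C = (n.choose e : ℝ) := ⟨_, rfl⟩
  rw [← hCd] at hC hlC ⊢
  obtain ⟨y, hy⟩ : ∃ y : ℝ, y = 81 / 181 := ⟨_, rfl⟩
  have hy0 : 0 < y := by rw [hy]; norm_num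
  have hly : Real.log y < 0 := Real.log_neg hy0 (by rw [hy]; norm_num)
  obtain ⟨z, hz⟩ : ∃ z : ℝ, z = 9 / 10 := ⟨_, rfl⟩
  have hz0 : 0 < z := by rw [hz]; norm_num
  have hlz : Real.log z < 0 := Real.log_neg hz0 (by rw [hz]; norm_num)
  rw [← hy, ← hz] at hn2 hS
  rw [← hy, ← hz]
  have hX : 0 < 4 * (19 / 10 : ℝ) ^ n * y ^ (n / 14) / (z ^ e * C) := by positivity
  have hKm : (n : ℝ) - 13 ≤ 14 * ((n / 14 : ℕ) : ℝ) := by
    have h2 : n ≤ 14 * (n / 14) + 13 := by omega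
    have h3 : (n : ℝ) ≤ 14 * ((n / 14 : ℕ) : ℝ) + 13 := by exact_mod_cast h2
    linarith
  have key : Real.log ((4 * (19 / 10 : ℝ) ^ n * y ^ (n / 14) / (z ^ e * C)) ^ 14 * C) ≤
      -(-S / 2) * n := by
    rw [Real.log_mul (pow_pos hX _).ne' hC.ne', Real.log_pow, Real.log_div (by positivity)
      (by positivity), Real.log_mul (by positivity) (by positivity), Real.log_mul (by norm_num)
      (by positivity), Real.log_mul (by positivity) hC.ne', Real.log_pow, Real.log_pow,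
      Real.log_pow]
    obtain ⟨m, hm⟩ : ∃ m : ℝ, m = ((n / 14 : ℕ) : ℝ) := ⟨_, rfl⟩
    rw [← hm] at hKm ⊢
    have a1 : 14 * m * Real.log y ≤ (n - 13) * Real.log y := by nlinarith
    have a2 : -(14 * (e : ℝ) * Real.log z) ≤ -(14 * (537 / 1000 * n + 1) * Real.log z) := by
      nlinarith
    obtain ⟨l1, hl1⟩ : ∃ l1, l1 = Real.log (19 / 10) := ⟨_, rfl⟩
    obtain ⟨l2, hl2⟩ : ∃ l2, l2 = Real.log (537 / 1000) := ⟨_, rfl⟩
    obtain ⟨l3, hl3⟩ : ∃ l3, l3 = Real.log (463 / 1000) := ⟨_, rfl⟩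
    obtain ⟨l4, hl4⟩ : ∃ l4, l4 = Real.log ((n : ℝ) + 1) := ⟨_, rfl⟩
    obtain ⟨l5, hl5⟩ : ∃ l5, l5 = Real.log y := ⟨_, rfl⟩
    obtain ⟨l6, hl6⟩ : ∃ l6, l6 = Real.log z := ⟨_, rfl⟩
    obtain ⟨l7, hl7⟩ : ∃ l7, l7 = Real.log C := ⟨_, rfl⟩
    obtain ⟨l8, hl8⟩ : ∃ l8, l8 = Real.log (4 : ℝ) := ⟨_, rfl⟩
    rw [← hl1, ← hl2, ← hl3, ← hl5, ← hl6] at hS
    rw [← hl2, ← hl3, ← hl4, ← hl7] at hlC
    rw [← hl8, ← hl5, ← hl6, ← hl3, ← hl4] at hn2
    rw [← hl5] at a1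
    rw [← hl6] at a2
    rw [← hl8, ← hl1, ← hl5, ← hl6, ← hl7]
    have hSn : S * n = (14 * l1 + l5 - 7518 / 1000 * l6 +
      13 * (537 / 1000 * l2 + 463 / 1000 * l3)) * n := by rw [hS]
    push_cast
    linarith
  have h9 := Real.exp_le_exp.2 key
  rw [Real.exp_log (by positivity)] at h9
  exact h9

end H26IX
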