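import Pool.Agent.H26.IX.Special

/-!
# Bounds for the nullity of the special form and for the average nullity
-/

namespace H26IX

open Finset H67SR H67SR.SqA Module

set_option linter.unusedSectionVars false

variable {σ : Type*} [DecidableEq σ] [Fintype σ]

theorem geom_le {q : ℝ} (h0 : 0 ≤ q) (h1 : q < 1) (r : ℕ) :
    ∑ j ∈ Finset.range r, q ^ j ≤ 1 / (1 - q) := by
  have h2 : (∑ j ∈ Finset.range r, q ^ j) * (1 - q) = 1 - q ^ r := by
    have := geom_sum_mul_neg q r
    exact this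
  rw [le_div_iff₀ (by linarith), h2]
  have := pow_nonneg h0 r
  linarith

theorem geom2_le {q : ℝ} (h0 : 0 ≤ q) (h1 : q < 1) (r : ℕ) :
    ∑ j ∈ Finset.range r, ((j : ℝ) + 1) * q ^ j ≤ 1 / (1 - q) ^ 2 := by
  have h2 : (∑ j ∈ Finset.range r, ((j : ℝ) + 1) * q ^ j) * (1 - q) ^ 2 =
      1 - ((r : ℝ) + 1) * q ^ r + r * q ^ (r + 1) := by
    induction r with
    | zero => simp
    | succ r ih =>
      rw [Finset.sum_range_succ, add_mul, ih]
      push_cast
      ring
  rw [le_div_iff₀ (by nlinarith), h2]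
  have h3 := pow_nonneg h0 r
  have h4 : (r : ℝ) * q ^ (r + 1) ≤ ((r : ℝ) + 1) * q ^ r := by
    rw [pow_succ]
    have h5 : (r : ℝ) * (q ^ r * q) ≤ (r : ℝ) * (q ^ r * 1) :=
      mul_le_mul_of_nonneg_left (mul_le_mul_of_nonneg_left h1.le h3) (Nat.cast_nonneg _)
    nlinarith
  linarith

theorem pow_lin {ξ : ℝ} (h0 : 0 ≤ ξ) {d : ℕ} (h1 : 2 * d * ξ ≤ 1) :
    ∀ k ≤ d, (1 + ξ) ^ k ≤ 1 + 2 * k * ξ := by
  intro k
  induction k with
  | zero => intro _; simp
  | succ k ih =>
    intro hk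
    have h2 := ih (by omega)
    rw [pow_succ]
    have h3 : (1 + ξ) ^ k * (1 + ξ) ≤ (1 + 2 * k * ξ) * (1 + ξ) :=
      mul_le_mul_of_nonneg_right h2 (by linarith)
    have h4 : (k : ℝ) ≤ d := by exact_mod_cast (by omega : k ≤ d)
    have h5 : 2 * (k : ℝ) * ξ ≤ 1 := by
      have : 2 * (k : ℝ) * ξ ≤ 2 * d * ξ := by nlinarith
      linarith
    push_cast
    nlinarith

theorem card_Qb {T : ℕ → Finset σ} {r d : ℕ} (hdis : ∀ i < r, ∀ j < r, i ≠ j →
    Disjoint (T i) (T j)) (hT : ∀ j < r, (T j).card = d) {j : ℕ} (hj : j ≤ r) :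
    (Qb T j).card = j * d := by
  unfold Qb
  rw [Finset.card_biUnion]
  · rw [Finset.sum_congr rfl (fun i hi => hT i (by
      have := Finset.mem_range.1 hi; omega)), Finset.sum_const, Finset.card_range, smul_eq_mul]
  · intro i hi i' hi' hne
    have h1 := Finset.mem_range.1 hi
    have h2 := Finset.mem_range.1 hi'
    exact hdis i (by omega) i' (by omega) hne

theorem disj_Qb {T : ℕ → Finset σ} {r : ℕ} (hdis : ∀ i < r, ∀ j < r, i ≠ j →
    Disjoint (T i) (T j)) {j : ℕ} (hj : j < r) : Disjoint (Qb T j) (T j) := by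
  unfold Qb
  rw [Finset.disjoint_biUnion_left]
  intro i hi
  have h1 := Finset.mem_range.1 hi
  exact hdis i (by omega) j hj (by omega)

theorem nul_special {T : ℕ → Finset σ} {r d e : ℕ} (hd : 1 ≤ d)
    (hdis : ∀ i < r, ∀ j < r, i ≠ j → Disjoint (T i) (T j)) (hT : ∀ j < r, (T j).card = d)
    {τ : ℝ} (hτ : 0 ≤ τ) (hn : 0 < Fintype.card σ)
    (he : (e : ℝ) ≤ (Fintype.card σ : ℝ) / 2 + τ)
    (hbig : 16 * d * (τ + r * d) ≤ (Fintype.card σ : ℝ)) {q : ℝ} (hq : q = 1 - (1 / 3) ^ d) :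
    (nul (V e) (Dsp T r) : ℝ) ≤
      (1 / 2 + q ^ r / 2 + 8 * d ^ 2 * 9 ^ d * (τ + 1) / (Fintype.card σ : ℝ)) *
        ((Fintype.card σ).choose e : ℝ) := by
  set n : ℝ := (Fintype.card σ : ℝ) with hndef
  have hn0 : 0 < n := by rw [hndef]; exact_mod_cast hn
  have hd1 : (1 : ℝ) ≤ d := by exact_mod_cast hd
  have h3d : (0 : ℝ) < (1 / 3) ^ d := by positivity
  have h3d1 : ((1 : ℝ) / 3) ^ d ≤ 1 := pow_le_one₀ (by norm_num) (by norm_num)
  have hq0 : 0 ≤ q := by rw [hq]; linarith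
  have hq1 : q < 1 := by rw [hq]; linarith
  set N : ℝ := ((Fintype.card σ).choose e : ℝ) with hN
  have hN0 : 0 ≤ N := Nat.cast_nonneg _
  -- the data for each block
  set y : ℕ → ℝ := fun j => τ + ((j : ℝ) + 1) * d with hy
  have hy0 : ∀ j, 0 ≤ y j := by
    intro j; simp only [hy]; positivity
  have hyb : ∀ j < r, 16 * d * y j ≤ n := by
    intro j hj
    refine le_trans ?_ hbig
    have h1 : ((j : ℝ) + 1) ≤ r := by exact_mod_cast hj
    have h2 : y j ≤ τ + r * d := by
      simp only [hy]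
      have := mul_le_mul_of_nonneg_right h1 (by linarith : (0 : ℝ) ≤ d)
      linarith
    exact mul_le_mul_of_nonneg_left h2 (by positivity)
  set ρ : ℕ → ℝ := fun j => 1 + 8 * y j / n with hρ
  have hξ0 : ∀ j, 0 ≤ 8 * y j / n := fun j => div_nonneg (by linarith [hy0 j]) hn0.le
  have hρ1 : ∀ j, 1 ≤ ρ j := fun j => by simp only [hρ]; linarith [hξ0 j]
  have h16 : ∀ j < r, 16 * y j ≤ n := by
    intro j hj
    have h1 := hyb j hj
    have h2 : 16 * y j ≤ 16 * d * y j := by
      have := mul_le_mul_of_nonneg_right hd1 (hy0 j)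
      linarith
    linarith
  have hρ2 : ∀ j < r, ρ j ≤ 2 := by
    intro j hj
    simp only [hρ]
    have h1 : 8 * y j / n ≤ 1 := by
      rw [div_le_one hn0]
      have := h16 j hj
      linarith [hy0 j]
    linarith
  have hcard : ∀ j < r, ((Qb T j ∪ T j).card : ℝ) = ((j : ℝ) + 1) * d := by
    intro j hj
    rw [Finset.card_union_of_disjoint (disj_Qb hdis hj), card_Qb hdis hT hj.le, hT j hj]
    push_cast
    ring
  have hL : ∀ j < r, n / 2 - y j ≤ n - (Qb T j ∪ T j).card - e := by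
    intro j hj
    rw [hcard j hj]
    simp only [hy]
    linarith
  have hLpos : ∀ j < r, 0 < n / 2 - y j := by
    intro j hj
    have := h16 j hj
    linarith
  have hρL : ∀ j < r, (e : ℝ) ≤ ρ j * (n - (Qb T j ∪ T j).card - e) := by
    intro j hj
    have h1 : ρ j * (n / 2 - y j) ≤ ρ j * (n - (Qb T j ∪ T j).card - e) :=
      mul_le_mul_of_nonneg_left (hL j hj) (by linarith [hρ1 j])
    refine le_trans ?_ h1
    have h2 : ρ j * (n / 2 - y j) = n / 2 + 3 * y j - 8 * y j ^ 2 / n := by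
      simp only [hρ]
      field_simp
      ring
    rw [h2]
    have h3 : 8 * y j ^ 2 / n ≤ y j / 2 := by
      rw [div_le_iff₀ hn0]
      have := mul_le_mul_of_nonneg_left (h16 j hj) (hy0 j)
      nlinarith
    have h4 : τ ≤ y j := by
      simp only [hy]
      have : (0 : ℝ) ≤ ((j : ℝ) + 1) * d := by positivity
      linarith
    linarith [hy0 j]
  have hpow : ∀ j < r, ρ j ^ d ≤ 1 + 16 * d * y j / n := by
    intro j hj
    have h1 := pow_lin (hξ0 j) (d := d) (by
      have h2 : 2 * (d : ℝ) * (8 * y j / n) = 16 * d * y j / n := by ring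
      rw [h2, div_le_one hn0]
      exact hyb j hj) d le_rfl
    have h2 : 2 * (d : ℝ) * (8 * y j / n) = 16 * d * y j / n := by ring
    rw [h2] at h1
    exact h1
  set z : ℕ → ℝ := fun j => ((Z e T j).card : ℝ) with hz
  set E : ℕ → ℝ := fun j => ((G e (prp T j) (T j) ∅).card : ℝ) with hE
  set F : ℕ → ℝ := fun j => ((G e (prp T j) (T j) (T j)).card : ℝ) with hF
  have hE0 : ∀ j, 0 ≤ E j := fun j => Nat.cast_nonneg _
  have hF0 : ∀ j, 0 ≤ F j := fun j => Nat.cast_nonneg _
  have hz0 : ∀ j, 0 ≤ z j := fun j => Nat.cast_nonneg _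
  have hsucc : ∀ j < r, z j = z (j + 1) + E j + F j := by
    intro j hj
    have h1 : (T j).Nonempty := Finset.card_pos.1 (by rw [hT j hj]; omega)
    have h2 := Z_succ (e := e) h1
    simp only [hz, hE, hF]
    exact_mod_cast h2
  have hFE : ∀ j < r, F j ≤ (1 + 16 * d * y j / n) * E j := by
    intro j hj
    have h1 := G_le (e := e) (disj_Qb hdis hj) (prp_local T j) (by linarith [hρ1 j] : 0 ≤ ρ j)
      ((hLpos j hj).trans_le (hL j hj)) (hρL j hj) (T j) (Finset.Subset.refl _)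
    rw [hT j hj] at h1
    exact h1.trans (mul_le_mul_of_nonneg_right (hpow j hj) (hE0 j))
  have hzE : ∀ j < r, z j * (1 / 3) ^ d ≤ E j := by
    intro j hj
    have h1 := Z_le (e := e) (hT j hj) (disj_Qb hdis hj) (by linarith [hρ1 j] : 0 ≤ ρ j)
      ((hLpos j hj).trans_le (hL j hj)) (hρL j hj)
    have h2 : (1 + ρ j) ^ d ≤ 3 ^ d :=
      pow_le_pow_left₀ (by linarith [hρ1 j]) (by linarith [hρ2 j hj]) d
    have h3 : z j ≤ 3 ^ d * E j := h1.trans (mul_le_mul_of_nonneg_right h2 (hE0 j))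
    calc z j * (1 / 3) ^ d ≤ (3 ^ d * E j) * (1 / 3) ^ d :=
          mul_le_mul_of_nonneg_right h3 h3d.le
      _ = E j * (3 * (1 / 3)) ^ d := by rw [mul_pow]; ring
      _ = E j := by norm_num
  have hzq : ∀ j ≤ r, z j ≤ q ^ j * N := by
    intro j
    induction j with
    | zero =>
      intro _
      have h1 := Z_zero (σ := σ) e T
      simp only [hz, h1, hN, pow_zero, one_mul]
      exact le_rfl
    | succ j ih =>
      intro hj
      have h1 := ih (by omega)
      have h2 := hsucc j (by omega)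
      have h3 := hzE j (by omega)
      have h4 : z (j + 1) ≤ q * z j := by
        rw [hq]
        have := hF0 j
        nlinarith
      calc z (j + 1) ≤ q * z j := h4
        _ ≤ q * (q ^ j * N) := mul_le_mul_of_nonneg_left h1 hq0
        _ = q ^ (j + 1) * N := by ring
  have hEq : ∀ j < r, E j ≤ q ^ j * N := by
    intro j hj
    have h1 := hsucc j hj
    have h2 := hzq j hj.le
    have h3 := hz0 (j + 1)
    have h4 := hF0 j
    linarith
  have htel : ∀ j ≤ r, z 0 = z j + ∑ i ∈ Finset.range j, (E i + F i) := by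
    intro j
    induction j with
    | zero => intro _; simp
    | succ j ih =>
      intro hj
      have h1 := ih (by omega)
      have h2 := hsucc j (by omega)
      rw [Finset.sum_range_succ, h1, h2]
      ring
  have hz00 : z 0 = N := by
    simp only [hz, Z_zero, hN]
  have htelr := htel r le_rfl
  rw [hz00] at htelr
  have hnul : (nul (V e) (Dsp T r) : ℝ) ≤ ∑ j ∈ Finset.range r, F j + z r := by
    have h1 := nul_Dsp_le (e := e) hdis
    have h2 : (nul (V e) (Dsp T r) : ℝ) ≤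
      ((∑ j ∈ Finset.range r, (G e (prp T j) (T j) (T j)).card + (Z e T r).card : ℕ) : ℝ) := by
      exact_mod_cast h1
    push_cast at h2
    exact h2
  have hsum : ∑ j ∈ Finset.range r, F j ≤ ∑ j ∈ Finset.range r, E j +
      ∑ j ∈ Finset.range r, (16 * d / n) * (y j * q ^ j) * N := by
    rw [← Finset.sum_add_distrib]
    refine Finset.sum_le_sum fun j hj => ?_
    have hj' := Finset.mem_range.1 hj
    have h1 := hFE j hj'
    have h2 : 16 * d * y j / n * E j ≤ 16 * d * y j / n * (q ^ j * N) :=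
      mul_le_mul_of_nonneg_left (hEq j hj') (by
        have := hy0 j
        positivity)
    have h3 : 16 * d * y j / n * (q ^ j * N) = (16 * d / n) * (y j * q ^ j) * N := by ring
    linarith
  have hysum : ∑ j ∈ Finset.range r, y j * q ^ j ≤ d * 9 ^ d * (τ + 1) := by
    have h1 : ∑ j ∈ Finset.range r, y j * q ^ j =
        τ * ∑ j ∈ Finset.range r, q ^ j + d * ∑ j ∈ Finset.range r, ((j : ℝ) + 1) * q ^ j := by
      rw [Finset.mul_sum, Finset.mul_sum, ← Finset.sum_add_distrib]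
      refine Finset.sum_congr rfl fun j _ => ?_
      simp only [hy]
      ring
    rw [h1]
    have h2 := geom_le hq0 hq1 r
    have h3 := geom2_le hq0 hq1 r
    have h4 : 1 - q = (1 / 3) ^ d := by rw [hq]; ring
    rw [h4] at h2 h3
    have h5 : (1 : ℝ) / (1 / 3) ^ d = 3 ^ d := by
      rw [one_div_pow, one_div_one_div]
    have h6 : (1 : ℝ) / ((1 / 3) ^ d) ^ 2 = 9 ^ d := by
      rw [one_div_pow, one_div_pow, one_div_one_div, ← pow_mul, mul_comm, pow_mul]
      norm_num
    rw [h5] at h2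
    rw [h6] at h3
    have h7 : (3 : ℝ) ^ d ≤ 9 ^ d := pow_le_pow_left₀ (by norm_num) (by norm_num) d
    have h8 : (9 : ℝ) ^ d ≤ d * 9 ^ d := by
      have : (0 : ℝ) < 9 ^ d := by positivity
      nlinarith
    have h9 : τ * ∑ j ∈ Finset.range r, q ^ j ≤ τ * (d * 9 ^ d) :=
      mul_le_mul_of_nonneg_left (h2.trans (h7.trans h8)) hτ
    have h10 : (d : ℝ) * ∑ j ∈ Finset.range r, ((j : ℝ) + 1) * q ^ j ≤ d * 9 ^ d :=
      mul_le_mul_of_nonneg_left h3 (by linarith)
    linarith
  have hfin : ∑ j ∈ Finset.range r, (16 * d / n) * (y j * q ^ j) * N ≤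
      (16 * d ^ 2 * 9 ^ d * (τ + 1) / n) * N := by
    rw [← Finset.sum_mul, ← Finset.mul_sum]
    apply mul_le_mul_of_nonneg_right _ hN0
    have h1 : (16 * (d : ℝ) / n) * ∑ j ∈ Finset.range r, y j * q ^ j ≤
        (16 * d / n) * (d * 9 ^ d * (τ + 1)) :=
      mul_le_mul_of_nonneg_left hysum (by positivity)
    refine h1.trans (le_of_eq ?_)
    ring
  rw [Finset.sum_add_distrib] at htelr
  have hzr := hzq r le_rfl
  have e1 : (1 / 2 + q ^ r / 2 + 8 * d ^ 2 * 9 ^ d * (τ + 1) / n) * N =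
      (N + q ^ r * N + (16 * d ^ 2 * 9 ^ d * (τ + 1) / n) * N) / 2 := by ring
  rw [e1]
  linarith

theorem alg_step {k k' η w : ℝ}
    (h : k * (2 - (1 / 2 + η)) ≤ (1 / 2 + η) + (1 - (1 / 2 + η)) * k') (hη0 : 0 ≤ η)
    (hη : η < 1 / 2) (hk' : k' ≤ 1 / 2 + w) (hw0 : 0 ≤ w) : k ≤ 1 / 2 + η + w / 2 := by
  have h6 : k * (3 / 2 - η) ≤ 1 / 2 + η + (1 / 2 - η) * (1 / 2 + w) := by
    have h7 : (1 / 2 - η) * k' ≤ (1 / 2 - η) * (1 / 2 + w) :=
      mul_le_mul_of_nonneg_left hk' (by linarith)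
    have h8 : k * (2 - (1 / 2 + η)) = k * (3 / 2 - η) := by ring
    have h9 : 1 - (1 / 2 + η) = 1 / 2 - η := by ring
    rw [h8, h9] at h
    linarith
  by_contra hlt
  push Not at hlt
  have h8 : (1 / 2 + η + w / 2) * (3 / 2 - η) < k * (3 / 2 - η) :=
    mul_lt_mul_of_pos_right hlt (by linarith)
  have h9 : (1 / 2 + η + w / 2) * (3 / 2 - η) - (1 / 2 + η + (1 / 2 - η) * (1 / 2 + w)) =
    η * (1 / 2 - η) + w / 4 + η * w / 2 := by ring
  have h10 : 0 ≤ η * (1 / 2 - η) := mul_nonneg hη0 (by linarith)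
  have h11 : 0 ≤ η * w := mul_nonneg hη0 hw0
  linarith

/-- the average nullity is at most `1/2 + O((τ+1)/n)` in degree `≤ n/2 + τ` -/
theorem kap_bound {T : ℕ → Finset σ} {r d e J : ℕ} (hd : 1 ≤ d)
    (hdis : ∀ i < r, ∀ j < r, i ≠ j → Disjoint (T i) (T j)) (hT : ∀ j < r, (T j).card = d)
    {τ : ℝ} (hτ : 0 ≤ τ) (hn : 0 < Fintype.card σ)
    (he : (e : ℝ) ≤ (Fintype.card σ : ℝ) / 2 + τ)
    (hbig : 16 * d * (τ + J * d + r * d) ≤ (Fintype.card σ : ℝ)) {q : ℝ}
    (hq : q = 1 - (1 / 3) ^ d) :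
    kap σ d e ≤ 1 / 2 + q ^ r + (1 / 2) ^ J +
      32 * d ^ 3 * 9 ^ d * (τ + 1) / (Fintype.card σ : ℝ) := by
  set n : ℝ := (Fintype.card σ : ℝ) with hndef
  have hn0 : 0 < n := by rw [hndef]; exact_mod_cast hn
  have hd1 : (1 : ℝ) ≤ d := by exact_mod_cast hd
  have h3d : (0 : ℝ) < (1 / 3) ^ d := by positivity
  have h3d1 : ((1 : ℝ) / 3) ^ d ≤ 1 := pow_le_one₀ (by norm_num) (by norm_num)
  have hq0 : 0 ≤ q := by rw [hq]; linarith
  set C1 : ℝ := 8 * d ^ 2 * 9 ^ d with hC1
  have hC1pos : 0 < C1 := by positivity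
  set a : ℝ := q ^ r / 2 + C1 * (τ + 1) / n with ha
  set b : ℝ := C1 * d / n with hb
  have ha0 : 0 ≤ a := by positivity
  have hb0 : 0 ≤ b := by positivity
  have key : ∀ i ≤ J, kap σ d (e + (J - i) * d) ≤
      1 / 2 + 2 * (a + b * ((J - i : ℕ) : ℝ)) + 2 * b + (1 / 2) ^ i := by
    intro i
    induction i with
    | zero =>
      intro _
      have h1 := kap_le_one (σ := σ) d (e + (J - 0) * d)
      have h2 : 0 ≤ b * ((J - 0 : ℕ) : ℝ) := mul_nonneg hb0 (Nat.cast_nonneg _)
      rw [pow_zero]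
      linarith
    | succ i ih =>
      intro hi
      have h1 := ih (by omega)
      set m := J - (i + 1) with hm
      have hm1 : J - i = m + 1 := by omega
      rw [hm1] at h1
      have hmJ : m ≤ J := by omega
      have hmJ' : (m : ℝ) ≤ J := by exact_mod_cast hmJ
      have hrd : (0 : ℝ) ≤ r * d := by positivity
      have hmd : (m : ℝ) * d ≤ J * d := mul_le_mul_of_nonneg_right hmJ' (by linarith)
      have he' : ((e + m * d : ℕ) : ℝ) ≤ n / 2 + (τ + m * d) := by
        push_cast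
        linarith
      have hτ' : 0 ≤ τ + m * d := by positivity
      have hbig' : 16 * d * ((τ + m * d) + r * d) ≤ n := by
        refine le_trans ?_ hbig
        exact mul_le_mul_of_nonneg_left (by linarith) (by positivity)
      have h2 := nul_special (e := e + m * d) hd hdis hT hτ' hn he' hbig' hq
      have h3 : e + m * d + d ≤ Fintype.card σ := by
        have h4 : ((m : ℝ) + 1) ≤ J := by exact_mod_cast (by omega : m + 1 ≤ J)
        have h5 : ((m : ℝ) + 1) * d ≤ J * d := mul_le_mul_of_nonneg_right h4 (by linarith)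
        have h6 : τ + J * d + r * d ≤ n / 16 := by
          have h7 : 16 * (τ + J * d + r * d) ≤ 16 * d * (τ + J * d + r * d) := by
            have h8 : 0 ≤ τ + J * d + r * d := by positivity
            nlinarith
          linarith
        have h7 : ((e + m * d + d : ℕ) : ℝ) ≤ n := by
          push_cast
          nlinarith
        rw [hndef] at h7
        exact_mod_cast h7
      have h4 := kap_step hd h3 (Dsp_mem hT) h2
      set η : ℝ := q ^ r / 2 + 8 * d ^ 2 * 9 ^ d * (τ + m * d + 1) / n with hη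
      have hη0 : 0 ≤ η := by positivity
      have hηab : η = a + b * m := by
        simp only [hη, ha, hb, hC1]
        field_simp
        ring
      have hs : (1 / 2 + q ^ r / 2 + 8 * d ^ 2 * 9 ^ d * (τ + m * d + 1) / n : ℝ) =
        1 / 2 + η := by rw [hη]; ring
      rw [hs] at h4
      have hk1 := kap_le_one (σ := σ) d (e + m * d)
      have hk0 := kap_nonneg (σ := σ) d (e + m * d)
      have hmm : e + m * d + d = e + (m + 1) * d := by ring
      rw [hmm] at h4
      set k := kap σ d (e + m * d) with hk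
      set k' := kap σ d (e + (m + 1) * d) with hk'
      have hpi : (0 : ℝ) < (1 / 2) ^ i := by positivity
      have hpow : ((1 : ℝ) / 2) ^ (i + 1) = (1 / 2) ^ i / 2 := by rw [pow_succ]; ring
      rw [hpow]
      push_cast at h1
      by_cases hbigη : 1 / 2 ≤ η
      · have h5 : 0 ≤ b * m := mul_nonneg hb0 (Nat.cast_nonneg _)
        rw [hηab] at hbigη
        linarith
      · push Not at hbigη
        set w : ℝ := 2 * (a + b * ((m : ℝ) + 1)) + 2 * b + (1 / 2) ^ i with hw
        have hw0 : 0 ≤ w := by positivity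
        have h5 : k' ≤ 1 / 2 + w := by rw [hw]; linarith
        have h7 : k ≤ 1 / 2 + η + w / 2 := alg_step h4 hη0 hbigη h5 hw0
        rw [hηab] at h7
        rw [hw] at h7
        linarith
  have h1 := key J le_rfl
  rw [Nat.sub_self, zero_mul, add_zero, Nat.cast_zero, mul_zero, add_zero] at h1
  refine h1.trans ?_
  have h2 : 2 * a + 2 * b ≤ q ^ r + 32 * d ^ 3 * 9 ^ d * (τ + 1) / n := by
    have h3 : 2 * a + 2 * b = q ^ r + (16 * d ^ 2 * 9 ^ d * (τ + 1) + 16 * d ^ 3 * 9 ^ d) / n := by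
      simp only [ha, hb, hC1]
      field_simp
      ring
    rw [h3]
    have h4 : (16 * d ^ 2 * 9 ^ d * (τ + 1) + 16 * d ^ 3 * 9 ^ d) / n ≤
        32 * d ^ 3 * 9 ^ d * (τ + 1) / n := by
      apply div_le_div_of_nonneg_right _ hn0.le
      have h5 : (0 : ℝ) < 9 ^ d := by positivity
      have h6 : (d : ℝ) ^ 2 * 9 ^ d * (τ + 1) ≤ d ^ 3 * 9 ^ d * (τ + 1) := by
        apply mul_le_mul_of_nonneg_right _ (by linarith)
        apply mul_le_mul_of_nonneg_right _ h5.le
        exact pow_le_pow_right₀ hd1 (by norm_num)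
      have h7 : (d : ℝ) ^ 3 * 9 ^ d ≤ d ^ 3 * 9 ^ d * (τ + 1) := by
        have : (0 : ℝ) ≤ d ^ 3 * 9 ^ d := by positivity
        nlinarith
      linarith
    linarith
  linarith

end H26IX
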