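import Pool.Agent.H26.IX.Basic

/-!
# The slope lemma

For every subspace `W` of the degree `e` part, the average dimension of the kernel on `W` of
multiplication by a form of degree `d` is at most `dim W / dim V_e` times the value for `W = V_e`.
-/

namespace H26IX

open Finset H67SR H67SR.SqA Module

set_option linter.unusedSectionVars false

variable {σ : Type*} [DecidableEq σ] [Fintype σ]

theorem mono_mul_self (j : σ) : (mono {j} : SqA σ) * mono {j} = 0 :=
  mono_sq (Finset.singleton_nonempty j)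

theorem iota_single {i j : σ} (h : i ≠ j) : iota i (mono {j} : SqA σ) = 0 := by
  ext T
  rw [iota_apply, zero_apply]
  split_ifs with h1
  · rfl
  · rw [mono_apply, if_neg]
    intro h2
    have : i ∈ ({j} : Finset σ) := by rw [← h2]; exact Finset.mem_insert_self _ _
    exact h (Finset.mem_singleton.1 this)

theorem iota_smul (i : σ) (c : ZMod 2) (f : SqA σ) : iota i (c • f) = c • iota i f := by
  ext T
  rw [iota_apply, smul_apply', smul_apply', iota_apply]
  split_ifs <;> simp

/-- the transvection `x_i ↦ x_i + x_j` -/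
def tv (i j : σ) : SqA σ →ₗ[ZMod 2] SqA σ where
  toFun f := f + mono {j} * iota i f
  map_add' f g := by rw [map_add, mul_add]; abel
  map_smul' c f := by
    rw [iota_smul, RingHom.id_apply, smul_add]
    congr 1
    exact (mL (mono {j})).map_smul c (iota i f)

theorem tv_apply (i j : σ) (f : SqA σ) : tv i j f = f + mono {j} * iota i f := rfl

theorem tv_mul (i j : σ) (f g : SqA σ) : tv i j (f * g) = tv i j f * tv i j g := by
  rw [tv_apply, tv_apply, tv_apply, iota_mul]
  have h := mono_mul_self j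
  have h1 : (f + mono {j} * iota i f) * (g + mono {j} * iota i g) =
      f * g + mono {j} * (iota i f * g + f * iota i g) +
        (mono {j} * mono {j}) * (iota i f * iota i g) := by ring
  rw [h1, h, zero_mul, add_zero]

theorem tv_invol {i j : σ} (h : i ≠ j) : Function.Involutive (tv i j) := by
  intro f
  rw [tv_apply i j (tv i j f), tv_apply, map_add, iota_mul, iota_single h, zero_mul, zero_add]
  have h1 : f + mono {j} * iota i f + mono {j} * (iota i f + mono {j} * iota i (iota i f)) =
      f + (mono {j} * iota i f + mono {j} * iota i f) +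
        (mono {j} * mono {j}) * iota i (iota i f) := by ring
  rw [h1, mono_mul_self, add_self, zero_mul, add_zero, add_zero]

theorem dd_apply {i j : σ} (h : i ≠ j) (f : SqA σ) (T : Finset σ) :
    (mono {j} * iota i f) T = if j ∈ T ∧ i ∉ T then f (insert i (T.erase j)) else 0 := by
  rw [mono_mul_apply, iota_apply]
  by_cases h1 : j ∈ T
  · have h2 : T \ {j} = T.erase j := Finset.sdiff_singleton_eq_erase j T
    rw [if_pos (Finset.singleton_subset_iff.2 h1), h2]
    by_cases h3 : i ∈ T
    · rw [if_pos (Finset.mem_erase.2 ⟨h, h3⟩), if_neg]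
      exact fun h4 => h4.2 h3
    · rw [if_neg (fun h4 => h3 (Finset.mem_of_mem_erase h4)), if_pos ⟨h1, h3⟩]
  · rw [if_neg (fun h4 => h1 (Finset.singleton_subset_iff.1 h4)), if_neg (fun h4 => h1 h4.1)]

theorem card_swap {i j : σ} {T : Finset σ} (h1 : j ∈ T) (h2 : i ∉ T) :
    (insert i (T.erase j)).card = T.card := by
  rw [Finset.card_insert_of_notMem (fun h => h2 (Finset.mem_of_mem_erase h)),
    Finset.card_erase_of_mem h1]
  have : 0 < T.card := Finset.card_pos.2 ⟨j, h1⟩
  omega

theorem dd_mem {i j : σ} (h : i ≠ j) {k : ℕ} {f : SqA σ} (hf : f ∈ V k) :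
    mono {j} * iota i f ∈ V k := by
  intro T hT
  rw [dd_apply h] at hT
  by_cases h1 : j ∈ T ∧ i ∉ T
  · rw [if_pos h1] at hT
    rw [← hf _ hT, card_swap h1.1 h1.2]
  · rw [if_neg h1] at hT
    exact absurd rfl hT

theorem tv_mem {i j : σ} (h : i ≠ j) {k : ℕ} {f : SqA σ} (hf : f ∈ V k) : tv i j f ∈ V k :=
  (V k).add_mem hf (dd_mem h hf)

/-- the transvection as a linear equivalence -/
def tve {i j : σ} (h : i ≠ j) : SqA σ ≃ₗ[ZMod 2] SqA σ :=
  LinearEquiv.ofInvolutive (tv i j) (tv_invol h)

theorem tve_apply {i j : σ} (h : i ≠ j) (f : SqA σ) : tve h f = tv i j f := rfl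

theorem finrank_tv {i j : σ} (h : i ≠ j) (W : Submodule (ZMod 2) (SqA σ)) :
    finrank (ZMod 2) ↥(W.map (tv i j)) = finrank (ZMod 2) W :=
  LinearEquiv.finrank_map_eq (tve h) W

theorem nul_tv {i j : σ} (h : i ≠ j) (W : Submodule (ZMod 2) (SqA σ)) (g : SqA σ) :
    nul (W.map (tv i j)) g = nul W (tv i j g) := by
  unfold nul
  have h1 : W.map (tv i j) ⊓ LinearMap.ker (mL g) =
      (W ⊓ LinearMap.ker (mL (tv i j g))).map (tv i j) := by
    ext x
    simp only [Submodule.mem_inf, Submodule.mem_map, LinearMap.mem_ker, mL_apply]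
    constructor
    · rintro ⟨⟨w, hw, rfl⟩, h2⟩
      refine ⟨w, ⟨hw, ?_⟩, rfl⟩
      have h3 := congrArg (tv i j) h2
      rw [tv_mul, tv_invol h, map_zero] at h3
      exact h3
    · rintro ⟨w, ⟨hw, h2⟩, rfl⟩
      refine ⟨⟨w, hw, rfl⟩, ?_⟩
      have h3 := congrArg (tv i j) h2
      rw [tv_mul, tv_invol h, map_zero] at h3
      exact h3
  rw [h1, finrank_tv h]

theorem S_tv {i j : σ} (h : i ≠ j) (d : ℕ) (W : Submodule (ZMod 2) (SqA σ)) :
    S d (W.map (tv i j)) = S d W := by
  unfold S
  refine Finset.sum_nbij' (tv i j) (tv i j) ?_ ?_ ?_ ?_ ?_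
  · intro g hg; exact mem_Vf.2 (tv_mem h (mem_Vf.1 hg))
  · intro g hg; exact mem_Vf.2 (tv_mem h (mem_Vf.1 hg))
  · intro g _; exact tv_invol h g
  · intro g _; exact tv_invol h g
  · intro g _; exact nul_tv h W g

/-! ### irreducibility -/

theorem eq_one_of_ne {a : ZMod 2} (h : a ≠ 0) : a = 1 := by
  revert h a; decide

open Classical in
/-- the support of an element -/
noncomputable def supp (f : SqA σ) : Finset (Finset σ) := Finset.univ.filter (fun T => f T ≠ 0)

theorem mem_supp {f : SqA σ} {T : Finset σ} : T ∈ supp f ↔ f T ≠ 0 := by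
  simp only [supp, Finset.mem_filter, Finset.mem_univ, true_and]

theorem sum_mono (f : SqA σ) : f = ∑ T ∈ supp f, mono T := by
  ext T
  rw [SqA.sum_apply]
  by_cases h : f T = 0
  · rw [h]
    symm
    apply Finset.sum_eq_zero
    intro U hU
    rw [mono_apply, if_neg]
    rintro rfl
    exact (mem_supp.1 hU) h
  · rw [Finset.sum_eq_single T]
    · rw [mono_apply, if_pos rfl]
      exact eq_one_of_ne h
    · intro U _ hU
      rw [mono_apply, if_neg (Ne.symm hU)]
    · intro h1
      exact absurd (mem_supp.2 h) h1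

theorem dd_mono {i j : σ} (h : i ≠ j) {A : Finset σ} (hi : i ∈ A) (hj : j ∉ A) :
    mono {j} * iota i (mono A) = (mono (insert j (A.erase i)) : SqA σ) := by
  ext T
  rw [dd_apply h, mono_apply, mono_apply]
  by_cases h1 : T = insert j (A.erase i)
  · subst h1
    have h2 : j ∈ insert j (A.erase i) ∧ i ∉ insert j (A.erase i) := by
      refine ⟨Finset.mem_insert_self _ _, ?_⟩
      simp [h]
    rw [if_pos h2, if_pos rfl, if_pos]
    rw [Finset.erase_insert (fun h3 => hj (Finset.mem_of_mem_erase h3)), Finset.insert_erase hi]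
  · rw [if_neg h1]
    by_cases h2 : j ∈ T ∧ i ∉ T
    · rw [if_pos h2, if_neg]
      rintro rfl
      apply h1
      rw [Finset.erase_insert (fun h3 => h2.2 (Finset.mem_of_mem_erase h3)),
        Finset.insert_erase h2.1]
    · rw [if_neg h2]

theorem mono_all {W : Submodule (ZMod 2) (SqA σ)}
    (hs : ∀ i j : σ, i ≠ j → ∀ f ∈ W, mono {j} * iota i f ∈ W) :
    ∀ (m : ℕ) (A B : Finset σ), A.card = B.card → (B \ A).card = m → mono A ∈ W →
      mono B ∈ W := by
  intro m
  induction m with
  | zero =>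
    intro A B hc h0 hA
    have h1 : B ⊆ A := by
      rw [← Finset.sdiff_eq_empty_iff_subset]
      exact Finset.card_eq_zero.1 h0
    have h2 : B = A := Finset.eq_of_subset_of_card_le h1 hc.le
    rw [h2]; exact hA
  | succ m ih =>
    intro A B hc h0 hA
    obtain ⟨j, hj⟩ : (B \ A).Nonempty := Finset.card_pos.1 (by omega)
    have hj' := Finset.mem_sdiff.1 hj
    have h3 : ¬ A ⊆ B := by
      intro h4
      have : A = B := Finset.eq_of_subset_of_card_le h4 hc.ge
      exact hj'.2 (this ▸ hj'.1)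
    obtain ⟨i, hiA, hiB⟩ := Finset.not_subset.1 h3
    have hij : i ≠ j := by
      rintro rfl
      exact hiB hj'.1
    have h5 := hs i j hij _ hA
    rw [dd_mono hij hiA hj'.2] at h5
    refine ih _ B ?_ ?_ h5
    · rw [← hc]
      exact card_swap hiA hj'.2
    · have h6 : B \ insert j (A.erase i) = (B \ A).erase j := by
        ext x
        simp only [Finset.mem_sdiff, Finset.mem_insert, Finset.mem_erase, not_or, not_and]
        constructor
        · rintro ⟨h7, h8, h9⟩
          refine ⟨h8, h7, fun h10 => ?_⟩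
          by_cases h11 : x = i
          · subst h11; exact hiB h7
          · exact h9 h11 h10
        · rintro ⟨h7, h8, h9⟩
          exact ⟨h8, h7, fun _ => h9⟩
      rw [h6, Finset.card_erase_of_mem hj, h0]
      rfl

theorem exists_mono {W : Submodule (ZMod 2) (SqA σ)} {e : ℕ} (hW : W ≤ V e) (hne : W ≠ ⊥)
    (hs : ∀ i j : σ, i ≠ j → ∀ f ∈ W, mono {j} * iota i f ∈ W) :
    ∃ A : Finset σ, A.card = e ∧ mono A ∈ W := by
  classical
  obtain ⟨f0, hf0, hf0'⟩ := W.exists_mem_ne_zero_of_ne_bot hne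
  -- minimal support
  have hex : ∃ m : ℕ, ∃ f ∈ W, f ≠ 0 ∧ (supp f).card = m :=
    ⟨_, f0, hf0, hf0', rfl⟩
  obtain ⟨f, hfW, hf1, hf2⟩ := Nat.find_spec hex
  have hmin : ∀ g ∈ W, g ≠ 0 →
      (supp f).card ≤
        (supp g).card := by
    intro g hg hg'
    rw [hf2]
    exact Nat.find_min' hex ⟨g, hg, hg', rfl⟩
  obtain ⟨A, hA⟩ : ∃ A, f A ≠ 0 := by
    by_contra h
    push Not at h
    exact hf1 (SqA.ext h)
  have huniq : ∀ A', f A' ≠ 0 → A' = A := by
    intro A' hA'
    by_contra hAA
    have hcA := hW hfW A hA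
    have hcA' := hW hfW A' hA'
    have h3 : ¬ A ⊆ A' := by
      intro h4
      exact hAA (Finset.eq_of_subset_of_card_le h4 (by omega)).symm
    have h3' : ¬ A' ⊆ A := by
      intro h4
      exact hAA (Finset.eq_of_subset_of_card_le h4 (by omega))
    obtain ⟨i, hi, hi'⟩ := Finset.not_subset.1 h3
    obtain ⟨j, hj, hj'⟩ := Finset.not_subset.1 h3'
    have hij : i ≠ j := by
      rintro rfl
      exact hi' hj
    set g := mono {j} * iota i f with hg
    have hgW : g ∈ W := hs i j hij f hfW
    have hgne : g ≠ 0 := by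
      intro h0
      have h5 : g (insert j (A.erase i)) = f A := by
        rw [hg, dd_apply hij, if_pos, Finset.erase_insert
          (fun h3 => hj' (Finset.mem_of_mem_erase h3)), Finset.insert_erase hi]
        refine ⟨Finset.mem_insert_self _ _, ?_⟩
        simp [hij]
      rw [h0, zero_apply] at h5
      exact hA h5.symm
    have hle := hmin g hgW hgne
    have hlt : (supp g).card <
        (supp f).card := by
      have h6 : (supp g).card ≤
          ((supp f).erase A').card := by
        apply Finset.card_le_card_of_injOn (fun T => insert i (T.erase j))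
        · intro T hT
          have hT' : g T ≠ 0 := mem_supp.1 hT
          rw [hg, dd_apply hij] at hT'
          by_cases h7 : j ∈ T ∧ i ∉ T
          · rw [if_pos h7] at hT'
            refine Finset.mem_coe.2 (Finset.mem_erase.2 ⟨?_, mem_supp.2 hT'⟩)
            rintro h8
            exact hi' (h8 ▸ Finset.mem_insert_self _ _)
          · rw [if_neg h7] at hT'
            exact absurd rfl hT'
        · intro T hT T' hT' heq
          have hT1 : g T ≠ 0 := mem_supp.1 hT
          have hT2 : g T' ≠ 0 := mem_supp.1 hT'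
          rw [hg, dd_apply hij] at hT1 hT2
          have h7 : j ∈ T ∧ i ∉ T := by
            by_contra h; rw [if_neg h] at hT1; exact hT1 rfl
          have h8 : j ∈ T' ∧ i ∉ T' := by
            by_contra h; rw [if_neg h] at hT2; exact hT2 rfl
          have h9 : T.erase j = T'.erase j := by
            have h10 := congrArg (fun U => Finset.erase U i) heq
            simp only at h10
            rwa [Finset.erase_insert (fun h3 => h7.2 (Finset.mem_of_mem_erase h3)),
              Finset.erase_insert (fun h3 => h8.2 (Finset.mem_of_mem_erase h3))] at h10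
          rw [← Finset.insert_erase h7.1, ← Finset.insert_erase h8.1, h9]
      have h7 : A' ∈ supp f :=
        mem_supp.2 hA'
      have h8 := Finset.card_erase_lt_of_mem h7
      omega
    omega
  refine ⟨A, hW hfW A hA, ?_⟩
  have h1 : f = mono A := by
    ext T
    rw [mono_apply]
    by_cases h : T = A
    · rw [if_pos h, h]; exact eq_one_of_ne hA
    · rw [if_neg h]
      by_contra h'
      exact h (huniq T h')
  rw [← h1]; exact hfW

theorem irred {W : Submodule (ZMod 2) (SqA σ)} {e : ℕ} (hW : W ≤ V e) (hne : W ≠ ⊥)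
    (hs : ∀ i j : σ, i ≠ j → W.map (tv i j) ≤ W) : W = V e := by
  have hs' : ∀ i j : σ, i ≠ j → ∀ f ∈ W, mono {j} * iota i f ∈ W := by
    intro i j hij f hf
    have h1 := hs i j hij (Submodule.mem_map_of_mem hf)
    rw [tv_apply] at h1
    have h2 := W.sub_mem h1 hf
    rwa [add_sub_cancel_left] at h2
  obtain ⟨A, hA, hAW⟩ := exists_mono hW hne hs'
  apply le_antisymm hW
  intro f hf
  rw [sum_mono f]
  apply Submodule.sum_mem
  intro T hT
  have h1 := hf T (mem_supp.1 hT)
  exact mono_all hs' _ A T (by omega) rfl hAW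

/-! ### the slope lemma -/

theorem slope (d e : ℕ) (W : Submodule (ZMod 2) (SqA σ)) (hW : W ≤ V e) :
    S d W * finrank (ZMod 2) (V e : Submodule (ZMod 2) (SqA σ)) ≤
      S d (V e : Submodule (ZMod 2) (SqA σ)) * finrank (ZMod 2) W := by
  classical
  set N := finrank (ZMod 2) (V e : Submodule (ZMod 2) (SqA σ)) with hN
  set φ : Submodule (ZMod 2) (SqA σ) → ℤ := fun U =>
    (N : ℤ) * S d U - (S d (V e : Submodule (ZMod 2) (SqA σ)) : ℤ) * finrank (ZMod 2) U with hφ
  have hsup : ∀ U U' : Submodule (ZMod 2) (SqA σ), φ U + φ U' ≤ φ (U ⊔ U') + φ (U ⊓ U') := by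
    intro U U'
    have h1 := S_super d U U'
    have h2 := Submodule.finrank_sup_add_finrank_inf_eq U U'
    have h3 : ((finrank (ZMod 2) ↥(U ⊔ U') : ℤ) + finrank (ZMod 2) ↥(U ⊓ U')) =
        finrank (ZMod 2) U + finrank (ZMod 2) U' := by exact_mod_cast h2
    have h4 : (S d U : ℤ) + S d U' ≤ S d (U ⊔ U') + S d (U ⊓ U') := by exact_mod_cast h1
    have h5 : (0 : ℤ) ≤ N := Int.natCast_nonneg _
    simp only [hφ]
    have h6 := mul_le_mul_of_nonneg_left h4 h5
    have h7 : (S d (V e : Submodule (ZMod 2) (SqA σ)) : ℤ) *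
        ((finrank (ZMod 2) ↥(U ⊔ U') : ℤ) + finrank (ZMod 2) ↥(U ⊓ U')) =
        (S d (V e : Submodule (ZMod 2) (SqA σ)) : ℤ) *
        (finrank (ZMod 2) U + finrank (ZMod 2) U') := by rw [h3]
    linarith [h6, h7, mul_add (N : ℤ) (S d U : ℤ) (S d U'), mul_add (N : ℤ) (S d (U ⊔ U') : ℤ)
      (S d (U ⊓ U')), mul_add (S d (V e : Submodule (ZMod 2) (SqA σ)) : ℤ)
      (finrank (ZMod 2) ↥(U ⊔ U') : ℤ) (finrank (ZMod 2) ↥(U ⊓ U')),
      mul_add (S d (V e : Submodule (ZMod 2) (SqA σ)) : ℤ) (finrank (ZMod 2) U : ℤ)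
      (finrank (ZMod 2) U')]
  -- it suffices to show `φ W ≤ 0`
  suffices hmain : φ W ≤ 0 by
    simp only [hφ] at hmain
    have : (S d W : ℤ) * N ≤ (S d (V e : Submodule (ZMod 2) (SqA σ)) : ℤ) *
      finrank (ZMod 2) W := by linarith [mul_comm (N : ℤ) (S d W : ℤ)]
    exact_mod_cast this
  -- a maximiser
  haveI : Finite (Submodule (ZMod 2) (SqA σ)) :=
    Finite.of_injective (fun U : Submodule (ZMod 2) (SqA σ) => (U : Set (SqA σ)))
      SetLike.coe_injective
  set Φ : Submodule (ZMod 2) (SqA σ) → ℤ := fun U =>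
    φ U * ((N : ℤ) + 1) + finrank (ZMod 2) U with hΦ
  obtain ⟨M, hM, hmax⟩ := Set.exists_max_image {U : Submodule (ZMod 2) (SqA σ) | U ≤ V e} Φ
    (Set.toFinite _) ⟨W, hW⟩
  have hfr : ∀ U : Submodule (ZMod 2) (SqA σ), U ≤ V e → finrank (ZMod 2) U ≤ N :=
    fun U hU => Submodule.finrank_mono hU
  have hφmax : ∀ U : Submodule (ZMod 2) (SqA σ), U ≤ V e → φ U ≤ φ M := by
    intro U hU
    by_contra hlt
    push Not at hlt
    have h1 := hmax U hU
    simp only [hΦ] at h1
    have h2 : (finrank (ZMod 2) M : ℤ) ≤ N := by exact_mod_cast hfr M hM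
    have h3 : (0 : ℤ) ≤ finrank (ZMod 2) U := Int.natCast_nonneg _
    have h4 : (0 : ℤ) ≤ N := Int.natCast_nonneg _
    nlinarith
  refine (hφmax W hW).trans ?_
  by_contra hpos
  push Not at hpos
  have hne : M ≠ ⊥ := by
    rintro rfl
    simp only [hφ, S_bot, finrank_bot] at hpos
    simp at hpos
  have hst : ∀ i j : σ, i ≠ j → M.map (tv i j) ≤ M := by
    intro i j hij
    have h1 : M.map (tv i j) ≤ V e := by
      rintro _ ⟨f, hf, rfl⟩
      exact tv_mem hij (hM hf)
    have h2 : φ (M.map (tv i j)) = φ M := by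
      simp only [hφ]
      rw [S_tv hij, finrank_tv hij]
    have h3 := hsup M (M.map (tv i j))
    have h4 := hφmax _ (inf_le_left.trans hM : M ⊓ M.map (tv i j) ≤ V e)
    have h5 := hφmax _ (sup_le hM h1)
    have h6 : φ (M ⊔ M.map (tv i j)) = φ M := by linarith
    have h7 := hmax _ (sup_le hM h1)
    simp only [hΦ] at h7
    rw [h6] at h7
    have h8 : finrank (ZMod 2) ↥(M ⊔ M.map (tv i j)) ≤ finrank (ZMod 2) M := by
      have : (finrank (ZMod 2) ↥(M ⊔ M.map (tv i j)) : ℤ) ≤ finrank (ZMod 2) M := by linarith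
      exact_mod_cast this
    have h9 : M = M ⊔ M.map (tv i j) := Submodule.eq_of_le_of_finrank_le le_sup_left h8
    exact (le_sup_right : M.map (tv i j) ≤ M ⊔ M.map (tv i j)).trans h9.ge
  have hVe := irred hM hne hst
  rw [hVe] at hpos
  simp only [hφ] at hpos
  rw [← hN] at hpos
  linarith [mul_comm (N : ℤ) (S d (V e : Submodule (ZMod 2) (SqA σ)) : ℤ)]

end H26IX
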