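import Pool.Agent.H26.IX.Tuple

/-!
# The slope lemma for tuples of forms
-/

namespace H26IX

open Finset H67SR H67SR.SqA Module

set_option linter.unusedSectionVars false

variable {σ : Type*} [DecidableEq σ] [Fintype σ]

/-- sum over all `m`-tuples of forms of degree `d` of the dimension of the common kernel -/
noncomputable def SS (d : ℕ) : ℕ → Submodule (ZMod 2) (SqA σ) → ℕ
  | 0, W => finrank (ZMod 2) W
  | m + 1, W => ∑ g ∈ Vf d, SS d m (W ⊓ LinearMap.ker (mL g))

theorem SS_mono (d m : ℕ) : ∀ {W W' : Submodule (ZMod 2) (SqA σ)}, W ≤ W' →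
    SS d m W ≤ SS d m W' := by
  induction m with
  | zero => intro W W' h; exact Submodule.finrank_mono h
  | succ m ih =>
    intro W W' h
    exact Finset.sum_le_sum fun g _ => ih (inf_le_inf_right _ h)

theorem SS_super (d m : ℕ) : ∀ W W' : Submodule (ZMod 2) (SqA σ),
    SS d m W + SS d m W' ≤ SS d m (W ⊔ W') + SS d m (W ⊓ W') := by
  induction m with
  | zero =>
    intro W W'
    have h := Submodule.finrank_sup_add_finrank_inf_eq W W'
    change finrank (ZMod 2) W + finrank (ZMod 2) W' ≤ finrank (ZMod 2) ↥(W ⊔ W') +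
      finrank (ZMod 2) ↥(W ⊓ W')
    omega
  | succ m ih =>
    intro W W'
    change ∑ g ∈ Vf d, SS d m (W ⊓ LinearMap.ker (mL g)) +
      ∑ g ∈ Vf d, SS d m (W' ⊓ LinearMap.ker (mL g)) ≤
      ∑ g ∈ Vf d, SS d m ((W ⊔ W') ⊓ LinearMap.ker (mL g)) +
      ∑ g ∈ Vf d, SS d m ((W ⊓ W') ⊓ LinearMap.ker (mL g))
    rw [← Finset.sum_add_distrib, ← Finset.sum_add_distrib]
    refine Finset.sum_le_sum fun g _ => ?_
    refine (ih _ _).trans (add_le_add ?_ ?_)
    · apply SS_mono
      apply sup_le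
      · exact inf_le_inf_right _ le_sup_left
      · exact inf_le_inf_right _ le_sup_right
    · apply le_of_eq
      rw [inf_inf_inf_comm, inf_idem]

theorem SS_bot (d m : ℕ) : SS d m (⊥ : Submodule (ZMod 2) (SqA σ)) = 0 := by
  induction m with
  | zero => exact finrank_bot _ _
  | succ m ih =>
    change ∑ g ∈ Vf d, SS d m (⊥ ⊓ LinearMap.ker (mL g)) = 0
    apply Finset.sum_eq_zero
    intro g _
    rw [bot_inf_eq, ih]

theorem map_inf_ker {i j : σ} (h : i ≠ j) (W : Submodule (ZMod 2) (SqA σ)) (g : SqA σ) :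
    W.map (tv i j) ⊓ LinearMap.ker (mL g) =
      (W ⊓ LinearMap.ker (mL (tv i j g))).map (tv i j) := by
  ext x
  simp only [Submodule.mem_inf, Submodule.mem_map, LinearMap.mem_ker, mL_apply]
  constructor
  · rintro ⟨⟨w, hw, rfl⟩, h2⟩
    refine ⟨w, ⟨hw, ?_⟩, rfl⟩
    have h3 := congrArg (tv i j) h2
    rw [tv_mul, tv_invol h, map_zero] at h3
    exact h3
  · rintro ⟨w, ⟨hw, h2⟩, rfl⟩
    refine ⟨⟨w, hw, rfl⟩, ?_⟩
    have h3 := congrArg (tv i j) h2
    rw [tv_mul, tv_invol h, map_zero] at h3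
    exact h3

theorem SS_tv {i j : σ} (h : i ≠ j) (d m : ℕ) : ∀ W : Submodule (ZMod 2) (SqA σ),
    SS d m (W.map (tv i j)) = SS d m W := by
  induction m with
  | zero => intro W; exact finrank_tv h W
  | succ m ih =>
    intro W
    change ∑ g ∈ Vf d, SS d m (W.map (tv i j) ⊓ LinearMap.ker (mL g)) =
      ∑ g ∈ Vf d, SS d m (W ⊓ LinearMap.ker (mL g))
    refine Finset.sum_nbij' (tv i j) (tv i j) ?_ ?_ ?_ ?_ ?_
    · intro g hg; exact mem_Vf.2 (tv_mem h (mem_Vf.1 hg))
    · intro g hg; exact mem_Vf.2 (tv_mem h (mem_Vf.1 hg))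
    · intro g _; exact tv_invol h g
    · intro g _; exact tv_invol h g
    · intro g _
      rw [map_inf_ker h, ih]

theorem slopeM (d m e : ℕ) (W : Submodule (ZMod 2) (SqA σ)) (hW : W ≤ V e) :
    SS d m W * finrank (ZMod 2) (V e : Submodule (ZMod 2) (SqA σ)) ≤
      SS d m (V e : Submodule (ZMod 2) (SqA σ)) * finrank (ZMod 2) W := by
  classical
  set N := finrank (ZMod 2) (V e : Submodule (ZMod 2) (SqA σ)) with hN
  set φ : Submodule (ZMod 2) (SqA σ) → ℤ := fun U =>
    (N : ℤ) * SS d m U - (SS d m (V e : Submodule (ZMod 2) (SqA σ)) : ℤ) * finrank (ZMod 2) U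
    with hφ
  have hsup : ∀ U U' : Submodule (ZMod 2) (SqA σ), φ U + φ U' ≤ φ (U ⊔ U') + φ (U ⊓ U') := by
    intro U U'
    have h1 := SS_super d m U U'
    have h2 := Submodule.finrank_sup_add_finrank_inf_eq U U'
    have h3 : ((finrank (ZMod 2) ↥(U ⊔ U') : ℤ) + finrank (ZMod 2) ↥(U ⊓ U')) =
        finrank (ZMod 2) U + finrank (ZMod 2) U' := by exact_mod_cast h2
    have h4 : (SS d m U : ℤ) + SS d m U' ≤ SS d m (U ⊔ U') + SS d m (U ⊓ U') := by
      exact_mod_cast h1
    have h5 : (0 : ℤ) ≤ N := Int.natCast_nonneg _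
    simp only [hφ]
    have h6 := mul_le_mul_of_nonneg_left h4 h5
    have h7 : (SS d m (V e : Submodule (ZMod 2) (SqA σ)) : ℤ) *
        ((finrank (ZMod 2) ↥(U ⊔ U') : ℤ) + finrank (ZMod 2) ↥(U ⊓ U')) =
        (SS d m (V e : Submodule (ZMod 2) (SqA σ)) : ℤ) *
        (finrank (ZMod 2) U + finrank (ZMod 2) U') := by rw [h3]
    linarith [h6, h7, mul_add (N : ℤ) (SS d m U : ℤ) (SS d m U'),
      mul_add (N : ℤ) (SS d m (U ⊔ U') : ℤ) (SS d m (U ⊓ U')),
      mul_add (SS d m (V e : Submodule (ZMod 2) (SqA σ)) : ℤ)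
      (finrank (ZMod 2) ↥(U ⊔ U') : ℤ) (finrank (ZMod 2) ↥(U ⊓ U')),
      mul_add (SS d m (V e : Submodule (ZMod 2) (SqA σ)) : ℤ) (finrank (ZMod 2) U : ℤ)
      (finrank (ZMod 2) U')]
  suffices hmain : φ W ≤ 0 by
    simp only [hφ] at hmain
    have : (SS d m W : ℤ) * N ≤ (SS d m (V e : Submodule (ZMod 2) (SqA σ)) : ℤ) *
      finrank (ZMod 2) W := by linarith [mul_comm (N : ℤ) (SS d m W : ℤ)]
    exact_mod_cast this
  haveI : Finite (Submodule (ZMod 2) (SqA σ)) :=
    Finite.of_injective (fun U : Submodule (ZMod 2) (SqA σ) => (U : Set (SqA σ)))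
      SetLike.coe_injective
  set Φ : Submodule (ZMod 2) (SqA σ) → ℤ := fun U =>
    φ U * ((N : ℤ) + 1) + finrank (ZMod 2) U with hΦ
  obtain ⟨M, hM, hmax⟩ := Set.exists_max_image {U : Submodule (ZMod 2) (SqA σ) | U ≤ V e} Φ
    (Set.toFinite _) ⟨W, hW⟩
  have hfr : ∀ U : Submodule (ZMod 2) (SqA σ), U ≤ V e → finrank (ZMod 2) U ≤ N :=
    fun U hU => Submodule.finrank_mono hU
  have hφmax : ∀ U : Submodule (ZMod 2) (SqA σ), U ≤ V e → φ U ≤ φ M := by
    intro U hU
    by_contra hlt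
    push Not at hlt
    have h1 := hmax U hU
    simp only [hΦ] at h1
    have h2 : (finrank (ZMod 2) M : ℤ) ≤ N := by exact_mod_cast hfr M hM
    have h3 : (0 : ℤ) ≤ finrank (ZMod 2) U := Int.natCast_nonneg _
    have h4 : (0 : ℤ) ≤ N := Int.natCast_nonneg _
    nlinarith
  refine (hφmax W hW).trans ?_
  by_contra hpos
  push Not at hpos
  have hne : M ≠ ⊥ := by
    rintro rfl
    simp only [hφ, SS_bot, finrank_bot] at hpos
    simp at hpos
  have hst : ∀ i j : σ, i ≠ j → M.map (tv i j) ≤ M := by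
    intro i j hij
    have h1 : M.map (tv i j) ≤ V e := by
      rintro _ ⟨f, hf, rfl⟩
      exact tv_mem hij (hM hf)
    have h2 : φ (M.map (tv i j)) = φ M := by
      simp only [hφ]
      rw [SS_tv hij, finrank_tv hij]
    have h3 := hsup M (M.map (tv i j))
    have h4 := hφmax _ (inf_le_left.trans hM : M ⊓ M.map (tv i j) ≤ V e)
    have h5 := hφmax _ (sup_le hM h1)
    have h6 : φ (M ⊔ M.map (tv i j)) = φ M := by linarith
    have h7 := hmax _ (sup_le hM h1)
    simp only [hΦ] at h7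
    rw [h6] at h7
    have h8 : finrank (ZMod 2) ↥(M ⊔ M.map (tv i j)) ≤ finrank (ZMod 2) M := by
      have : (finrank (ZMod 2) ↥(M ⊔ M.map (tv i j)) : ℤ) ≤ finrank (ZMod 2) M := by linarith
      exact_mod_cast this
    have h9 : M = M ⊔ M.map (tv i j) := Submodule.eq_of_le_of_finrank_le le_sup_left h8
    exact (le_sup_right : M.map (tv i j) ≤ M ⊔ M.map (tv i j)).trans h9.ge
  have hVe := irred hM hne hst
  rw [hVe] at hpos
  simp only [hφ] at hpos
  rw [← hN] at hpos
  linarith [mul_comm (N : ℤ) (SS d m (V e : Submodule (ZMod 2) (SqA σ)) : ℤ)]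

/-- the average relative dimension, times the number of tuples -/
noncomputable def alp (σ : Type*) [DecidableEq σ] [Fintype σ] (d m e : ℕ) : ℝ :=
  (SS d m (V e : Submodule (ZMod 2) (SqA σ)) : ℝ) / ((Fintype.card σ).choose e : ℝ)

theorem alp_nonneg (d m e : ℕ) : 0 ≤ alp σ d m e := by
  unfold alp; positivity

theorem slopeM_real {d m e : ℕ} (he : e ≤ Fintype.card σ) {W : Submodule (ZMod 2) (SqA σ)}
    (hW : W ≤ V e) : (SS d m W : ℝ) ≤ alp σ d m e * finrank (ZMod 2) W := by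
  have h1 := slopeM d m e W hW
  rw [finrank_V] at h1
  have h2 : (SS d m W : ℝ) * ((Fintype.card σ).choose e : ℝ) ≤
      (SS d m (V e : Submodule (ZMod 2) (SqA σ)) : ℝ) * finrank (ZMod 2) W := by exact_mod_cast h1
  have h3 := choose_pos_real he
  unfold alp
  rw [div_mul_eq_mul_div, le_div_iff₀ h3]
  exact h2

theorem SS_add {d b e : ℕ} (he : e ≤ Fintype.card σ) (a : ℕ) :
    ∀ {W : Submodule (ZMod 2) (SqA σ)}, W ≤ V e →
      (SS d (a + b) W : ℝ) ≤ alp σ d b e * SS d a W := by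
  induction a with
  | zero =>
    intro W hW
    rw [zero_add]
    exact slopeM_real he hW
  | succ a ih =>
    intro W hW
    rw [Nat.succ_add a b]
    change ((∑ g ∈ Vf d, SS d (a + b) (W ⊓ LinearMap.ker (mL g)) : ℕ) : ℝ) ≤
      alp σ d b e * ((∑ g ∈ Vf d, SS d a (W ⊓ LinearMap.ker (mL g)) : ℕ) : ℝ)
    push_cast
    rw [Finset.mul_sum]
    exact Finset.sum_le_sum fun g _ => ih (inf_le_left.trans hW)

theorem SS_mul {d b e : ℕ} (he : e ≤ Fintype.card σ) (k : ℕ) :
    (SS d (k * b) (V e : Submodule (ZMod 2) (SqA σ)) : ℝ) ≤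
      alp σ d b e ^ k * ((Fintype.card σ).choose e : ℝ) := by
  induction k with
  | zero =>
    rw [zero_mul, pow_zero, one_mul]
    change (finrank (ZMod 2) (V e : Submodule (ZMod 2) (SqA σ)) : ℝ) ≤ _
    rw [finrank_V]
  | succ k ih =>
    have h1 := SS_add (d := d) (b := b) he (k * b) (le_refl (V e : Submodule (ZMod 2) (SqA σ)))
    have h2 : (k + 1) * b = k * b + b := by ring
    rw [h2]
    refine h1.trans ?_
    rw [pow_succ]
    calc alp σ d b e * (SS d (k * b) (V e : Submodule (ZMod 2) (SqA σ)) : ℝ)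
        ≤ alp σ d b e * (alp σ d b e ^ k * ((Fintype.card σ).choose e : ℝ)) :=
          mul_le_mul_of_nonneg_left ih (alp_nonneg _ _ _)
      _ = _ := by ring

theorem SS_succ_le (d m : ℕ) (W : Submodule (ZMod 2) (SqA σ)) :
    SS d (m + 1) W ≤ 2 ^ (Fintype.card σ).choose d * SS d m W := by
  have h : SS d (m + 1) W ≤ ∑ _g ∈ (Vf d : Finset (SqA σ)), SS d m W :=
    Finset.sum_le_sum fun g _ => SS_mono d m inf_le_left
  rw [Finset.sum_const, card_Vf, smul_eq_mul] at h
  exact h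

theorem SS_add_le (d m k : ℕ) (W : Submodule (ZMod 2) (SqA σ)) :
    SS d (m + k) W ≤ (2 ^ (Fintype.card σ).choose d) ^ k * SS d m W := by
  induction k with
  | zero => simp
  | succ k ih =>
    rw [← add_assoc]
    refine (SS_succ_le d (m + k) W).trans ?_
    rw [pow_succ]
    calc 2 ^ (Fintype.card σ).choose d * SS d (m + k) W
        ≤ 2 ^ (Fintype.card σ).choose d * ((2 ^ (Fintype.card σ).choose d) ^ k * SS d m W) :=
          Nat.mul_le_mul_left _ ih
      _ = _ := by ring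

theorem sum_Ann (d m : ℕ) : ∀ W : Submodule (ZMod 2) (SqA σ),
    ∑ lam ∈ Fintype.piFinset (fun _ : Fin m => (Vf d : Finset (SqA σ))),
      (finrank (ZMod 2) (Ann W lam) : ℝ) = SS d m W := by
  induction m with
  | zero =>
    intro W
    have h1 : ∀ lam : Fin 0 → SqA σ, Ann W lam = W := by
      intro lam
      unfold Ann
      simp
    rw [Finset.sum_congr rfl (fun lam _ => by rw [h1 lam])]
    simp [SS]
  | succ m ih =>
    intro W
    rw [sum_cons]
    change _ = ((∑ g ∈ Vf d, SS d m (W ⊓ LinearMap.ker (mL g)) : ℕ) : ℝ)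
    push_cast
    refine Finset.sum_congr rfl fun a _ => ?_
    rw [← ih]
    refine Finset.sum_congr rfl fun lam _ => ?_
    rw [Ann_cons W a lam]

end H26IX
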