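import Pool.Agent.H26.IX.Kappa

/-!
# The nullity of a sum of disjoint monomials
-/

namespace H26IX

open Finset H67SR H67SR.SqA Module

set_option linter.unusedSectionVars false

variable {σ : Type*} [DecidableEq σ] [Fintype σ]

open Classical in
/-- sets of size `e` with property `p` and trace `R` on `T` -/
noncomputable def G (e : ℕ) (p : Finset σ → Prop) (T R : Finset σ) : Finset (Finset σ) :=
  Finset.univ.filter fun A => A.card = e ∧ p A ∧ A ∩ T = R

theorem mem_G {e : ℕ} {p : Finset σ → Prop} {T R A : Finset σ} :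
    A ∈ G e p T R ↔ A.card = e ∧ p A ∧ A ∩ T = R := by
  simp [G]

theorem one_step {e : ℕ} {p : Finset σ → Prop} {Q T R : Finset σ} {x : σ}
    (hQT : Disjoint Q T) (hp : ∀ A B : Finset σ, A ∩ Q = B ∩ Q → (p A ↔ p B))
    (hx : x ∈ T) (hxR : x ∉ R) :
    (G e p T (insert x R)).card * (Fintype.card σ - (Q ∪ T).card - e) ≤ (G e p T R).card * e := by
  classical
  have hxQ : x ∉ Q := fun h => (Finset.disjoint_left.1 hQT) h hx
  apply Finset.card_mul_le_card_mul
    (fun A B : Finset σ => ∃ y, y ∉ A ∧ y ∉ Q ∪ T ∧ B = insert y (A.erase x))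
  · intro A hA
    obtain ⟨hA1, hA2, hA3⟩ := mem_G.1 hA
    have hxA : x ∈ A := by
      have : x ∈ A ∩ T := by rw [hA3]; exact Finset.mem_insert_self _ _
      exact (Finset.mem_inter.1 this).1
    have h1 : Fintype.card σ - (Q ∪ T).card - e ≤ (Finset.univ \ (A ∪ (Q ∪ T))).card := by
      have h2 := Finset.card_sdiff_add_card_eq_card (Finset.subset_univ (A ∪ (Q ∪ T)))
      rw [Finset.card_univ] at h2
      have h3 := Finset.card_union_le A (Q ∪ T)
      omega
    refine h1.trans ?_
    apply Finset.card_le_card_of_injOn (fun y => insert y (A.erase x))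
    · intro y hy
      have hy' : y ∉ A ∪ (Q ∪ T) := (Finset.mem_sdiff.1 hy).2
      have hyA : y ∉ A := fun h => hy' (Finset.mem_union_left _ h)
      have hyQT : y ∉ Q ∪ T := fun h => hy' (Finset.mem_union_right _ h)
      have hyQ : y ∉ Q := fun h => hyQT (Finset.mem_union_left _ h)
      have hyT : y ∉ T := fun h => hyQT (Finset.mem_union_right _ h)
      rw [Finset.mem_coe, Finset.mem_bipartiteAbove, mem_G]
      refine ⟨⟨?_, ?_, ?_⟩, y, hyA, hyQT, rfl⟩
      · rw [Finset.card_insert_of_notMem (fun h => hyA (Finset.mem_of_mem_erase h)),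
          Finset.card_erase_of_mem hxA]
        have : 0 < A.card := Finset.card_pos.2 ⟨x, hxA⟩
        omega
      · refine (hp _ _ ?_).1 hA2
        ext z
        simp only [Finset.mem_inter, Finset.mem_insert, Finset.mem_erase]
        constructor
        · rintro ⟨h4, h5⟩
          refine ⟨Or.inr ⟨?_, h4⟩, h5⟩
          rintro rfl
          exact hxQ h5
        · rintro ⟨h4 | h4, h5⟩
          · subst h4; exact absurd h5 hyQ
          · exact ⟨h4.2, h5⟩
      · have h6 : (insert y (A.erase x)) ∩ T = (A ∩ T).erase x := by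
          ext z
          simp only [Finset.mem_inter, Finset.mem_insert, Finset.mem_erase]
          constructor
          · rintro ⟨h4 | h4, h5⟩
            · subst h4; exact absurd h5 hyT
            · exact ⟨h4.1, h4.2, h5⟩
          · rintro ⟨h4, h5, h6⟩
            exact ⟨Or.inr ⟨h4, h5⟩, h6⟩
        rw [h6, hA3, Finset.erase_insert hxR]
    · intro y hy y' hy' heq
      have hyA : y ∉ A := fun h => (Finset.mem_sdiff.1 hy).2 (Finset.mem_union_left _ h)
      have hyA' : y' ∉ A := fun h => (Finset.mem_sdiff.1 hy').2 (Finset.mem_union_left _ h)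
      have h1 : y ∈ insert y' (A.erase x) := by
        rw [← show insert y (A.erase x) = insert y' (A.erase x) from heq]
        exact Finset.mem_insert_self _ _
      rcases Finset.mem_insert.1 h1 with h2 | h2
      · exact h2
      · exact absurd (Finset.mem_of_mem_erase h2) hyA
  · intro B hB
    obtain ⟨hB1, hB2, hB3⟩ := mem_G.1 hB
    rw [← hB1]
    calc _ ≤ (B.image (fun y => insert x (B.erase y))).card := by
          apply Finset.card_le_card
          intro A hA
          rw [Finset.mem_bipartiteBelow, mem_G] at hA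
          obtain ⟨⟨hA1, hA2, hA3⟩, y, hyA, hyQT, hBA⟩ := hA
          have hxA : x ∈ A := by
            have : x ∈ A ∩ T := by rw [hA3]; exact Finset.mem_insert_self _ _
            exact (Finset.mem_inter.1 this).1
          rw [Finset.mem_image]
          refine ⟨y, ?_, ?_⟩
          · rw [hBA]; exact Finset.mem_insert_self _ _
          · rw [hBA, Finset.erase_insert (fun h => hyA (Finset.mem_of_mem_erase h)),
              Finset.insert_erase hxA]
      _ ≤ B.card := Finset.card_image_le

theorem one_step_real {e : ℕ} {p : Finset σ → Prop} {Q T R : Finset σ} {x : σ}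
    (hQT : Disjoint Q T) (hp : ∀ A B : Finset σ, A ∩ Q = B ∩ Q → (p A ↔ p B))
    (hx : x ∈ T) (hxR : x ∉ R) {ρ : ℝ} (hL : (0 : ℝ) < (Fintype.card σ : ℝ) - (Q ∪ T).card - e)
    (hρ : (e : ℝ) ≤ ρ * ((Fintype.card σ : ℝ) - (Q ∪ T).card - e)) :
    ((G e p T (insert x R)).card : ℝ) ≤ ρ * (G e p T R).card := by
  have h1 := one_step (e := e) hQT hp hx hxR
  have h2 : ((Fintype.card σ - (Q ∪ T).card - e : ℕ) : ℝ) =
      (Fintype.card σ : ℝ) - (Q ∪ T).card - e := by
    have h3 : (Q ∪ T).card + e ≤ Fintype.card σ := by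
      have : (((Q ∪ T).card + e : ℕ) : ℝ) ≤ (Fintype.card σ : ℝ) := by
        push_cast
        linarith
      exact_mod_cast this
    rw [Nat.cast_sub (by omega), Nat.cast_sub (by omega)]
  have h3 : ((G e p T (insert x R)).card : ℝ) * ((Fintype.card σ : ℝ) - (Q ∪ T).card - e) ≤
      ((G e p T R).card : ℝ) * e := by
    rw [← h2]
    exact_mod_cast h1
  have h4 : ((G e p T R).card : ℝ) * e ≤
      (ρ * (G e p T R).card) * ((Fintype.card σ : ℝ) - (Q ∪ T).card - e) := by
    have := mul_le_mul_of_nonneg_left hρ (Nat.cast_nonneg (α := ℝ) (G e p T R).card)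
    linarith
  exact le_of_mul_le_mul_right (h3.trans h4) hL

theorem G_le {e : ℕ} {p : Finset σ → Prop} {Q T : Finset σ}
    (hQT : Disjoint Q T) (hp : ∀ A B : Finset σ, A ∩ Q = B ∩ Q → (p A ↔ p B))
    {ρ : ℝ} (hρ0 : 0 ≤ ρ) (hL : (0 : ℝ) < (Fintype.card σ : ℝ) - (Q ∪ T).card - e)
    (hρ : (e : ℝ) ≤ ρ * ((Fintype.card σ : ℝ) - (Q ∪ T).card - e)) (R : Finset σ) :
    R ⊆ T → ((G e p T R).card : ℝ) ≤ ρ ^ R.card * (G e p T ∅).card := by
  induction R using Finset.induction_on with
  | empty => intro _; simp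
  | insert x R hxR ih =>
    intro hR
    have h1 := one_step_real hQT hp (hR (Finset.mem_insert_self _ _)) hxR hL hρ
    have h2 := ih ((Finset.subset_insert _ _).trans hR)
    rw [Finset.card_insert_of_notMem hxR, pow_succ]
    have h3 := mul_le_mul_of_nonneg_left h2 hρ0
    calc ((G e p T (insert x R)).card : ℝ) ≤ ρ * (G e p T R).card := h1
      _ ≤ ρ * (ρ ^ R.card * (G e p T ∅).card) := h3
      _ = ρ ^ R.card * ρ * (G e p T ∅).card := by ring

/-! ### blocks -/

/-- all blocks before `j` are neither full nor empty -/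
def prp (T : ℕ → Finset σ) (j : ℕ) (A : Finset σ) : Prop :=
  ∀ i < j, ¬ T i ⊆ A ∧ ¬ Disjoint (T i) A

open Classical in
/-- sets of size `e` whose first `j` blocks are neither full nor empty -/
noncomputable def Z (e : ℕ) (T : ℕ → Finset σ) (j : ℕ) : Finset (Finset σ) :=
  Finset.univ.filter fun A => A.card = e ∧ prp T j A

theorem mem_Z {e : ℕ} {T : ℕ → Finset σ} {j : ℕ} {A : Finset σ} :
    A ∈ Z e T j ↔ A.card = e ∧ prp T j A := by
  simp [Z]

/-- the union of the first `j` blocks -/
def Qb (T : ℕ → Finset σ) (j : ℕ) : Finset σ := (Finset.range j).biUnion T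

theorem sub_Qb {T : ℕ → Finset σ} {i j : ℕ} (h : i < j) : T i ⊆ Qb T j :=
  Finset.subset_biUnion_of_mem T (Finset.mem_range.2 h)

theorem prp_local (T : ℕ → Finset σ) (j : ℕ) (A B : Finset σ) (h : A ∩ Qb T j = B ∩ Qb T j) :
    prp T j A ↔ prp T j B := by
  have key : ∀ A B : Finset σ, A ∩ Qb T j = B ∩ Qb T j → prp T j A → prp T j B := by
    intro A B h hA i hi
    have hs := sub_Qb (T := T) hi
    refine ⟨fun h1 => (hA i hi).1 ?_, fun h1 => (hA i hi).2 ?_⟩
    · intro z hz
      have : z ∈ B ∩ Qb T j := Finset.mem_inter.2 ⟨h1 hz, hs hz⟩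
      rw [← h] at this
      exact (Finset.mem_inter.1 this).1
    · rw [Finset.disjoint_left] at h1 ⊢
      intro z hz hzA
      have : z ∈ A ∩ Qb T j := Finset.mem_inter.2 ⟨hzA, hs hz⟩
      rw [h] at this
      exact h1 hz (Finset.mem_inter.1 this).1
  exact ⟨key A B h, key B A h.symm⟩

theorem Z_succ {e : ℕ} {T : ℕ → Finset σ} {j : ℕ} (hT : (T j).Nonempty) :
    (Z e T j).card = (Z e T (j + 1)).card + (G e (prp T j) (T j) ∅).card +
      (G e (prp T j) (T j) (T j)).card := by
  classical
  have h1 : Z e T j = (Z e T (j + 1) ∪ G e (prp T j) (T j) ∅) ∪ G e (prp T j) (T j) (T j) := by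
    ext A
    rw [Finset.mem_union, Finset.mem_union, mem_Z, mem_Z, mem_G, mem_G]
    constructor
    · rintro ⟨h1, h2⟩
      by_cases h3 : T j ⊆ A
      · exact Or.inr ⟨h1, h2, Finset.inter_eq_right.2 h3⟩
      · by_cases h4 : Disjoint (T j) A
        · exact Or.inl (Or.inr ⟨h1, h2, by rw [Finset.inter_comm]; exact
            Finset.disjoint_iff_inter_eq_empty.1 h4⟩)
        · refine Or.inl (Or.inl ⟨h1, fun i hi => ?_⟩)
          rcases Nat.lt_succ_iff_lt_or_eq.1 hi with h5 | h5
          · exact h2 i h5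
          · subst h5; exact ⟨h3, h4⟩
    · rintro ((⟨h1, h2⟩ | ⟨h1, h2, _⟩) | ⟨h1, h2, _⟩)
      · exact ⟨h1, fun i hi => h2 i (by omega)⟩
      · exact ⟨h1, h2⟩
      · exact ⟨h1, h2⟩
  have h2 : Disjoint (Z e T (j + 1)) (G e (prp T j) (T j) ∅) := by
    rw [Finset.disjoint_left]
    intro A hA hA'
    have h3 := ((mem_Z.1 hA).2 j (Nat.lt_succ_self j)).2
    apply h3
    rw [Finset.disjoint_iff_inter_eq_empty, Finset.inter_comm]
    exact (mem_G.1 hA').2.2
  have h3 : Disjoint (Z e T (j + 1) ∪ G e (prp T j) (T j) ∅) (G e (prp T j) (T j) (T j)) := by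
    rw [Finset.disjoint_left]
    intro A hA hA'
    have h4 := (mem_G.1 hA').2.2
    rcases Finset.mem_union.1 hA with h5 | h5
    · exact ((mem_Z.1 h5).2 j (Nat.lt_succ_self j)).1 (Finset.inter_eq_right.1 h4)
    · have h6 := (mem_G.1 h5).2.2
      rw [h4] at h6
      exact hT.ne_empty h6
  rw [h1, Finset.card_union_of_disjoint h3, Finset.card_union_of_disjoint h2]

theorem Z_le {e : ℕ} {T : ℕ → Finset σ} {j d : ℕ} (hTd : (T j).card = d)
    (hdis : Disjoint (Qb T j) (T j)) {ρ : ℝ} (hρ0 : 0 ≤ ρ)
    (hL : (0 : ℝ) < (Fintype.card σ : ℝ) - (Qb T j ∪ T j).card - e)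
    (hρ : (e : ℝ) ≤ ρ * ((Fintype.card σ : ℝ) - (Qb T j ∪ T j).card - e)) :
    ((Z e T j).card : ℝ) ≤ (1 + ρ) ^ d * (G e (prp T j) (T j) ∅).card := by
  classical
  have h1 : (Z e T j).card = ∑ R ∈ (T j).powerset, (G e (prp T j) (T j) R).card := by
    rw [Finset.card_eq_sum_card_fiberwise (f := fun A => A ∩ T j) (t := (T j).powerset)]
    · refine Finset.sum_congr rfl fun R _ => ?_
      congr 1
      ext A
      rw [Finset.mem_filter, mem_Z, mem_G, and_assoc]
    · intro A _
      exact Finset.mem_coe.2 (Finset.mem_powerset.2 Finset.inter_subset_right)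
  rw [h1]
  push_cast
  calc ∑ R ∈ (T j).powerset, ((G e (prp T j) (T j) R).card : ℝ)
      ≤ ∑ R ∈ (T j).powerset, ρ ^ R.card * (G e (prp T j) (T j) ∅).card :=
        Finset.sum_le_sum fun R hR =>
          G_le hdis (prp_local T j) hρ0 hL hρ R (Finset.mem_powerset.1 hR)
    _ = (1 + ρ) ^ d * (G e (prp T j) (T j) ∅).card := by
        rw [← Finset.sum_mul, add_comm 1 ρ, ← hTd, ← Finset.sum_pow_mul_eq_add_pow]
        simp

theorem Z_zero (e : ℕ) (T : ℕ → Finset σ) :
    (Z e T 0).card = (Fintype.card σ).choose e := by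
  classical
  have : Z e T 0 = Finset.powersetCard e Finset.univ := by
    ext A
    rw [mem_Z, Finset.mem_powersetCard]
    constructor
    · rintro ⟨h, _⟩; exact ⟨Finset.subset_univ _, h⟩
    · rintro ⟨_, h⟩; exact ⟨h, fun i hi => absurd hi (by omega)⟩
  rw [this, Finset.card_powersetCard, Finset.card_univ]

/-- the special form -/
noncomputable def Dsp (T : ℕ → Finset σ) (r : ℕ) : SqA σ := ∑ j ∈ Finset.range r, mono (T j)

theorem Dsp_mem {T : ℕ → Finset σ} {r d : ℕ} (hT : ∀ j < r, (T j).card = d) :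
    Dsp T r ∈ V d := by
  apply Submodule.sum_mem
  intro j hj U hU
  rw [mono_apply] at hU
  by_cases h : U = T j
  · rw [h]; exact hT j (Finset.mem_range.1 hj)
  · rw [if_neg h] at hU
    exact absurd rfl hU

/-- an element of the kernel of the special form is determined by the coefficients at sets
whose first active block is full, or which have no active block -/
theorem ker_det {T : ℕ → Finset σ} {r e : ℕ} (hdis : ∀ i < r, ∀ j < r, i ≠ j →
    Disjoint (T i) (T j)) {g : SqA σ} (hg : g ∈ V e) (h0 : Dsp T r * g = 0)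
    (hF : ∀ j < r, ∀ A ∈ G e (prp T j) (T j) (T j), g A = 0) (hZ : ∀ A ∈ Z e T r, g A = 0) :
    g = 0 := by
  classical
  ext A
  rw [zero_apply]
  by_contra hA
  have hcard : A.card = e := hg A hA
  -- the first active block is empty
  have h1 : ∃ j < r, Disjoint (T j) A ∧ prp T j A := by
    by_contra hno
    push Not at hno
    have h2 : ∀ j ≤ r, prp T j A := by
      intro j
      induction j with
      | zero => intro _ i hi; exact absurd hi (by omega)
      | succ j ih =>
        intro hj i hi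
        have h3 := ih (by omega)
        rcases Nat.lt_succ_iff_lt_or_eq.1 hi with h5 | h5
        · exact h3 i h5
        · subst h5
          refine ⟨fun h6 => ?_, fun h6 => hno i (by omega) h6 h3⟩
          exact hA (hF i (by omega) A (mem_G.2 ⟨hcard, h3, Finset.inter_eq_right.2 h6⟩))
    exact hA (hZ A (mem_Z.2 ⟨hcard, h2 r le_rfl⟩))
  obtain ⟨j, hj, hdj, hpj⟩ := h1
  have h2 : (Dsp T r * g) (A ∪ T j) = 0 := by rw [h0]; rfl
  unfold Dsp at h2
  rw [Finset.sum_mul, SqA.sum_apply, Finset.sum_eq_single j] at h2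
  · rw [mono_mul_apply, if_pos Finset.subset_union_right] at h2
    have h3 : (A ∪ T j) \ T j = A := by
      rw [Finset.union_sdiff_right]
      exact Finset.sdiff_eq_self_of_disjoint hdj.symm
    rw [h3] at h2
    exact hA h2
  · intro i hi hij
    have hi' := Finset.mem_range.1 hi
    rw [mono_mul_apply]
    split_ifs with h3
    · have hTi : T i ⊆ A := by
        intro z hz
        rcases Finset.mem_union.1 (h3 hz) with h4 | h4
        · exact h4
        · exact absurd h4 ((Finset.disjoint_left.1 (hdis i hi' j hj hij)) hz)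
      have hji : j < i := by
        by_contra hle
        have : i < j := by omega
        exact (hpj i this).1 hTi
      by_contra hne
      apply hne
      apply hF j hj
      rw [mem_G]
      refine ⟨hg _ hne, ?_, ?_⟩
      · intro i' hi''
        have hi3 : i' < r := by omega
        have hd1 := hdis i' hi3 j hj (by omega)
        have hd2 := hdis i' hi3 i hi' (by omega)
        obtain ⟨h5, h6⟩ := hpj i' hi''
        refine ⟨fun h7 => h5 ?_, fun h7 => h6 ?_⟩
        · intro z hz
          rcases Finset.mem_union.1 (Finset.mem_sdiff.1 (h7 hz)).1 with h8 | h8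
          · exact h8
          · exact absurd h8 ((Finset.disjoint_left.1 hd1) hz)
        · rw [Finset.disjoint_left] at h7 ⊢
          intro z hz hzA
          apply h7 hz
          rw [Finset.mem_sdiff]
          exact ⟨Finset.mem_union_left _ hzA, (Finset.disjoint_left.1 hd2) hz⟩
      · rw [Finset.inter_eq_right]
        intro z hz
        rw [Finset.mem_sdiff]
        exact ⟨Finset.mem_union_right _ hz,
          (Finset.disjoint_left.1 (hdis j hj i hi' (by omega))) hz⟩
    · rfl
  · intro h; exact absurd (Finset.mem_range.2 hj) h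

theorem nul_Dsp_le {T : ℕ → Finset σ} {r e : ℕ} (hdis : ∀ i < r, ∀ j < r, i ≠ j →
    Disjoint (T i) (T j)) :
    nul (V e) (Dsp T r) ≤ ∑ j ∈ Finset.range r, (G e (prp T j) (T j) (T j)).card +
      (Z e T r).card := by
  classical
  set 𝒜 : Finset (Finset σ) := (Finset.range r).biUnion (fun j => G e (prp T j) (T j) (T j)) ∪
    Z e T r with h𝒜
  have hcard : 𝒜.card ≤ ∑ j ∈ Finset.range r, (G e (prp T j) (T j) (T j)).card +
      (Z e T r).card := by
    refine (Finset.card_union_le _ _).trans ?_
    exact Nat.add_le_add_right Finset.card_biUnion_le _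
  refine le_trans ?_ hcard
  unfold nul
  set K := (V e : Submodule (ZMod 2) (SqA σ)) ⊓ LinearMap.ker (mL (Dsp T r)) with hK
  let ev : K →ₗ[ZMod 2] (𝒜 → ZMod 2) :=
    { toFun := fun g A => (g : SqA σ) A.1
      map_add' := fun _ _ => rfl
      map_smul' := fun _ _ => rfl }
  have hinj : Function.Injective ev := by
    rw [← LinearMap.ker_eq_bot, LinearMap.ker_eq_bot']
    intro g hg
    apply Subtype.ext
    obtain ⟨h1, h2⟩ := g.2
    refine ker_det hdis h1 (by simpa using h2) ?_ ?_
    · intro j hj A hA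
      have hmem : A ∈ 𝒜 := Finset.mem_union_left _
        (Finset.mem_biUnion.2 ⟨j, Finset.mem_range.2 hj, hA⟩)
      exact congrFun hg ⟨A, hmem⟩
    · intro A hA
      have hmem : A ∈ 𝒜 := Finset.mem_union_right _ hA
      exact congrFun hg ⟨A, hmem⟩
  have h1 := LinearMap.finrank_le_finrank_of_injective hinj
  rw [Module.finrank_fintype_fun_eq_card, Fintype.card_coe] at h1
  exact h1

end H26IX
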