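import Pool.Agent.H26.IX.SlopeM
import Pool.Agent.H26.IX.Avg

/-!
# The comparison inequality for averages over random forms and special forms
-/

namespace H26IX

open Finset H67SR H67SR.SqA Module

set_option linter.unusedSectionVars false

variable {σ : Type*} [DecidableEq σ] [Fintype σ]

/-- closed under multiplication -/
def Cl (W : Submodule (ZMod 2) (SqA σ)) : Prop := ∀ a x, x ∈ W → a * x ∈ W

theorem Cl.inf {W : Submodule (ZMod 2) (SqA σ)} (hW : Cl W) (g : SqA σ) :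
    Cl (W ⊓ LinearMap.ker (mL g)) := by
  rintro a x ⟨hx1, hx2⟩
  refine ⟨hW a x hx1, ?_⟩
  rw [SetLike.mem_coe, LinearMap.mem_ker, mL_apply] at hx2 ⊢
  rw [← mul_assoc, mul_comm g a, mul_assoc, hx2, mul_zero]

theorem Cl_top : Cl (⊤ : Submodule (ZMod 2) (SqA σ)) := fun _ _ _ => Submodule.mem_top

/-- the forms of degree `d` as a family -/
noncomputable def fam (σ : Type*) [DecidableEq σ] [Fintype σ] (d : ℕ) :
    {g : SqA σ // g ∈ (Vf d : Finset (SqA σ))} → SqA σ := Subtype.val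

theorem av_mono {ι : Type*} [Fintype ι] (D : ι → SqA σ)
    {f f' : Submodule (ZMod 2) (SqA σ) → ℝ} (h : ∀ W, Cl W → f W ≤ f' W)
    {W : Submodule (ZMod 2) (SqA σ)} (hW : Cl W) : av D f W ≤ av D f' W := by
  unfold av
  apply div_le_div_of_nonneg_right _ (Nat.cast_nonneg _)
  exact Finset.sum_le_sum fun c _ => h _ (hW.inf _)

theorem av_smul {ι : Type*} [Fintype ι] (D : ι → SqA σ) (r : ℝ)
    (f : Submodule (ZMod 2) (SqA σ) → ℝ) (W : Submodule (ZMod 2) (SqA σ)) :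
    av D (fun W => r * f W) W = r * av D f W := by
  unfold av
  rw [← Finset.mul_sum, mul_div_assoc]

theorem av_add {ι : Type*} [Fintype ι] (D : ι → SqA σ)
    (f f' : Submodule (ZMod 2) (SqA σ) → ℝ) (W : Submodule (ZMod 2) (SqA σ)) :
    av D (fun W => f W + f' W) W = av D f W + av D f' W := by
  unfold av
  rw [Finset.sum_add_distrib, add_div]

theorem av_comm {ι ι' : Type*} [Fintype ι] [Fintype ι'] (D : ι → SqA σ) (D' : ι' → SqA σ)
    (f : Submodule (ZMod 2) (SqA σ) → ℝ) : av D (av D' f) = av D' (av D f) := by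
  funext W
  unfold av
  rw [← Finset.sum_div, ← Finset.sum_div, Finset.sum_comm, div_div, div_div, mul_comm]
  congr 1
  refine Finset.sum_congr rfl fun c _ => Finset.sum_congr rfl fun c' _ => ?_
  rw [inf_right_comm]

theorem pair_ineqW {d : ℕ} (hd : 1 ≤ d) {D lam : SqA σ} (hl : lam ∈ V d)
    (W : Submodule (ZMod 2) (SqA σ)) :
    nul W lam + nul W (lam + D) ≤
      nul W D + nul (W.map (mL D)) lam + nul (W ⊓ LinearMap.ker (mL D)) lam := by
  have h1 := Submodule.finrank_sup_add_finrank_inf_eq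
    (W ⊓ LinearMap.ker (mL lam)) (W ⊓ LinearMap.ker (mL (lam + D)))
  have h2 : finrank (ZMod 2) ↥((W ⊓ LinearMap.ker (mL lam)) ⊔
      (W ⊓ LinearMap.ker (mL (lam + D)))) ≤
      finrank (ZMod 2) ↥(W ⊓ LinearMap.ker (mL (lam * D))) := by
    apply Submodule.finrank_mono
    apply sup_le
    · rintro x ⟨hx1, hx2⟩
      refine ⟨hx1, ?_⟩
      rw [SetLike.mem_coe, LinearMap.mem_ker, mL_apply] at hx2 ⊢
      rw [mul_comm lam D, mul_assoc, hx2, mul_zero]
    · rintro x ⟨hx1, hx2⟩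
      refine ⟨hx1, ?_⟩
      rw [SetLike.mem_coe, LinearMap.mem_ker, mL_apply] at hx2 ⊢
      have h3 : lam * ((lam + D) * x) = 0 := by rw [hx2, mul_zero]
      have h4 : lam * ((lam + D) * x) = (lam * lam) * x + lam * D * x := by ring
      rw [h4, sq_zero hd hl, zero_mul, zero_add] at h3
      exact h3
  have h3 : finrank (ZMod 2) ↥((W ⊓ LinearMap.ker (mL lam)) ⊓
      (W ⊓ LinearMap.ker (mL (lam + D)))) ≤ nul (W ⊓ LinearMap.ker (mL D)) lam := by
    apply Submodule.finrank_mono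
    rintro x ⟨⟨hx1, hx2⟩, ⟨_, hx3⟩⟩
    rw [SetLike.mem_coe, LinearMap.mem_ker, mL_apply] at hx2 hx3
    refine ⟨⟨hx1, ?_⟩, ?_⟩
    · rw [SetLike.mem_coe, LinearMap.mem_ker, mL_apply]
      rw [add_mul, hx2, zero_add] at hx3
      exact hx3
    · rw [SetLike.mem_coe, LinearMap.mem_ker, mL_apply]
      exact hx2
  have h4 := rank_nullity (W ⊓ LinearMap.ker (mL (lam * D))) (mL D)
  have h5 : (W ⊓ LinearMap.ker (mL (lam * D))) ⊓
      LinearMap.ker (mL D) = W ⊓ LinearMap.ker (mL D) := by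
    ext x
    simp only [Submodule.mem_inf, LinearMap.mem_ker, mL_apply]
    constructor
    · rintro ⟨⟨h6, _⟩, h7⟩
      exact ⟨h6, h7⟩
    · rintro ⟨h6, h7⟩
      exact ⟨⟨h6, by rw [mul_assoc, h7, mul_zero]⟩, h7⟩
  have h6 : (W ⊓ LinearMap.ker (mL (lam * D))).map (mL D) ≤
      W.map (mL D) ⊓ LinearMap.ker (mL lam) := by
    rintro _ ⟨x, ⟨hx1, hx2⟩, rfl⟩
    refine ⟨⟨x, hx1, rfl⟩, ?_⟩
    rw [SetLike.mem_coe, LinearMap.mem_ker, mL_apply] at hx2 ⊢
    rw [mL_apply, ← mul_assoc, hx2]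
  have h7 := Submodule.finrank_mono (R := ZMod 2) h6
  rw [h5] at h4
  unfold nul at *
  omega

theorem pair_graded {d e : ℕ} (hd : 1 ≤ d) {D lam : SqA σ} (hD : D ∈ V d) (hl : lam ∈ V d)
    {K : Submodule (ZMod 2) (SqA σ)} (hK : Cl K) :
    finrank (ZMod 2) ↥(V e ⊓ (K ⊓ LinearMap.ker (mL lam))) +
      finrank (ZMod 2) ↥(V e ⊓ (K ⊓ LinearMap.ker (mL (lam + D)))) ≤
    finrank (ZMod 2) ↥(V e ⊓ (K ⊓ LinearMap.ker (mL D))) +
      finrank (ZMod 2) ↥(V (e + d) ⊓ ((K ⊓ LinearMap.ker (mL D)) ⊓ LinearMap.ker (mL lam))) +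
      finrank (ZMod 2) ↥(V e ⊓ ((K ⊓ LinearMap.ker (mL D)) ⊓ LinearMap.ker (mL lam))) := by
  have h1 := pair_ineqW hd (D := D) hl (V e ⊓ K)
  have h2 : nul ((V e ⊓ K).map (mL D)) lam ≤
      finrank (ZMod 2) ↥(V (e + d) ⊓ ((K ⊓ LinearMap.ker (mL D)) ⊓ LinearMap.ker (mL lam))) := by
    apply Submodule.finrank_mono
    rintro _ ⟨⟨x, ⟨hx1, hx2⟩, rfl⟩, hy⟩
    refine ⟨?_, ⟨hK _ _ hx2, ?_⟩, hy⟩
    · rw [mL_apply, add_comm e d]
      exact mul_mem_V hD hx1
    · rw [SetLike.mem_coe, LinearMap.mem_ker, mL_apply, mL_apply, ← mul_assoc, sq_zero hd hD,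
        zero_mul]
  unfold nul at h1 h2
  have e1 : ∀ X Y : Submodule (ZMod 2) (SqA σ), (V e ⊓ X) ⊓ Y = V e ⊓ (X ⊓ Y) :=
    fun X Y => inf_assoc _ _ _
  rw [e1, e1, e1, e1] at h1
  omega

theorem star0 {d : ℕ} (hd : 1 ≤ d) {D : SqA σ} (hD : D ∈ V d) {z : ℝ} (hz : 0 < z)
    {K : Submodule (ZMod 2) (SqA σ)} (hK : Cl K) :
    2 * av (fam σ d) (Fz z) K ≤ Fz z (K ⊓ LinearMap.ker (mL D)) +
      (1 + 1 / z ^ d) * av (fam σ d) (Fz z) (K ⊓ LinearMap.ker (mL D)) := by
  classical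
  set N := Fintype.card σ with hN
  -- pointwise inequality
  have hpt : ∀ lam ∈ (V d : Submodule (ZMod 2) (SqA σ)),
      Fz z (K ⊓ LinearMap.ker (mL lam)) + Fz z (K ⊓ LinearMap.ker (mL (lam + D))) ≤
      Fz z (K ⊓ LinearMap.ker (mL D)) +
        (1 + 1 / z ^ d) * Fz z ((K ⊓ LinearMap.ker (mL D)) ⊓ LinearMap.ker (mL lam)) := by
    intro lam hlam
    set g : ℕ → ℝ := fun e => z ^ e * (finrank (ZMod 2)
      ↥(V e ⊓ ((K ⊓ LinearMap.ker (mL D)) ⊓ LinearMap.ker (mL lam))) : ℝ) with hg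
    have hg0 : ∀ e, 0 ≤ g e := fun e => by positivity
    have hgN : ∀ e, N < e → g e = 0 := by
      intro e he
      have h1 : finrank (ZMod 2)
          ↥(V e ⊓ ((K ⊓ LinearMap.ker (mL D)) ⊓ LinearMap.ker (mL lam))) ≤ N.choose e := by
        rw [hN, ← finrank_V]
        exact Submodule.finrank_mono inf_le_left
      rw [Nat.choose_eq_zero_of_lt he] at h1
      have h2 : finrank (ZMod 2)
          ↥(V e ⊓ ((K ⊓ LinearMap.ker (mL D)) ⊓ LinearMap.ker (mL lam))) = 0 := by omega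
      change z ^ e * ((finrank (ZMod 2)
          ↥(V e ⊓ ((K ⊓ LinearMap.ker (mL D)) ⊓ LinearMap.ker (mL lam))) : ℕ) : ℝ) = 0
      rw [h2, Nat.cast_zero, mul_zero]
    have h1 : Fz z (K ⊓ LinearMap.ker (mL lam)) + Fz z (K ⊓ LinearMap.ker (mL (lam + D))) ≤
        Fz z (K ⊓ LinearMap.ker (mL D)) + ∑ e ∈ range (N + 1), (1 / z ^ d * g (d + e) + g e) := by
      unfold Fz
      rw [← hN, ← Finset.sum_add_distrib, ← Finset.sum_add_distrib]
      refine Finset.sum_le_sum fun e _ => ?_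
      have h2 := pair_graded (e := e) hd hD hlam hK
      have h3 : ((finrank (ZMod 2) ↥(V e ⊓ (K ⊓ LinearMap.ker (mL lam))) : ℝ) +
        (finrank (ZMod 2) ↥(V e ⊓ (K ⊓ LinearMap.ker (mL (lam + D)))) : ℝ)) ≤
        (finrank (ZMod 2) ↥(V e ⊓ (K ⊓ LinearMap.ker (mL D))) : ℝ) +
        (finrank (ZMod 2)
          ↥(V (e + d) ⊓ ((K ⊓ LinearMap.ker (mL D)) ⊓ LinearMap.ker (mL lam))) : ℝ) +
        (finrank (ZMod 2)
          ↥(V e ⊓ ((K ⊓ LinearMap.ker (mL D)) ⊓ LinearMap.ker (mL lam))) : ℝ) := by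
        exact_mod_cast h2
      have h4 : z ^ e * (finrank (ZMod 2)
          ↥(V (e + d) ⊓ ((K ⊓ LinearMap.ker (mL D)) ⊓ LinearMap.ker (mL lam))) : ℝ) =
          1 / z ^ d * g (d + e) := by
        change _ = 1 / z ^ d * (z ^ (d + e) * (finrank (ZMod 2)
          ↥(V (d + e) ⊓ ((K ⊓ LinearMap.ker (mL D)) ⊓ LinearMap.ker (mL lam))) : ℝ))
        rw [pow_add, add_comm e d]
        field_simp
      have h5 := mul_le_mul_of_nonneg_left h3 (pow_nonneg hz.le e)
      have h6 : z ^ e * (finrank (ZMod 2)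
          ↥(V e ⊓ ((K ⊓ LinearMap.ker (mL D)) ⊓ LinearMap.ker (mL lam))) : ℝ) = g e := rfl
      rw [← h4, ← h6]
      linarith [h5]
    have h2 : ∑ e ∈ range (N + 1), g (d + e) ≤ ∑ e ∈ range (N + 1), g e := by
      have h3 := Finset.sum_range_add g d (N + 1)
      have h4 := Finset.sum_range_add g (N + 1) d
      have h5 : ∑ x ∈ range d, g (N + 1 + x) = 0 := by
        apply Finset.sum_eq_zero
        intro x _
        exact hgN _ (by omega)
      rw [h5, add_zero, add_comm (N + 1) d, h3] at h4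
      have h6 : 0 ≤ ∑ x ∈ range d, g x := Finset.sum_nonneg fun x _ => hg0 x
      linarith
    have h3 : Fz z ((K ⊓ LinearMap.ker (mL D)) ⊓ LinearMap.ker (mL lam)) =
        ∑ e ∈ range (N + 1), g e := rfl
    rw [h3]
    refine h1.trans ?_
    rw [Finset.sum_add_distrib, ← Finset.mul_sum]
    have h4 : 0 < 1 / z ^ d := by positivity
    have h5 := mul_le_mul_of_nonneg_left h2 h4.le
    linarith
  -- the shift
  have hsh : ∑ c : {g : SqA σ // g ∈ (Vf d : Finset (SqA σ))},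
      Fz z (K ⊓ LinearMap.ker (mL (fam σ d c + D))) =
      ∑ c : {g : SqA σ // g ∈ (Vf d : Finset (SqA σ))},
        Fz z (K ⊓ LinearMap.ker (mL (fam σ d c))) := by
    refine Fintype.sum_bijective (fun c => ⟨c.1 + D, mem_Vf.2 ((V d).add_mem (mem_Vf.1 c.2) hD)⟩)
      ?_ _ _ ?_
    · apply Function.Involutive.bijective
      intro c
      apply Subtype.ext
      change c.1 + D + D = c.1
      rw [add_assoc, SqA.add_self, add_zero]
    · intro c
      rfl
  have hsum := Finset.sum_le_sum (s := (Finset.univ :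
      Finset {g : SqA σ // g ∈ (Vf d : Finset (SqA σ))})) fun c _ =>
    hpt (fam σ d c) (mem_Vf.1 c.2)
  rw [Finset.sum_add_distrib, hsh, Finset.sum_add_distrib, Finset.sum_const, ← Finset.mul_sum,
    nsmul_eq_mul] at hsum
  have hcard : (0 : ℝ) < Fintype.card {g : SqA σ // g ∈ (Vf d : Finset (SqA σ))} := by
    have : Nonempty {g : SqA σ // g ∈ (Vf d : Finset (SqA σ))} :=
      ⟨⟨0, mem_Vf.2 (V d).zero_mem⟩⟩
    exact_mod_cast Fintype.card_pos
  unfold av
  rw [Finset.card_univ] at hsum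
  set C : ℝ := (Fintype.card {g : SqA σ // g ∈ (Vf d : Finset (SqA σ))} : ℝ) with hC
  set Sx : ℝ := ∑ c, Fz z (K ⊓ LinearMap.ker (mL (fam σ d c))) with hSx
  set Sy : ℝ := ∑ c, Fz z ((K ⊓ LinearMap.ker (mL D)) ⊓ LinearMap.ker (mL (fam σ d c))) with hSy
  have h8 : 2 * (Sx / C) = (Sx + Sx) / C := by ring
  have h9 : Fz z (K ⊓ LinearMap.ker (mL D)) + (1 + 1 / z ^ d) * (Sy / C) =
      (C * Fz z (K ⊓ LinearMap.ker (mL D)) + (1 + 1 / z ^ d) * Sy) / C := by
    rw [add_div, mul_div_cancel_left₀ _ hcard.ne', mul_div_assoc]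
  rw [h8, h9]
  exact div_le_div_of_nonneg_right hsum hcard.le

theorem starm {d : ℕ} (hd : 1 ≤ d) {D : SqA σ} (hD : D ∈ V d) {z : ℝ} (hz : 0 < z) (m : ℕ) :
    ∀ {K : Submodule (ZMod 2) (SqA σ)}, Cl K →
    2 * (av (fam σ d))^[m + 1] (Fz z) K ≤
      (av (fam σ d))^[m] (Fz z) (K ⊓ LinearMap.ker (mL D)) +
      (1 + 1 / z ^ d) * (av (fam σ d))^[m + 1] (Fz z) (K ⊓ LinearMap.ker (mL D)) := by
  induction m with
  | zero => intro K hK; exact star0 hd hD hz hK
  | succ m ih =>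
    intro K hK
    rw [Function.iterate_succ_apply' _ (m + 1), Function.iterate_succ_apply' _ m]
    have h1 := av_mono (fam σ d) (f := fun W => 2 * (av (fam σ d))^[m + 1] (Fz z) W)
      (f' := fun W => (av (fam σ d))^[m] (Fz z) (W ⊓ LinearMap.ker (mL D)) +
      (1 + 1 / z ^ d) * (av (fam σ d))^[m + 1] (Fz z) (W ⊓ LinearMap.ker (mL D)))
      (fun W hW => ih hW) hK
    rw [av_smul] at h1
    have h2 : av (fam σ d) (fun W => (av (fam σ d))^[m] (Fz z) (W ⊓ LinearMap.ker (mL D)) +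
      (1 + 1 / z ^ d) * (av (fam σ d))^[m + 1] (Fz z) (W ⊓ LinearMap.ker (mL D))) K =
      av (fam σ d) ((av (fam σ d))^[m] (Fz z)) (K ⊓ LinearMap.ker (mL D)) +
      (1 + 1 / z ^ d) * av (fam σ d) ((av (fam σ d))^[m + 1] (Fz z))
        (K ⊓ LinearMap.ker (mL D)) := by
      unfold av
      rw [Finset.sum_add_distrib, ← Finset.mul_sum, add_div, mul_div_assoc]
      simp only [inf_right_comm]
    rw [h2] at h1
    rw [Function.iterate_succ_apply' _ m] at h1
    exact h1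

/-- averages over special forms -/
noncomputable def QQ {ι : Type*} [Fintype ι] (D : ι → SqA σ) (d : ℕ) (z : ℝ) (j m : ℕ) : ℝ :=
  (av D)^[j] ((av (fam σ d))^[m] (Fz z)) ⊤

theorem Fz_mono {z : ℝ} (hz : 0 ≤ z) {W W' : Submodule (ZMod 2) (SqA σ)} (h : W ≤ W') :
    Fz z W ≤ Fz z W' := by
  unfold Fz
  refine Finset.sum_le_sum fun e _ => mul_le_mul_of_nonneg_left ?_ (pow_nonneg hz _)
  exact_mod_cast Submodule.finrank_mono (R := ZMod 2) (inf_le_inf_left _ h)

theorem iter_mono {ι : Type*} [Fintype ι] (D : ι → SqA σ)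
    {f f' : Submodule (ZMod 2) (SqA σ) → ℝ} (h : ∀ W, Cl W → f W ≤ f' W) (j : ℕ) :
    ∀ {W : Submodule (ZMod 2) (SqA σ)}, Cl W → (av D)^[j] f W ≤ (av D)^[j] f' W := by
  induction j with
  | zero => intro W hW; exact h W hW
  | succ j ih =>
    intro W hW
    rw [Function.iterate_succ_apply' _ j, Function.iterate_succ_apply' _ j]
    exact av_mono D (fun W hW => ih hW) hW

theorem iter_smul {ι : Type*} [Fintype ι] (D : ι → SqA σ) (r : ℝ)
    (f : Submodule (ZMod 2) (SqA σ) → ℝ) (j : ℕ) :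
    (av D)^[j] (fun W => r * f W) = fun W => r * (av D)^[j] f W := by
  induction j with
  | zero => rfl
  | succ j ih =>
    rw [Function.iterate_succ_apply' _ j, ih]
    funext W
    rw [av_smul, Function.iterate_succ_apply' _ j]

theorem iter_add {ι : Type*} [Fintype ι] (D : ι → SqA σ)
    (f f' : Submodule (ZMod 2) (SqA σ) → ℝ) (j : ℕ) :
    (av D)^[j] (fun W => f W + f' W) = fun W => (av D)^[j] f W + (av D)^[j] f' W := by
  induction j with
  | zero => rfl
  | succ j ih =>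
    rw [Function.iterate_succ_apply' _ j, ih]
    funext W
    rw [av_add, Function.iterate_succ_apply' _ j, Function.iterate_succ_apply' _ j]

theorem rec_QQ {ι : Type*} [Fintype ι] [Nonempty ι] (D : ι → SqA σ) {d : ℕ} (hd : 1 ≤ d)
    (hD : ∀ c, D c ∈ V d) {z : ℝ} (hz : 0 < z) (j m : ℕ) :
    2 * QQ D d z j (m + 1) ≤ QQ D d z (j + 1) m + (1 + 1 / z ^ d) * QQ D d z (j + 1) (m + 1) := by
  unfold QQ
  have h1 : ∀ W : Submodule (ZMod 2) (SqA σ), Cl W →
      2 * (av (fam σ d))^[m + 1] (Fz z) W ≤ av D ((av (fam σ d))^[m] (Fz z)) W +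
      (1 + 1 / z ^ d) * av D ((av (fam σ d))^[m + 1] (Fz z)) W := by
    intro W hW
    have hcard : (0 : ℝ) < Fintype.card ι := by exact_mod_cast Fintype.card_pos
    have h2 := Finset.sum_le_sum (s := (Finset.univ : Finset ι)) fun c _ =>
      starm hd (hD c) hz m hW
    rw [Finset.sum_const, Finset.sum_add_distrib, ← Finset.mul_sum, nsmul_eq_mul,
      Finset.card_univ] at h2
    have h3 : 2 * (av (fam σ d))^[m + 1] (Fz z) W =
        ((Fintype.card ι : ℝ) * (2 * (av (fam σ d))^[m + 1] (Fz z) W)) / Fintype.card ι := by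
      rw [mul_div_cancel_left₀ _ hcard.ne']
    rw [h3]
    refine (div_le_div_of_nonneg_right h2 hcard.le).trans (le_of_eq ?_)
    unfold av
    rw [add_div, mul_div_assoc]
  have h2 := iter_mono D h1 j Cl_top
  rw [iter_smul, iter_add, iter_smul] at h2
  rw [Function.iterate_succ_apply _ j, Function.iterate_succ_apply _ j]
  exact h2

theorem QQ_le {ι : Type*} [Fintype ι] (D : ι → SqA σ) {d : ℕ} {z : ℝ} (hz : 0 < z) (j m : ℕ) :
    QQ D d z j m ≤ QQ D d z j 0 := by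
  unfold QQ
  apply iter_mono D _ j Cl_top
  intro W hW
  induction m generalizing W with
  | zero => exact le_refl _
  | succ m ih =>
    rw [Function.iterate_succ_apply' _ m]
    change (∑ c, (av (fam σ d))^[m] (Fz z) (W ⊓ LinearMap.ker (mL (fam σ d c)))) /
      (Fintype.card {g : SqA σ // g ∈ (Vf d : Finset (SqA σ))} : ℝ) ≤ _
    have hcard : (0 : ℝ) < Fintype.card {g : SqA σ // g ∈ (Vf d : Finset (SqA σ))} := by
      have : Nonempty {g : SqA σ // g ∈ (Vf d : Finset (SqA σ))} :=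
        ⟨⟨0, mem_Vf.2 (V d).zero_mem⟩⟩
      exact_mod_cast Fintype.card_pos
    rw [div_le_iff₀ hcard]
    have h1 : ∑ c, (av (fam σ d))^[m] (Fz z) (W ⊓ LinearMap.ker (mL (fam σ d c))) ≤
        ∑ _c : {g : SqA σ // g ∈ (Vf d : Finset (SqA σ))}, (av (fam σ d))^[0] (Fz z) W := by
      refine Finset.sum_le_sum fun c _ => (ih _ ?_).trans ?_
      · exact hW.inf _
      · exact Fz_mono hz.le inf_le_left
    rw [Finset.sum_const, nsmul_eq_mul, Finset.card_univ] at h1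
    rw [mul_comm]
    exact h1

/-- the supersolution -/
theorem QQ_bound {ι : Type*} [Fintype ι] [Nonempty ι] (D : ι → SqA σ) {d : ℕ} (hd : 1 ≤ d)
    (hD : ∀ c, D c ∈ V d) {z : ℝ} (hz : 0 < z) {A y : ℝ} (hA : 0 ≤ A)
    (hy : y = z ^ d / (1 + z ^ d)) {L : ℕ} (hL : ∀ j ≤ L, QQ D d z j 0 ≤ A * y ^ j) :
    ∀ k j : ℕ, j + k = L → ∀ m, QQ D d z j m ≤
      A * (y ^ (j + m) + ((1 + y) / 2) ^ k * y ^ j) := by
  have hzd : 0 < z ^ d := pow_pos hz d
  have hy0 : 0 < y := by rw [hy]; positivity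
  have hy1 : 1 + 1 / z ^ d = 1 / y := by
    rw [hy]
    field_simp
    ring
  intro k
  induction k with
  | zero =>
    intro j hj m
    refine (QQ_le D hz j m).trans ((hL j (by omega)).trans ?_)
    apply mul_le_mul_of_nonneg_left _ hA
    rw [pow_zero, one_mul]
    have : 0 < y ^ (j + m) := pow_pos hy0 _
    linarith
  | succ k ih =>
    intro j hj m
    cases m with
    | zero =>
      refine (hL j (by omega)).trans ?_
      apply mul_le_mul_of_nonneg_left _ hA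
      rw [add_zero]
      have : 0 ≤ ((1 + y) / 2) ^ (k + 1) * y ^ j := by positivity
      linarith
    | succ m =>
      have h1 := rec_QQ D hd hD hz j m
      have h2 := ih (j + 1) (by omega) m
      have h3 := ih (j + 1) (by omega) (m + 1)
      rw [hy1] at h1
      have h4 : 1 / y * QQ D d z (j + 1) (m + 1) ≤
          1 / y * (A * (y ^ (j + 1 + (m + 1)) + ((1 + y) / 2) ^ k * y ^ (j + 1))) :=
        mul_le_mul_of_nonneg_left h3 (by positivity)
      have h5 : A * (y ^ (j + 1 + m) + ((1 + y) / 2) ^ k * y ^ (j + 1)) +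
          1 / y * (A * (y ^ (j + 1 + (m + 1)) + ((1 + y) / 2) ^ k * y ^ (j + 1))) =
          2 * (A * (y ^ (j + (m + 1)) + ((1 + y) / 2) ^ (k + 1) * y ^ j)) := by
        have e1 : j + 1 + m = j + (m + 1) := by ring
        have e2 : y ^ (j + 1 + (m + 1)) = y * y ^ (j + (m + 1)) := by
          rw [← pow_succ']; congr 1; ring
        rw [e1, e2, pow_succ y j, pow_succ ((1 + y) / 2) k]
        field_simp
        ring
      linarith

end H26IX
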