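import Pool.Agent.H26.IX.Numeric

/-!
# Tuples of forms: first moment, duality
-/

namespace H26IX

open Finset H67SR H67SR.SqA Module

set_option linter.unusedSectionVars false

variable {σ : Type*} [DecidableEq σ] [Fintype σ]

/-- the common kernel of the forms `lam i` on `W` -/
noncomputable def Ann {m : ℕ} (W : Submodule (ZMod 2) (SqA σ)) (lam : Fin m → SqA σ) :
    Submodule (ZMod 2) (SqA σ) := W ⊓ ⨅ i, LinearMap.ker (mL (lam i))

theorem Ann_cons {m : ℕ} (W : Submodule (ZMod 2) (SqA σ)) (a : SqA σ) (lam : Fin m → SqA σ) :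
    Ann W (Fin.cons a lam : Fin (m + 1) → SqA σ) = Ann (W ⊓ LinearMap.ker (mL a)) lam := by
  unfold Ann
  ext x
  simp only [Submodule.mem_inf, Submodule.mem_iInf]
  constructor
  · rintro ⟨h1, h2⟩
    refine ⟨⟨h1, ?_⟩, fun i => ?_⟩
    · have := h2 0
      rwa [Fin.cons_zero] at this
    · have := h2 i.succ
      rwa [Fin.cons_succ] at this
  · rintro ⟨⟨h1, h2⟩, h3⟩
    refine ⟨h1, fun i => ?_⟩
    refine Fin.cases ?_ (fun i => ?_) i
    · rwa [Fin.cons_zero]
    · rw [Fin.cons_succ]; exact h3 i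

theorem sum_cons {m : ℕ} (s : Finset (SqA σ)) (f : (Fin (m + 1) → SqA σ) → ℝ) :
    ∑ lam ∈ Fintype.piFinset (fun _ : Fin (m + 1) => s), f lam =
      ∑ a ∈ s, ∑ lam ∈ Fintype.piFinset (fun _ : Fin m => s), f (Fin.cons a lam) := by
  rw [← Finset.sum_product']
  symm
  refine Finset.sum_nbij' (fun p : SqA σ × (Fin m → SqA σ) =>
    (Fin.cons p.1 p.2 : Fin (m + 1) → SqA σ)) (fun lam => (lam 0, Fin.tail lam)) ?_ ?_ ?_ ?_ ?_
  · rintro ⟨a, lam⟩ h
    rw [Finset.mem_product, Fintype.mem_piFinset] at h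
    rw [Fintype.mem_piFinset]
    intro i
    refine Fin.cases ?_ (fun i => ?_) i
    · rw [Fin.cons_zero]; exact h.1
    · rw [Fin.cons_succ]; exact h.2 i
  · intro lam h
    rw [Fintype.mem_piFinset] at h
    rw [Finset.mem_product, Fintype.mem_piFinset]
    exact ⟨h 0, fun i => h i.succ⟩
  · rintro ⟨a, lam⟩ _
    simp [Fin.tail_cons]
  · intro lam _
    exact Fin.cons_self_tail lam
  · rintro ⟨a, lam⟩ _
    rfl

theorem first_moment {d e : ℕ} (he : e ≤ Fintype.card σ) (m : ℕ) :
    ∀ W : Submodule (ZMod 2) (SqA σ), W ≤ V e →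
      ∑ lam ∈ Fintype.piFinset (fun _ : Fin m => (Vf d : Finset (SqA σ))),
        (finrank (ZMod 2) (Ann W lam) : ℝ) ≤
      (kap σ d e * 2 ^ (Fintype.card σ).choose d) ^ m * finrank (ZMod 2) W := by
  induction m with
  | zero =>
    intro W _
    have h1 : ∀ lam : Fin 0 → SqA σ, Ann W lam = W := by
      intro lam
      unfold Ann
      simp
    rw [Finset.sum_congr rfl (fun lam _ => by rw [h1 lam])]
    simp
  | succ m ih =>
    intro W hW
    rw [sum_cons]
    have h0 : 0 ≤ kap σ d e * 2 ^ (Fintype.card σ).choose d :=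
      mul_nonneg (kap_nonneg d e) (by positivity)
    calc ∑ a ∈ (Vf d : Finset (SqA σ)), ∑ lam ∈ Fintype.piFinset (fun _ : Fin m => Vf d),
          (finrank (ZMod 2) (Ann W (Fin.cons a lam : Fin (m + 1) → SqA σ)) : ℝ)
        ≤ ∑ a ∈ (Vf d : Finset (SqA σ)), (kap σ d e * 2 ^ (Fintype.card σ).choose d) ^ m *
            nul W a := by
          refine Finset.sum_le_sum fun a _ => ?_
          have h1 := ih (W ⊓ LinearMap.ker (mL a)) (inf_le_left.trans hW)
          rw [Finset.sum_congr rfl (fun lam _ => by rw [Ann_cons W a lam])]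
          exact h1
      _ = (kap σ d e * 2 ^ (Fintype.card σ).choose d) ^ m * S d W := by
          rw [← Finset.mul_sum]
          unfold S
          push_cast
          rfl
      _ ≤ (kap σ d e * 2 ^ (Fintype.card σ).choose d) ^ m *
            (kap σ d e * 2 ^ (Fintype.card σ).choose d * finrank (ZMod 2) W) :=
          mul_le_mul_of_nonneg_left (slope_real he hW) (pow_nonneg h0 m)
      _ = _ := by rw [pow_succ]; ring

/-! ### duality -/

theorem smul_eq (c : ZMod 2) (f : SqA σ) : c • f = 0 ∨ c • f = f := by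
  have h : c = 0 ∨ c = 1 := by revert c; decide
  rcases h with rfl | rfl
  · left; exact zero_smul _ _
  · right; exact one_smul _ _

/-- an ideal as a subspace -/
def Isub (I : Ideal (SqA σ)) : Submodule (ZMod 2) (SqA σ) where
  carrier := (I : Set (SqA σ))
  zero_mem' := I.zero_mem
  add_mem' := I.add_mem
  smul_mem' := by
    intro c x hx
    rcases smul_eq c x with h | h
    · rw [h]; exact I.zero_mem
    · rw [h]; exact hx

theorem mem_Isub {I : Ideal (SqA σ)} {x : SqA σ} : x ∈ Isub I ↔ x ∈ I := Iff.rfl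

theorem dual {m d e k : ℕ} (hk : k + e = Fintype.card σ) {lam : Fin m → SqA σ}
    (hlam : ∀ i, lam i ∈ V d) (h0 : Ann (V e) lam = ⊥) :
    ∀ f ∈ (V k : Submodule (ZMod 2) (SqA σ)), f ∈ Ideal.span (Set.range lam) := by
  classical
  intro f0 hf0
  by_contra hnot
  have hnot' : f0 ∉ Isub (Ideal.span (Set.range lam)) := hnot
  obtain ⟨φ, hφ0, hφ⟩ := Submodule.exists_le_ker_of_notMem hnot'
  set g : SqA σ := fun T => if T.card = e then φ (mono Tᶜ) else 0 with hg
  have hgT : ∀ T, g T = if T.card = e then φ (mono Tᶜ) else 0 := fun T => rfl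
  have hgV : g ∈ V e := by
    intro T hT
    rw [hgT] at hT
    by_contra h
    rw [if_neg h] at hT
    exact hT rfl
  have hrep : ∀ f ∈ (V k : Submodule (ZMod 2) (SqA σ)), φ f = (f * g) Finset.univ := by
    intro f hf
    have h1 : φ f = ∑ T ∈ supp f, φ (mono T) := by
      conv_lhs => rw [sum_mono f]
      rw [map_sum]
    rw [h1, mul_apply, Finset.powerset_univ]
    rw [← Finset.sum_subset (Finset.subset_univ (supp f))]
    · refine Finset.sum_congr rfl fun T hT => ?_
      have hT' := mem_supp.1 hT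
      have hc := hf T hT'
      have h2 : (Finset.univ \ T) = Tᶜ := rfl
      have h3 : Tᶜ.card = e := by
        rw [Finset.card_compl]
        omega
      rw [eq_one_of_ne hT', one_mul, h2, hgT, if_pos h3, compl_compl]
    · intro T _ hT
      have : f T = 0 := by
        by_contra h
        exact hT (mem_supp.2 h)
      rw [this, zero_mul]
  have hker : ∀ i, lam i * g = 0 := by
    intro i
    ext T
    rw [zero_apply]
    by_contra hne
    have hV := mul_mem_V (hlam i) hgV T hne
    have hcT : T.card ≤ Fintype.card σ := Finset.card_le_univ T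
    have h1 : (mono Tᶜ : SqA σ) * lam i ∈ V k := by
      have h2 : (mono Tᶜ : SqA σ) ∈ V (Tᶜ.card) := by
        intro U hU
        rw [mono_apply] at hU
        by_cases h : U = Tᶜ
        · rw [h]
        · rw [if_neg h] at hU; exact absurd rfl hU
      have h3 := mul_mem_V h2 (hlam i)
      have h4 : Tᶜ.card + d = k := by
        rw [Finset.card_compl]
        omega
      rwa [h4] at h3
    have h2 := hrep _ h1
    have h3 : φ ((mono Tᶜ : SqA σ) * lam i) = 0 := by
      have h4 : (mono Tᶜ : SqA σ) * lam i ∈ Isub (Ideal.span (Set.range lam)) :=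
        Ideal.mul_mem_left _ _ (Ideal.subset_span ⟨i, rfl⟩)
      exact LinearMap.mem_ker.1 (hφ h4)
    rw [h3, mul_assoc, mono_mul_apply, if_pos (Finset.subset_univ _)] at h2
    have h5 : (Finset.univ \ Tᶜ) = T := by
      ext x; simp
    rw [h5] at h2
    exact hne h2.symm
  have hg0 : g = 0 := by
    have h1 : g ∈ Ann (V e) lam := by
      unfold Ann
      refine ⟨hgV, ?_⟩
      rw [SetLike.mem_coe, Submodule.mem_iInf]
      intro i
      rw [LinearMap.mem_ker, mL_apply]
      exact hker i
    rw [h0, Submodule.mem_bot] at h1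
    exact h1
  apply hφ0
  rw [hrep f0 hf0, hg0, mul_zero]
  rfl

end H26IX
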