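import Pool.Agent.H26.IX.HalfGen
import Pool.Agent.H26.IX.Num2

/-!
# The index of a random `n`-tuple of quadratic forms
-/

namespace H26IX

open Finset H67SR H67SR.SqA Module Filter

theorem ind_two :
    ∃ c : ℝ, 0 < c ∧ ∀ᶠ n : ℕ in atTop,
      0 < (tups n 2).ncard ∧
      1 - Real.exp (-c * n) ≤
      (({lam ∈ tups n 2 |
        ((sInf {D | part n D ⊆ (Ideal.span (Set.range lam) : Set (BB n))} : ℕ) : ℝ) ≤
          (1 - 537 / 1000) * (n : ℝ)} : Set (Fin n → BB n)).ncard : ℝ) /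
        ((tups n 2).ncard : ℝ) :=
  ind_of_num (by norm_num) num_two

end H26IX
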